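import Pool.Agent.Lib.MP_938ce2_ag_H7e.Sharp

/-!
Mixed differences at the top level for functions without parity.
-/

set_option autoImplicit false
set_option linter.style.haveILetI false
set_option linter.unusedSectionVars false

open Finset

namespace Pool.Agent.Lib.MP_938ce2_ag_H7e

open Pool.Agent.Lib.MP_938ce2_ag_h99

variable {m r : ℕ} [NeZero m] [NeZero r]

/-- the two conditions replacing the Tate condition -/
structure TP (Q : ℕ) (e : ZMod r → ℤ) (H : ZMod m → ℤ) : Prop where
  o : SInv Q (fun a => H a - H (-a))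
  ev : SInv Q (sharp m r e (fun a => H a + H (-a)))

lemma TP.sub {Q : ℕ} {e : ZMod r → ℤ} {H G : ZMod m → ℤ} (hH : TP Q e H) (hG : TP Q e G) :
    TP Q e (H - G) where
  o := by
    have := hH.o.add hG.o.neg
    convert this using 1
    funext a
    simp only [Pi.sub_apply, Pi.add_apply, Pi.neg_apply]
    ring
  ev := by
    have := hH.ev.add hG.ev.neg
    rw [← sharp_neg, ← sharp_add] at this
    convert this using 2
    funext a
    simp only [Pi.sub_apply, Pi.add_apply, Pi.neg_apply]
    ring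

lemma TP.of_odd {Q : ℕ} {e : ZMod r → ℤ} {F : ZMod m → ℤ} (hodd : OddF F) (hT : TateF F) :
    TP Q e F where
  o := by
    have h := SInv.of_tate (Q := Q) hT
    have := h.add h
    convert this using 1
    funext a
    simp only [Pi.add_apply, hodd a]
    ring
  ev := by
    have h0 : (fun a => F a + F (-a)) = (0 : ZMod m → ℤ) := by
      funext a
      rw [hodd a]
      simp
    rw [h0, sharp_zero]
    exact SInv.zero

lemma TP.of_gInv {Q n q : ℕ} (hD : Dat m Q n q) {e : ZMod r → ℤ}
    (hrm : Nat.Coprime r m) {E : ZMod m → ℤ} (hE : GInv Q E) : TP Q e E where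
  o := by
    apply GInv.sInv
    intro u hu a
    beta_reduce
    rw [hE u hu, ← mul_neg, hE u hu]
  ev := by
    apply GInv.sInv
    apply GInv.sharp hD hrm
    intro u hu a
    beta_reduce
    rw [hE u hu, ← mul_neg, hE u hu]

lemma TP.of_rel {Q n q : ℕ} (hD : Dat m Q n q) {e : ZMod r → ℤ} (he : Aux n r e)
    {p : ℕ} (hp : p.Prime) (hpn : p ∣ n) {h : ZMod m → ℤ}
    (hs : ∀ a, h a ≠ 0 → ∃ b, a = (p : ZMod m) * b) : TP Q e (rel p h) := by
  have hpm : p ∣ m := hpn.trans hD.nm
  have hs' : ∀ a, h (-a) ≠ 0 → ∃ b, a = (p : ZMod m) * b := by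
    intro a ha
    obtain ⟨b, hb⟩ := hs _ ha
    exact ⟨-b, by rw [mul_neg, ← hb, neg_neg]⟩
  constructor
  · apply SInv.of_tate
    have h1 : (fun a => rel p h a - rel p h (-a)) = rel p (fun a => h a - h (-a)) := by
      funext a
      unfold rel
      rw [mul_neg]
      ring
    rw [h1]
    apply rel_tate hp.pos hpm
    · intro a; beta_reduce; rw [neg_neg]; ring
    · intro a ha
      by_contra hc
      apply ha
      have h2 : h a = 0 := by_contra fun h2 => hc (hs a h2)
      have h3 : h (-a) = 0 := by_contra fun h2 => hc (hs' a h2)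
      rw [h2, h3, sub_zero]
  · apply SInv.of_tate
    have h1 : (fun a => rel p h a + rel p h (-a)) = rel p (fun a => h a + h (-a)) := by
      funext a
      unfold rel
      rw [mul_neg]
      ring
    rw [h1, sharp_rel he hp hpn]
    apply rel_tate hp.pos (hpm.trans (Dvd.intro _ rfl))
    · apply sharp_odd he
      intro a
      beta_reduce
      rw [neg_neg, add_comm]
    · apply sharp_supp hpm
      intro a ha
      by_contra hc
      apply ha
      have h2 : h a = 0 := by_contra fun h2 => hc (hs a h2)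
      have h3 : h (-a) = 0 := by_contra fun h2 => hc (hs' a h2)
      rw [h2, h3, add_zero]

lemma order_sharp (hr : r.Prime) (hrm : Nat.Coprime r m) (a : ZMod (m * r))
    (ha : ZMod.castHom (Dvd.intro_left _ rfl : r ∣ m * r) (ZMod r) a ≠ 0) :
    addOrderOf a = addOrderOf (ZMod.castHom (Dvd.intro _ rfl : m ∣ m * r) (ZMod m) a) * r := by
  set am := ZMod.castHom (Dvd.intro _ rfl : m ∣ m * r) (ZMod m) a with ham
  set ar := ZMod.castHom (Dvd.intro_left _ rfl : r ∣ m * r) (ZMod r) a with har
  haveI : Fact r.Prime := ⟨hr⟩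
  apply Nat.dvd_antisymm
  · apply addOrderOf_dvd_of_nsmul_eq_zero
    rw [nsmul_eq_mul]
    have h1 : (addOrderOf am : ZMod m) * am = 0 := by
      rw [← nsmul_eq_mul]; exact addOrderOf_nsmul_eq_zero _
    -- test modulo m and r
    have hval : m * r ∣ (addOrderOf am * r) * a.val := by
      have h2 : m ∣ addOrderOf am * a.val := by
        have h3 : ((addOrderOf am * a.val : ℕ) : ZMod m) = 0 := by
          rw [Nat.cast_mul]
          have h4 : ((a.val : ℕ) : ZMod m) = am := by
            rw [ham]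
            conv_rhs => rw [← ZMod.natCast_zmod_val a, map_natCast]
          rw [h4, h1]
        rwa [ZMod.natCast_eq_zero_iff] at h3
      calc m * r ∣ (addOrderOf am * a.val) * r := Nat.mul_dvd_mul_right h2 r
        _ = (addOrderOf am * r) * a.val := by ring
    have h5 : (((addOrderOf am * r) * a.val : ℕ) : ZMod (m * r)) = 0 := by
      rw [ZMod.natCast_eq_zero_iff]; exact hval
    rw [Nat.cast_mul, ZMod.natCast_zmod_val] at h5
    exact h5
  · apply Nat.Coprime.mul_dvd_of_dvd_of_dvd
    · exact (Nat.Coprime.coprime_dvd_right (addOrderOf_dvd_m am) hrm).symm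
    · exact addOrderOf_map_dvd (ZMod.castHom (Dvd.intro _ rfl : m ∣ m * r) (ZMod m)).toAddMonoidHom a
    · have h1 : addOrderOf ar = r := by
        have h2 := addOrderOf_dvd_m ar
        rcases (Nat.dvd_prime hr).mp h2 with h3 | h3
        · rw [AddMonoid.addOrderOf_eq_one_iff] at h3
          exact absurd h3 ha
        · exact h3
      have h2 : addOrderOf ar ∣ addOrderOf a := addOrderOf_map_dvd
        (ZMod.castHom (Dvd.intro_left _ rfl : r ∣ m * r) (ZMod r)).toAddMonoidHom a
      rwa [h1] at h2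

/-- mixed differences at the top level, arbitrary functions -/
theorem MD_all {Q n q g : ℕ} (hD : Dat m Q n q) (hg : g ∣ n) (hfm : Q * g ∣ m) [NeZero (Q * g)]
    {e : ZMod r → ℤ} (he : Aux n r e) (hrm : Nat.Coprime r m) (H : ZMod m → ℤ) (hT : TP Q e H)
    (hsupp : ∀ a, H a ≠ 0 → Q ∣ addOrderOf a)
    (hsup : ∀ a, H a ≠ 0 → Q * g ∣ addOrderOf a → addOrderOf a = Q * g)
    (ps : List ℕ) (hQps : Q ∈ ps) (hps : ∀ p, p.Prime → p ∣ g → p ∈ ps) :
    MD (ps.map (Kp (Q * g))) (fun u : (ZMod (Q * g))ˣ => H (jj hfm (u : ZMod (Q * g)))) := by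
  have hn0 : n ≠ 0 := hD.hn
  have hg0 : g ≠ 0 := (hD.sub hg).hn
  have hQ0 : Q ≠ 0 := hD.Qpos.ne'
  have hr0 : r ≠ 0 := NeZero.ne r
  have hr := he.hr
  haveI : Fact r.Prime := ⟨hr⟩
  have hsupp' : ∀ a, H (-a) ≠ 0 → Q ∣ addOrderOf a := by
    intro a ha
    have := hsupp _ ha
    rwa [addOrderOf_neg] at this
  have hsup' : ∀ a, H (-a) ≠ 0 → Q * g ∣ addOrderOf a → addOrderOf a = Q * g := by
    intro a ha hd
    have := hsup _ ha (by rwa [addOrderOf_neg])
    rwa [addOrderOf_neg] at this
  -- the odd part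
  have hMDo : MD (ps.map (Kp (Q * g)))
      (fun u : (ZMod (Q * g))ˣ => H (jj hfm (u : ZMod (Q * g))) - H (-(jj hfm (u : ZMod (Q * g))))) := by
    refine MD_odd hD hg hfm (fun a => H a - H (-a)) ?_ hT.o ?_ ?_ ps hQps hps
    · intro a; beta_reduce; rw [neg_neg]; ring
    · intro a ha
      by_cases h1 : H a = 0
      · by_cases h2 : H (-a) = 0
        · exact absurd (by rw [h1, h2, sub_zero]) ha
        · exact hsupp' a h2
      · exact hsupp a h1
    · intro a ha hd
      by_cases h1 : H a = 0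
      · by_cases h2 : H (-a) = 0
        · exact absurd (by rw [h1, h2, sub_zero]) ha
        · exact hsup' a h2 hd
      · exact hsup a h1 hd
  -- the even part
  set He : ZMod m → ℤ := fun a => H a + H (-a) with hHe
  have hHe0 : ∀ a, He a ≠ 0 → H a ≠ 0 ∨ H (-a) ≠ 0 := by
    intro a ha
    by_contra hc
    push Not at hc
    exact ha (by rw [hHe]; beta_reduce; rw [hc.1, hc.2, add_zero])
  have hD' : Dat (m * r) Q (n * r) q :=
    { hm := by rw [hD.hm, mul_assoc]
      hq := hD.hq
      hQ := hD.hQ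
      hcop := Nat.Coprime.mul_right hD.hcop (Nat.Coprime.coprime_dvd_right hD.Qm hrm).symm
      hn := mul_ne_zero hn0 hr0 }
  have hgr : g * r ∣ n * r := Nat.mul_dvd_mul_right hg r
  have hf' : Q * (g * r) ∣ m * r := by
    rw [← mul_assoc]; exact Nat.mul_dvd_mul_right hfm r
  haveI : NeZero (Q * (g * r)) := ⟨mul_ne_zero hQ0 (mul_ne_zero hg0 hr0)⟩
  have hff' : Q * g ∣ Q * (g * r) := by rw [← mul_assoc]; exact Dvd.intro _ rfl
  have hrf' : r ∣ Q * (g * r) := by rw [← mul_assoc]; exact Dvd.intro_left _ rfl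
  have hcopfr : Nat.Coprime (Q * g) r := (Nat.Coprime.coprime_dvd_right hfm hrm).symm
  have hMDe' : MD ((r :: ps).map (Kp (Q * (g * r))))
      (fun w : (ZMod (Q * (g * r)))ˣ => sharp m r e He (jj hf' (w : ZMod (Q * (g * r))))) := by
    refine MD_odd hD' hgr hf' (sharp m r e He) ?_ hT.ev ?_ ?_ (r :: ps)
      (List.mem_cons_of_mem _ hQps) ?_
    · apply sharp_odd he
      intro a
      rw [hHe]
      beta_reduce
      rw [neg_neg, add_comm]
    · intro a ha
      have h1 : He (ZMod.castHom (Dvd.intro _ rfl : m ∣ m * r) (ZMod m) a) ≠ 0 := by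
        intro h0; apply ha; unfold sharp; rw [h0, zero_mul]
      have h2 : Q ∣ addOrderOf (ZMod.castHom (Dvd.intro _ rfl : m ∣ m * r) (ZMod m) a) := by
        rcases hHe0 _ h1 with h | h
        · exact hsupp _ h
        · exact hsupp' _ h
      exact h2.trans (addOrderOf_map_dvd
        (ZMod.castHom (Dvd.intro _ rfl : m ∣ m * r) (ZMod m)).toAddMonoidHom a)
    · intro a ha hd
      have h1 : He (ZMod.castHom (Dvd.intro _ rfl : m ∣ m * r) (ZMod m) a) ≠ 0 := by
        intro h0; apply ha; unfold sharp; rw [h0, zero_mul]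
      have h2 : ZMod.castHom (Dvd.intro_left _ rfl : r ∣ m * r) (ZMod r) a ≠ 0 := by
        intro h0; apply ha; unfold sharp; rw [h0, he.zero, mul_zero]
      have h3 := order_sharp hr hrm a h2
      rw [h3, ← mul_assoc] at hd ⊢
      have h4 : Q * g ∣ addOrderOf (ZMod.castHom (Dvd.intro _ rfl : m ∣ m * r) (ZMod m) a) :=
        Nat.dvd_of_mul_dvd_mul_right hr.pos hd
      congr 1
      rcases hHe0 _ h1 with h | h
      · exact hsup _ h h4
      · exact hsup' _ h h4
    · intro p hp hpg
      rcases hp.dvd_mul.mp hpg with h | h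
      · exact List.mem_cons_of_mem _ (hps p hp h)
      · rw [(Nat.prime_dvd_prime_iff_eq hp hr).mp h]
        exact List.mem_cons_self
  -- values of the transferred function
  set φ := ZMod.unitsMap hff' with hφ
  set ρ := ZMod.unitsMap hrf' with hρ
  have hdiv : (m * r) / (Q * (g * r)) = m / (Q * g) := by
    rw [← mul_assoc]
    exact Nat.mul_div_mul_right _ _ hr.pos
  have hcdvd : m / (Q * g) ∣ n := by
    obtain ⟨k, hk⟩ := hg
    have : m = Q * g * k := by rw [hD.hm, hk, mul_assoc]
    rw [this, Nat.mul_div_cancel_left _ (Nat.pos_of_ne_zero (NeZero.ne (Q * g)))]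
    exact ⟨g, by rw [hk, mul_comm]⟩
  have hval : ∀ w : (ZMod (Q * (g * r)))ˣ, sharp m r e He (jj hf' (w : ZMod (Q * (g * r))))
      = He (jj hfm ((φ w : (ZMod (Q * g))ˣ) : ZMod (Q * g))) * e ((ρ w : (ZMod r)ˣ) : ZMod r) := by
    intro w
    have h0 : jj hf' (w : ZMod (Q * (g * r)))
        = ((m / (Q * g) * (w : ZMod (Q * (g * r))).val : ℕ) : ZMod (m * r)) := by
      conv_lhs => rw [← ZMod.natCast_zmod_val (w : ZMod (Q * (g * r)))]
      rw [jj_natCast, hdiv]
    unfold sharp
    rw [h0, map_natCast, map_natCast]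
    congr 1
    · congr 1
      have h1 : ((φ w : (ZMod (Q * g))ˣ) : ZMod (Q * g))
          = (((w : ZMod (Q * (g * r))).val : ℕ) : ZMod (Q * g)) := by
        rw [hφ, ZMod.unitsMap_val, ZMod.cast_eq_val]
      rw [h1, jj_natCast]
    · have h1 : ((ρ w : (ZMod r)ˣ) : ZMod r)
          = (((w : ZMod (Q * (g * r))).val : ℕ) : ZMod r) := by
        rw [hρ, ZMod.unitsMap_val, ZMod.cast_eq_val]
      rw [h1, Nat.cast_mul, he.mul, aux_dvd he _ hcdvd hn0, one_mul]
  have hMDe : MD (ps.map (Kp (Q * g)))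
      (fun u : (ZMod (Q * g))ˣ => He (jj hfm (u : ZMod (Q * g)))) := by
    -- remove the auxiliary prime
    have h1 : MD (ps.map (Kp (Q * (g * r))))
        (fun w : (ZMod (Q * (g * r)))ˣ => He (jj hfm ((φ w : (ZMod (Q * g))ˣ) : ZMod (Q * g)))
          * e ((ρ w : (ZMod r)ˣ) : ZMod r)) := by
      apply MD.of_two
      rw [List.map_cons, MD_cons] at hMDe'
      obtain ⟨k, hk1, hk2⟩ := exists_lift2 (NeZero.ne (Q * (g * r))) (by rw [mul_assoc])
        hcopfr hff' hrf' (1 : (ZMod (Q * g))ˣ) (-1 : (ZMod r)ˣ)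
      have hkK : k ∈ Kp (Q * (g * r)) r := by
        rw [mem_Kp_iff_unitsMap hrf']
        have hdd : Q * (g * r) / r = Q * g := by
          rw [← mul_assoc]; exact Nat.mul_div_cancel _ hr.pos
        apply Units.ext
        rw [ZMod.unitsMap_val, Units.val_one]
        have h3 := congrArg Units.val hk1
        rw [ZMod.unitsMap_val, Units.val_one] at h3
        rw [ZMod.cast_eq_val] at h3 ⊢
        rw [← Nat.cast_one, ZMod.natCast_eq_natCast_iff] at h3 ⊢
        rw [hdd]
        exact h3
      have h2 := hMDe' k hkK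
      convert h2 using 2 with w
      rw [hval, hval]
      have e1 : φ (k * w) = φ w := by rw [map_mul, hφ, hk1, one_mul]
      have e2 : ((ρ (k * w) : (ZMod r)ˣ) : ZMod r) = -1 * ((ρ w : (ZMod r)ˣ) : ZMod r) := by
        rw [map_mul, hρ, hk2, Units.val_mul, Units.val_neg, Units.val_one]
      rw [e1, e2, he.mul, he.neg]
      ring
    intro x
    obtain ⟨w, hw1, hw2⟩ := exists_lift2 (NeZero.ne (Q * (g * r))) (by rw [mul_assoc])
        hcopfr hff' hrf' x (1 : (ZMod r)ˣ)
    have h2 := h1 w
    rw [← hw1]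
    refine MD.transfer φ ρ.ker (fun w => e ((ρ w : (ZMod r)ˣ) : ZMod r)) ?_
      (ps.map (Kp (Q * g))) (ps.map (Kp (Q * (g * r)))) ?_ 
      (fun u : (ZMod (Q * g))ˣ => He (jj hfm (u : ZMod (Q * g)))) w ?_ h2
    · intro k hk w
      rw [MonoidHom.mem_ker] at hk
      beta_reduce
      rw [map_mul, hk, one_mul]
    · rw [List.forall₂_map_left_iff, List.forall₂_map_right_iff, List.forall₂_same]
      intro p _ k hk
      obtain ⟨k', hk'1, hk'2⟩ := exists_lift2 (NeZero.ne (Q * (g * r))) (by rw [mul_assoc])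
        hcopfr hff' hrf' k (1 : (ZMod r)ˣ)
      refine ⟨k', ?_, ?_, hk'1⟩
      · rw [mem_Kp] at hk ⊢
        have h3 : (((k' : ZMod (Q * (g * r))).val * p : ℕ) : ZMod (Q * (g * r)))
            = (p : ZMod (Q * (g * r))) := by
          rw [ZMod.natCast_eq_natCast_iff]
          have h4 : (k' : ZMod (Q * (g * r))).val * p ≡ p [MOD (Q * g)] := by
            rw [← ZMod.natCast_eq_natCast_iff, Nat.cast_mul]
            have h5 := congrArg Units.val hk'1
            rw [ZMod.unitsMap_val, ZMod.cast_eq_val] at h5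
            rw [h5, hk]
          have h6 : (k' : ZMod (Q * (g * r))).val * p ≡ p [MOD r] := by
            have h5 := congrArg Units.val hk'2
            rw [ZMod.unitsMap_val, ZMod.cast_eq_val, Units.val_one] at h5
            rw [← ZMod.natCast_eq_natCast_iff, Nat.cast_mul, h5, one_mul]
          have h7 := (Nat.modEq_and_modEq_iff_modEq_mul hcopfr).mp ⟨h4, h6⟩
          rwa [mul_assoc] at h7
        rw [Nat.cast_mul, ZMod.natCast_zmod_val] at h3
        exact h3
      · rw [MonoidHom.mem_ker]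
        exact hk'2
    · beta_reduce
      rw [hρ, hw2, Units.val_one, he.one]
  -- combine
  apply MD.of_two
  have := MD.add hMDo hMDe
  convert this using 2 with u
  rw [hHe]
  ring

end Pool.Agent.Lib.MP_938ce2_ag_H7e
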