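import Pool.Agent.Lib.MP_938ce2_ag_H7e.Split0

/-!
Character sums.
-/

set_option autoImplicit false
set_option linter.style.haveILetI false
set_option linter.unusedSectionVars false

open Finset

namespace Pool.Agent.Lib.MP_938ce2_ag_H7e

open Pool.Agent.Lib.MP_938ce2_ag_h99

section VV

variable {m : ℕ} [NeZero m]

/-- the transform attached to a character -/
noncomputable def VV (χ : DirichletCharacter ℂ m) (a : ZMod m) : ℂ :=
  ∑ t : (ZMod m)ˣ, χ ((t⁻¹ : (ZMod m)ˣ) : ZMod m) * ((((t : ZMod m) * a).val : ℕ) : ℂ)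

/-- the sum of the representatives -/
def SS (F : ZMod m → ℤ) (t : (ZMod m)ˣ) : ℤ := ∑ a, F a * (((t : ZMod m) * a).val : ℤ)

lemma sum_mul_VV (χ : DirichletCharacter ℂ m) (F : ZMod m → ℤ) :
    ∑ a, (F a : ℂ) * VV χ a
      = ∑ t : (ZMod m)ˣ, χ ((t⁻¹ : (ZMod m)ˣ) : ZMod m) * (SS F t : ℂ) := by
  simp_rw [VV, SS, mul_sum]
  rw [sum_comm]
  refine sum_congr rfl fun t _ => ?_
  push_cast
  rw [mul_sum]
  refine sum_congr rfl fun a _ => ?_
  ring

lemma VV_mul (χ : DirichletCharacter ℂ m) (s : (ZMod m)ˣ) (a : ZMod m) :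
    VV χ ((s : ZMod m) * a) = χ (s : ZMod m) * VV χ a := by
  unfold VV
  rw [mul_sum]
  refine Fintype.sum_equiv (Equiv.mulRight s) _ _ fun t => ?_
  have : χ (s : ZMod m) * χ ((s⁻¹ : (ZMod m)ˣ) : ZMod m) = 1 := by
    rw [← map_mul, ← Units.val_mul, mul_inv_cancel, Units.val_one, map_one]
  rw [Equiv.coe_mulRight, mul_inv_rev, Units.val_mul, map_mul, Units.val_mul,
    mul_assoc (t : ZMod m)]
  linear_combination (-(χ ((t⁻¹ : (ZMod m)ˣ) : ZMod m) *
    ((((t : ZMod m) * (s * a)).val : ℕ) : ℂ))) * this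

lemma VV_low (χ : DirichletCharacter ℂ m) {a : ZMod m} (hVa : VV χ a ≠ 0) :
    χ.conductor ∣ addOrderOf a := by
  have hdv : addOrderOf a ∣ m := addOrderOf_dvd_m a
  have hfac : χ.FactorsThrough (addOrderOf a) := by
    rw [DirichletCharacter.factorsThrough_iff_ker_unitsMap hdv]
    intro s hs
    rw [MonoidHom.mem_ker] at hs ⊢
    obtain ⟨u, hu⟩ := exists_unit_of_order hdv (a := a) rfl
    have h1 : (s : ZMod m) * a = a := by
      conv_lhs => rw [← hu]
      rw [jj_mul]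
      have h2 : ZMod.castHom hdv (ZMod (addOrderOf a)) (s : ZMod m) = 1 := by
        have := congrArg Units.val hs
        rw [ZMod.unitsMap_val] at this
        exact this
      rw [h2, one_mul, hu]
    have h3 := VV_mul χ s a
    rw [h1] at h3
    have h4 : χ (s : ZMod m) = 1 := by
      have : (χ (s : ZMod m) - 1) * VV χ a = 0 := by rw [sub_mul, ← h3]; ring
      have := (mul_eq_zero.mp this).resolve_right hVa
      linear_combination this
    rw [← MulChar.coe_toUnitHom] at h4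
    exact Units.ext h4
  rw [← DirichletCharacter.mem_conductorSet_iff_conductor_dvd χ hdv]
  exact hfac

variable {f : ℕ}

lemma changeLevel_unit (hf : f ∣ m) (χ : DirichletCharacter ℂ f) (t : (ZMod m)ˣ) :
    DirichletCharacter.changeLevel hf χ (t : ZMod m)
      = χ ((ZMod.unitsMap hf t : (ZMod f)ˣ) : ZMod f) := by
  rw [DirichletCharacter.changeLevel_eq_cast_of_dvd]
  rfl

lemma VV_top (hf : f ∣ m) (χ : DirichletCharacter ℂ f) (u : (ZMod f)ˣ) :
    VV (DirichletCharacter.changeLevel hf χ) (jj hf (u : ZMod f))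
      = χ (u : ZMod f) * VV (DirichletCharacter.changeLevel hf χ) (jj hf 1) := by
  obtain ⟨s, hs⟩ := ZMod.unitsMap_surjective hf u
  have h1 : jj hf (u : ZMod f) = (s : ZMod m) * jj hf 1 := by
    rw [jj_mul, mul_one, ← hs, ZMod.unitsMap_val]
    rfl
  rw [h1, VV_mul, changeLevel_unit, hs]

lemma VV_one_ne_zero (hf : f ∣ m) [NeZero f] (χ : DirichletCharacter ℂ f)
    (hne : ∑ v : (ZMod f)ˣ, χ⁻¹ (v : ZMod f) * ((v : ZMod f).val : ℂ) ≠ 0) :
    VV (DirichletCharacter.changeLevel hf χ) (jj hf 1) ≠ 0 := by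
  have h1 : VV (DirichletCharacter.changeLevel hf χ) (jj hf 1)
      = (m / f : ℕ) * ∑ t : (ZMod m)ˣ,
      (fun v : (ZMod f)ˣ => χ⁻¹ (v : ZMod f) * ((v : ZMod f).val : ℂ)) (ZMod.unitsMap hf t) := by
    unfold VV
    rw [mul_sum]
    refine sum_congr rfl fun t _ => ?_
    rw [jj_mul, mul_one, jj_val, changeLevel_unit, map_inv]
    beta_reduce
    rw [MulChar.inv_apply_eq_inv']
    have h2 : χ (((ZMod.unitsMap hf t)⁻¹ : (ZMod f)ˣ) : ZMod f)
        = (χ ((ZMod.unitsMap hf t : (ZMod f)ˣ) : ZMod f))⁻¹ := by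
      apply eq_inv_of_mul_eq_one_left
      rw [← map_mul, ← Units.val_mul, inv_mul_cancel, Units.val_one, map_one]
    rw [h2]
    have h3 : ZMod.castHom hf (ZMod f) (t : ZMod m)
        = ((ZMod.unitsMap hf t : (ZMod f)ˣ) : ZMod f) := by
      rw [ZMod.unitsMap_val]; rfl
    rw [h3]
    push_cast
    ring
  obtain ⟨κ, hκ, hκs⟩ := sum_unitsMap hf
    (fun v : (ZMod f)ˣ => χ⁻¹ (v : ZMod f) * ((v : ZMod f).val : ℂ))
  rw [h1, hκs]
  have h6 : ((m / f : ℕ) : ℂ) ≠ 0 := by
    have : m / f ≠ 0 := (Nat.div_pos (Nat.le_of_dvd (Nat.pos_of_ne_zero (NeZero.ne m)) hf)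
      (Nat.pos_of_ne_zero (f_ne_zero hf))).ne'
    exact_mod_cast this
  exact mul_ne_zero h6 (mul_ne_zero (by exact_mod_cast hκ) hne)

/-- A function orthogonal to a suitable transform has vanishing character sum. -/
lemma char_sum_V (hf : f ∣ m) [NeZero f] (F : ZMod m → ℤ) (χ : DirichletCharacter ℂ f)
    (V : ZMod m → ℂ) (V1 : ℂ) (hV1 : V1 ≠ 0) (hZ : ∑ a, (F a : ℂ) * V a = 0)
    (hlow : ∀ a, F a ≠ 0 → V a ≠ 0 → addOrderOf a = f)
    (htop : ∀ u : (ZMod f)ˣ, V (jj hf (u : ZMod f)) = χ (u : ZMod f) * V1) :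
    ∑ u : (ZMod f)ˣ, χ (u : ZMod f) * (F (jj hf (u : ZMod f)) : ℂ) = 0 := by
  have hfin : ∑ a, (F a : ℂ) * V a = ∑ u : (ZMod f)ˣ, (F (jj hf (u : ZMod f)) : ℂ) *
      V (jj hf (u : ZMod f)) := by
    symm
    refine Fintype.sum_of_injective (fun u : (ZMod f)ˣ => jj hf (u : ZMod f))
      (fun u v h => Units.ext (jj_injective hf h)) _ _ ?_ fun _ => rfl
    intro a ha
    by_cases hFa : F a = 0
    · rw [hFa]; simp
    · by_cases h2 : V a = 0
      · rw [h2, mul_zero]
      · exact absurd (exists_unit_of_order hf (hlow a hFa h2)) ha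
  rw [hfin] at hZ
  have h7 : ∑ u : (ZMod f)ˣ, (F (jj hf (u : ZMod f)) : ℂ) * V (jj hf (u : ZMod f))
      = V1 * ∑ u : (ZMod f)ˣ, χ (u : ZMod f) * (F (jj hf (u : ZMod f)) : ℂ) := by
    rw [mul_sum]
    refine sum_congr rfl fun u _ => ?_
    rw [htop]
    ring
  rw [h7] at hZ
  exact (mul_eq_zero.mp hZ).resolve_left hV1

end VV

/-- Nonvanishing for characters whose conductor is divisible by all primes of the level. -/
theorem sum_units_ne_zero {f : ℕ} [NeZero f] (χ : DirichletCharacter ℂ f) (hodd : χ.Odd)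
    (hcond : ∀ p, p.Prime → p ∣ f → p ∣ χ.conductor) :
    ∑ v : (ZMod f)ˣ, χ (v : ZMod f) * ((v : ZMod f).val : ℂ) ≠ 0 := by
  classical
  set d := χ.conductor with hd
  have hdf : d ∣ f := χ.conductor_dvd_level
  set χ0 := χ.primitiveCharacter with hχ0
  have hχ : χ = DirichletCharacter.changeLevel hdf χ0 := by
    exact (χ.factorsThrough_conductor).eq_changeLevel
  have hprim : χ0.IsPrimitive := χ.primitiveCharacter_isPrimitive
  haveI : NeZero d := ⟨fun h => NeZero.ne f (by rw [h] at hdf; exact Nat.eq_zero_of_zero_dvd hdf)⟩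
  have hval : ∀ v : (ZMod f)ˣ, χ (v : ZMod f) = χ0 (ZMod.castHom hdf (ZMod d) (v : ZMod f)) := by
    intro v
    have h0 := DFunLike.congr_fun hχ (v : ZMod f)
    rw [h0, changeLevel_unit, ZMod.unitsMap_val]
    rfl
  have hodd0 : χ0.Odd := by
    have h1 : χ (((-1 : (ZMod f)ˣ)) : ZMod f) = -1 := by
      rw [Units.val_neg, Units.val_one]
      exact hodd
    rw [hval, Units.val_neg, Units.val_one, map_neg, map_one] at h1
    exact h1
  have hne := sum_mul_val_ne_zero hprim hodd0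
  -- rewrite as a sum over all residues
  have h1 : ∑ v : (ZMod f)ˣ, χ (v : ZMod f) * ((v : ZMod f).val : ℂ)
      = ∑ x : ZMod f, χ0 (ZMod.castHom hdf (ZMod d) x) * (x.val : ℂ) := by
    refine Fintype.sum_of_injective (fun v : (ZMod f)ˣ => (v : ZMod f)) Units.val_injective
      _ _ ?_ fun v => by rw [hval]
    intro x hx
    have hnu : ¬ IsUnit x := fun ⟨u, hu⟩ => hx ⟨u, hu⟩
    have hnu' : ¬ IsUnit (ZMod.castHom hdf (ZMod d) x) := by
      intro hu
      apply hnu
      rw [← ZMod.natCast_zmod_val x, ZMod.isUnit_iff_coprime]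
      rw [← ZMod.natCast_zmod_val x, map_natCast, ZMod.isUnit_iff_coprime] at hu
      apply Nat.Coprime.symm
      rw [Nat.coprime_iff_gcd_eq_one]
      by_contra hg
      obtain ⟨p, hp, hpg⟩ := Nat.exists_prime_and_dvd hg
      have h2 : p ∣ d := hcond p hp (hpg.trans (Nat.gcd_dvd_left _ _))
      have h3 : p ∣ x.val := hpg.trans (Nat.gcd_dvd_right _ _)
      have h4 := Nat.dvd_gcd h3 h2
      rw [hu] at h4
      exact hp.one_lt.ne' (Nat.dvd_one.mp h4)
    rw [MulChar.map_nonunit _ hnu', zero_mul]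
  -- fibres
  have h2 : (2 : ℂ) * ∑ x : ZMod f, χ0 (ZMod.castHom hdf (ZMod d) x) * (x.val : ℂ)
      = 2 * (f / d : ℕ) * ∑ y : ZMod d, χ0 y * (y.val : ℂ)
        + ((f / d : ℕ) - 1) * f * ∑ y : ZMod d, χ0 y := by
    rw [← Finset.sum_fiberwise_of_maps_to (s := univ) (t := univ)
      (g := fun x : ZMod f => ZMod.castHom hdf (ZMod d) x) (fun _ _ => mem_univ _)]
    rw [mul_sum, mul_sum, mul_sum, ← sum_add_distrib]
    refine sum_congr rfl fun y _ => ?_
    obtain ⟨x0, hx0⟩ := ZMod.castHom_surjective hdf y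
    have hfib : (univ.filter fun x : ZMod f => ZMod.castHom hdf (ZMod d) x = y)
        = univ.filter fun x : ZMod f => ((f / d : ℕ) : ZMod f) * x = ((f / d : ℕ) : ZMod f) * x0 := by
      ext x
      simp only [mem_filter, mem_univ, true_and]
      rw [← hx0]
      obtain ⟨a, rfl⟩ := ZMod.intCast_surjective x
      obtain ⟨b, rfl⟩ := ZMod.intCast_surjective x0
      rw [map_intCast, map_intCast, ← sub_eq_zero (a := ((a : ℤ) : ZMod d)), ← sub_eq_zero
        (a := ((f / d : ℕ) : ZMod f) * _), ← Int.cast_sub, ← mul_sub, ← Int.cast_sub,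
        ← Int.cast_natCast (R := ZMod f), ← Int.cast_mul, ZMod.intCast_zmod_eq_zero_iff_dvd,
        ZMod.intCast_zmod_eq_zero_iff_dvd]
      have hfd : (f : ℤ) = ((f / d : ℕ) : ℤ) * (d : ℤ) := by
        exact_mod_cast (Nat.div_mul_cancel hdf).symm
      conv_rhs => rw [hfd]
      have h0 : ((f / d : ℕ) : ℤ) ≠ 0 := by
        have : f / d ≠ 0 := (Nat.div_pos (Nat.le_of_dvd (Nat.pos_of_ne_zero (NeZero.ne f)) hdf)
          (Nat.pos_of_ne_zero (NeZero.ne d))).ne'
        exact_mod_cast this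
      exact (mul_dvd_mul_iff_left h0).symm
    have hpos : 0 < f / d := Nat.div_pos (Nat.le_of_dvd (Nat.pos_of_ne_zero (NeZero.ne f)) hdf)
          (Nat.pos_of_ne_zero (NeZero.ne d))
    have hfv := fiber_val hpos (Nat.div_dvd_of_dvd hdf) x0
    have hv : (((f / d : ℕ) : ZMod f) * x0).val = f / d * y.val := by
      rw [← hx0]
      conv_lhs => rw [← ZMod.natCast_zmod_val x0, ← Nat.cast_mul, ZMod.val_natCast]
      have h5 : (ZMod.castHom hdf (ZMod d) x0).val = x0.val % d := by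
        conv_lhs => rw [← ZMod.natCast_zmod_val x0, map_natCast, ZMod.val_natCast]
      rw [h5]
      calc f / d * x0.val % f = (f / d * x0.val) % (f / d * d) := by rw [Nat.div_mul_cancel hdf]
        _ = f / d * (x0.val % d) := Nat.mul_mod_mul_left _ _ _
    rw [hv, ← hfib] at hfv
    have h7 : ∑ x ∈ univ.filter (fun x : ZMod f => ZMod.castHom hdf (ZMod d) x = y),
        χ0 (ZMod.castHom hdf (ZMod d) x) * (x.val : ℂ)
        = χ0 y * ∑ x ∈ univ.filter (fun x : ZMod f => ZMod.castHom hdf (ZMod d) x = y),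
        (x.val : ℂ) := by
      rw [mul_sum]
      refine sum_congr rfl fun x hx => ?_
      rw [(mem_filter.mp hx).2]
    rw [h7]
    have h8 : (2 : ℂ) * ∑ x ∈ univ.filter (fun x : ZMod f => ZMod.castHom hdf (ZMod d) x = y),
        (x.val : ℂ) = 2 * ((f / d : ℕ) * y.val) + ((f / d : ℕ) - 1) * f := by
      have := congrArg (fun z : ℤ => (z : ℂ)) hfv
      generalize f / d = e at this ⊢
      push_cast at this
      linear_combination this
    linear_combination χ0 y * h8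
  have hne1 : χ0 ≠ 1 := by
    intro h
    have h1 : χ0 (-1) = -1 := hodd0
    rw [h, MulChar.one_apply (isUnit_one.neg)] at h1
    norm_num at h1
  have hsum0 : ∑ k, χ0 k = 0 := MulChar.sum_eq_zero_of_ne_one hne1
  rw [hsum0, mul_zero, add_zero] at h2
  rw [h1]
  intro h0
  rw [h0, mul_zero] at h2
  have hpos : 0 < f / d := Nat.div_pos (Nat.le_of_dvd (Nat.pos_of_ne_zero (NeZero.ne f)) hdf)
          (Nat.pos_of_ne_zero (NeZero.ne d))
  have h3 : (2 : ℂ) * (f / d : ℕ) ≠ 0 := by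
    apply mul_ne_zero two_ne_zero
    exact_mod_cast hpos.ne'
  exact mul_ne_zero h3 hne h2.symm

end Pool.Agent.Lib.MP_938ce2_ag_H7e
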