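import Pool.Agent.Lib.MP_938ce2_ag_H7e.Trans

/-!
# One explicit degree in each dimension
-/

set_option autoImplicit false
set_option linter.style.haveILetI false
set_option linter.unusedSectionVars false

open Finset

namespace Pool.Agent.Lib.MP_938ce2_ag_H7e

open Pool.Agent.Lib.MP_938ce2_ag_h99 Pool.Agent.Lib.MP_938ce2_ag_H7

section level

variable {m N : ℕ} [NeZero m]

lemma saw_cc (t : (ZMod m)ˣ) {x : ZMod m} (hx : x ≠ 0) :
    ((((t : ZMod m) * x).val : ℤ) : ℝ) - ((((t : ZMod m) * -x).val : ℤ) : ℝ)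
      = 2 * m * saw (cc ((t : ZMod m) * x)) := by
  have hm : (m : ℝ) ≠ 0 := by exact_mod_cast (m_pos (m := m)).ne'
  have h0 : (t : ZMod m) * x ≠ 0 := fun h => hx ((Units.mul_right_eq_zero t).mp h)
  have h1 : ((t : ZMod m) * x).val < m := ZMod.val_lt _
  rw [mul_neg, val_neg' h0, Int.cast_natCast, Int.cast_natCast, Nat.cast_sub h1.le]
  unfold saw
  rw [fr_cc]
  field_simp
  ring

lemma SS_saw (α : Fin N → ZMod m) (hα : ∀ i, α i ≠ 0) (J : Finset (Fin N)) (t : (ZMod m)ˣ) :
    ((SS (FJ α J) t : ℤ) : ℝ) = 2 * m * ∑ i ∈ J, saw (cc ((t : ZMod m) * α i)) := by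
  rw [SS_FJ]
  push_cast
  rw [mul_sum]
  refine sum_congr rfl fun i _ => ?_
  have := saw_cc t (hα i)
  simpa using this

lemma cc_unit_mul (t0 : ℕ) (x : ZMod m) : t0 • cc x = cc ((t0 : ZMod m) * x) := by
  rw [← map_nsmul, nsmul_eq_mul]

lemma tate_of_saw (α : Fin N → ZMod m) (hα : ∀ i, α i ≠ 0) (J : Finset (Fin N))
    (h : ∀ t0 : ℕ, m.Coprime t0 → ∑ i ∈ J, saw (t0 • cc (α i)) = 0) : TateF (FJ α J) := by
  intro t
  have h1 := SS_saw α hα J t
  have h2 := h (t : ZMod m).val (ZMod.val_coe_unit_coprime t).symm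
  simp_rw [cc_unit_mul, ZMod.natCast_zmod_val] at h2
  rw [h2, mul_zero] at h1
  exact_mod_cast h1

lemma saw_of_tate (α : Fin N → ZMod m) (hα : ∀ i, α i ≠ 0) (J : Finset (Fin N))
    (h : TateF (FJ α J)) (t0 : ℕ) (ht0 : m.Coprime t0) :
    ∑ i ∈ J, saw (t0 • cc (α i)) = 0 := by
  have h1 := SS_saw α hα J (ZMod.unitOfCoprime t0 ht0.symm)
  have h2 : SS (FJ α J) (ZMod.unitOfCoprime t0 ht0.symm) = 0 := h _
  rw [h2, Int.cast_zero, ZMod.coe_unitOfCoprime] at h1
  simp_rw [cc_unit_mul]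
  have hm : (2 * m : ℝ) ≠ 0 := by
    have : (m : ℝ) ≠ 0 := by exact_mod_cast (m_pos (m := m)).ne'
    positivity
  exact (mul_eq_zero.mp h1.symm).resolve_left hm

end level

lemma saw_half {t : ℕ} (ht : Nat.Coprime t (addOrderOf (pt 2))) : saw (t • pt 2) = 0 := by
  rw [addOrderOf_pt (by norm_num)] at ht
  have h1 : t % 2 = 1 := by
    rcases Nat.mod_two_eq_zero_or_one t with h | h
    · exfalso
      have : 2 ∣ t := Nat.dvd_of_mod_eq_zero h
      have := Nat.dvd_gcd this (dvd_refl 2)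
      rw [ht] at this
      omega
    · exact h
  rw [← mod_addOrderOf_nsmul, addOrderOf_pt (by norm_num), h1, one_smul]
  unfold saw pt
  rw [fr_coe_of_mem] <;> norm_num

/-- **One explicit degree in each dimension.** Every Tate family of length `N` becomes, modulo the
standard relations, one killed by `MM N`, when some of its members are replaced by `1 / 2`. -/
theorem explicit_degree (N : ℕ) (hN : Even N) (a : Fin N → UnitAddCircle) (ha : IsTate a) :
    ∃ b : Fin N → UnitAddCircle, IsTate b ∧ (∀ j, MM N • b j = 0) ∧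
      (∀ j, b j = a j ∨ b j = pt 2) ∧ fs a - fs b ∈ Std := by
  classical
  rcases Nat.eq_zero_or_pos N with rfl | hpos
  · exact ⟨a, ha, fun j => j.elim0, fun j => j.elim0, by rw [sub_self]; exact Std.zero_mem⟩
  have h2M : 2 ∣ MM N := by
    have h4 := pow_dvd_MM (q := 2) (N := N) (s := N) (j := 1) Nat.prime_two (by omega) le_rfl
      (by omega)
    exact (dvd_pow_self 2 (by omega)).trans h4
  -- the level
  set m : ℕ := ∏ i, addOrderOf (a i) with hm
  have hmpos : 0 < m := Finset.prod_pos fun i _ => addOrderOf_pos_iff.mpr (ha.fin i)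
  haveI : NeZero m := ⟨hmpos.ne'⟩
  have hma : ∀ i, m • a i = 0 := by
    intro i
    obtain ⟨c, hc⟩ := Finset.dvd_prod_of_mem (fun i => addOrderOf (a i)) (mem_univ i)
    rw [hm, hc, mul_comm, mul_smul, addOrderOf_nsmul_eq_zero, smul_zero]
  choose α hα using fun i => exists_cc (hma i)
  have hα0 : ∀ i, α i ≠ 0 := by
    intro i h
    apply ha.ne_zero i
    rw [← hα i, h, map_zero]
  have hTu : TateF (FJ α univ) := by
    apply tate_of_saw α hα0
    intro t0 ht0
    simp_rw [hα]
    apply ha.sum_saw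
    intro i
    exact (Nat.Coprime.coprime_dvd_left
      (Finset.dvd_prod_of_mem (fun i => addOrderOf (a i)) (mem_univ i)) ht0).symm
  obtain ⟨J, hJ1, hJ2⟩ := reduce_level hpos α hTu
  have hTJ : TateF (FJ α J) := by
    have h1 := FJ_add α (J := univ) (J1 := J) (J2 := Jᶜ) disjoint_compl_right (union_compl J).symm
    have h2 : FJ α J = FJ α univ - FJ α Jᶜ := by rw [h1]; abel
    rw [h2]
    exact hTu.sub (TateF_of_mem_relSub hJ2)
  have hord : ∀ i ∈ J, addOrderOf (a i) ∣ MM N := by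
    intro i hi
    rw [← hα i, order_cc]
    exact hJ1 i hi
  have hK2 : ∀ t : ℕ, (∀ i ∈ J, Nat.Coprime t (addOrderOf (a i))) →
      ∑ i ∈ J, saw (t • a i) = 0 := by
    intro t ht
    apply sum_saw_of_coprime J a hmpos (fun i _ => hma i) _ ht
    intro t1 ht1
    have := saw_of_tate α hα0 J hTJ t1 ht1
    simp_rw [hα] at this
    exact this
  have hK3 : ∑ i ∈ Jᶜ, Finsupp.single (a i) 1 ∈ Std' := by
    have := family_mem hα0 hJ2
    simp_rw [hα] at this
    exact this
  set b : Fin N → UnitAddCircle := fun i => if i ∈ J then a i else pt 2 with hb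
  have hbJ : ∀ i ∈ J, b i = a i := fun i hi => by simp only [hb]; rw [if_pos hi]
  have hbn : ∀ i, i ∉ J → b i = pt 2 := fun i hi => by simp only [hb]; rw [if_neg hi]
  refine ⟨b, IsTate.of_saw ?_ ?_ ?_, ?_, ?_, ?_⟩
  · intro i
    by_cases hi : i ∈ J
    · rw [hbJ i hi]; exact ha.ne_zero i
    · rw [hbn i hi]; exact pt_ne_zero (by norm_num)
  · intro i
    by_cases hi : i ∈ J
    · rw [hbJ i hi]; exact ha.fin i
    · rw [hbn i hi]; exact isOfFinAddOrder_pt (by norm_num)
  · intro t ht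
    rw [← Finset.sum_add_sum_compl J, Finset.sum_congr rfl (fun i hi => by rw [hbJ i hi]),
      hK2 t (fun i hi => by rw [← hbJ i hi]; exact ht i), zero_add]
    apply Finset.sum_eq_zero
    intro i hi
    have h1 := hbn i (Finset.mem_compl.mp hi)
    have h2 := ht i
    rw [h1] at h2 ⊢
    exact saw_half h2
  · intro i
    by_cases hi : i ∈ J
    · rw [hbJ i hi]; exact addOrderOf_dvd_iff_nsmul_eq_zero.mp (hord i hi)
    · rw [hbn i hi]
      obtain ⟨c, hc⟩ := h2M
      rw [hc, mul_comm, mul_smul, nsmul_pt 2 (by norm_num), smul_zero]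
  · intro i
    by_cases hi : i ∈ J
    · left; exact hbJ i hi
    · right; exact hbn i hi
  · apply mem_Std_of_even
    · have h1 : fs a - fs b = ∑ i ∈ Jᶜ, Finsupp.single (a i) 1
          - ∑ i ∈ Jᶜ, Finsupp.single (pt 2) (1 : ℤ) := by
        unfold fs
        rw [← Finset.sum_add_sum_compl J (fun i => Finsupp.single (a i) (1 : ℤ)),
          ← Finset.sum_add_sum_compl J (fun i => Finsupp.single (b i) (1 : ℤ)),
          Finset.sum_congr rfl (fun i hi => by rw [hbJ i hi] :
            ∀ i ∈ J, Finsupp.single (b i) (1 : ℤ) = Finsupp.single (a i) 1),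
          Finset.sum_congr rfl (fun i hi => by rw [hbn i (Finset.mem_compl.mp hi)] :
            ∀ i ∈ Jᶜ, Finsupp.single (b i) (1 : ℤ) = Finsupp.single (pt 2) 1)]
        abel
      rw [h1]
      exact Std'.sub_mem hK3 (Std'.sum_mem fun _ _ => half_mem)
    · rw [map_sub, deg_fs, deg_fs, sub_self]
      exact Even.zero

end Pool.Agent.Lib.MP_938ce2_ag_H7e
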