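import Pool.Agent.Lib.MP_938ce2_ag_H7e.CharE

/-!
Mixed differences of odd functions at the top level, with a large group at one prime.
-/

set_option autoImplicit false
set_option linter.style.haveILetI false
set_option linter.unusedSectionVars false

open Finset

namespace Pool.Agent.Lib.MP_938ce2_ag_H7e

open Pool.Agent.Lib.MP_938ce2_ag_h99

/-- a character whose conductor divides `f / p` is trivial on `Kp f p` -/
lemma trivial_on_Kp {f p : ℕ} [NeZero f] (hpf : p ∣ f) {χ : DirichletCharacter ℂ f}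
    (h : χ.conductor ∣ f / p) : ∀ k ∈ Kp f p, χ ((k : (ZMod f)ˣ) : ZMod f) = 1 := by
  have hft : χ.FactorsThrough (f / p) := by
    rw [← DirichletCharacter.mem_conductorSet_iff,
      DirichletCharacter.mem_conductorSet_iff_conductor_dvd χ (Nat.div_dvd_of_dvd hpf)]
    exact h
  rw [DirichletCharacter.factorsThrough_iff_ker_unitsMap (Nat.div_dvd_of_dvd hpf)] at hft
  intro k hk
  rw [Kp_eq_ker hpf] at hk
  have := hft hk
  rw [MonoidHom.mem_ker] at this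
  rw [← MulChar.coe_toUnitHom, this]
  rfl

/-- data: `m = Q n`, `Q` a power of the prime `q` prime to `n` -/
structure Dat (m Q n q : ℕ) : Prop where
  hm : m = Q * n
  hq : q.Prime
  hQ : ∃ K, K ≠ 0 ∧ Q = q ^ K
  hcop : Nat.Coprime Q n
  hn : n ≠ 0

lemma Dat.Qpos {m Q n q : ℕ} (h : Dat m Q n q) : 0 < Q := by
  obtain ⟨K, _, rfl⟩ := h.hQ
  exact pow_pos h.hq.pos K

lemma Dat.qQ {m Q n q : ℕ} (h : Dat m Q n q) : q ∣ Q := by
  obtain ⟨K, hK, rfl⟩ := h.hQ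
  exact dvd_pow_self q hK

lemma Dat.Qm {m Q n q : ℕ} (h : Dat m Q n q) : Q ∣ m := ⟨n, h.hm⟩

lemma Dat.nm {m Q n q : ℕ} (h : Dat m Q n q) : n ∣ m := ⟨Q, by rw [h.hm, mul_comm]⟩

lemma Dat.m_ne {m Q n q : ℕ} (h : Dat m Q n q) : m ≠ 0 := by
  rw [h.hm]; exact mul_ne_zero h.Qpos.ne' h.hn

/-- a divisor of the level prime to `q` -/
lemma Dat.sub {m Q n q : ℕ} (h : Dat m Q n q) {g : ℕ} (hg : g ∣ n) : Dat (Q * g) Q g q where
  hm := rfl
  hq := h.hq
  hQ := h.hQ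
  hcop := Nat.Coprime.coprime_dvd_right hg h.hcop
  hn := fun h0 => h.hn (by rw [h0] at hg; exact Nat.eq_zero_of_zero_dvd hg)

lemma conductor_facts {f Q g q : ℕ} [NeZero f] (h : Dat f Q g q) (χ : DirichletCharacter ℂ f)
    (hp : ∀ p, p.Prime → p ∣ g → ∃ k ∈ Kp f p, χ ((k : (ZMod f)ˣ) : ZMod f) ≠ 1) :
    g ∣ χ.conductor := by
  set d := χ.conductor with hd
  have hdf : d ∣ f := χ.conductor_dvd_level
  obtain ⟨e, he⟩ := hdf
  have hf0 : f ≠ 0 := NeZero.ne f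
  have hd0 : d ≠ 0 := fun h0 => hf0 (by rw [he, h0, zero_mul])
  have he0 : e ≠ 0 := fun h0 => hf0 (by rw [he, h0, mul_zero])
  rw [← Nat.factorization_le_iff_dvd h.hn hd0]
  intro p
  by_contra hlt
  push Not at hlt
  have hpos : 0 < g.factorization p := by omega
  have hpp : p.Prime := by
    by_contra hnp
    rw [Nat.factorization_eq_zero_of_not_prime g hnp] at hpos
    omega
  have hpg : p ∣ g := Nat.dvd_of_factorization_pos hpos.ne'
  have h1 : f.factorization p = d.factorization p + e.factorization p := by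
    rw [he, Nat.factorization_mul hd0 he0]
    rfl
  have h2 : g.factorization p ≤ f.factorization p := by
    have : g ∣ f := ⟨Q, by rw [h.hm, mul_comm]⟩
    exact (Nat.factorization_le_iff_dvd h.hn hf0).mpr this p
  have hpe : p ∣ e := Nat.dvd_of_factorization_pos (by omega)
  obtain ⟨k, hk, hk1⟩ := hp p hpp hpg
  apply hk1
  have hpf : p ∣ f := hpg.trans ⟨Q, by rw [h.hm, mul_comm]⟩
  refine trivial_on_Kp hpf ?_ k hk
  obtain ⟨e', rfl⟩ := hpe
  have h3 : f / p = d * e' := by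
    apply Nat.div_eq_of_eq_mul_right hpp.pos
    rw [he]; ring
  rw [h3]
  exact Dvd.intro _ rfl

lemma q_dvd_conductor {f Q g q : ℕ} [NeZero f] (h : Dat f Q g q) (χ : DirichletCharacter ℂ f)
    (hQ : ∃ k ∈ Kp f Q, χ ((k : (ZMod f)ˣ) : ZMod f) ≠ 1) : q ∣ χ.conductor := by
  by_contra hqd
  obtain ⟨k, hk, hk1⟩ := hQ
  apply hk1
  refine trivial_on_Kp h.Qm ?_ k hk
  have h1 : f / Q = g := Nat.div_eq_of_eq_mul_right h.Qpos h.hm
  rw [h1]
  have h2 : Nat.Coprime χ.conductor Q := by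
    obtain ⟨K, _, hK⟩ := h.hQ
    rw [hK]
    apply Nat.Coprime.pow_right
    exact ((Nat.Prime.coprime_iff_not_dvd h.hq).mpr hqd).symm
  have h3 : χ.conductor ∣ Q * g := by
    rw [← h.hm]
    exact χ.conductor_dvd_level
  exact h2.dvd_of_dvd_mul_left h3

lemma exists_lift_Kp {m Q n q g : ℕ} [NeZero m] (h : Dat m Q n q) (hg : g ∣ n)
    (hfm : Q * g ∣ m) (k : (ZMod (Q * g))ˣ) (hk : k ∈ Kp (Q * g) Q) :
    ∃ u ∈ Kp m Q, ZMod.unitsMap hfm u = k := by
  have hg0 : g ≠ 0 := (h.sub hg).hn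
  haveI : NeZero (Q * g) := ⟨mul_ne_zero h.Qpos.ne' hg0⟩
  obtain ⟨x, hx1, hx2⟩ := Nat.chineseRemainder h.hcop (k : ZMod (Q * g)).val 1
  have hkcop := ZMod.val_coe_unit_coprime k
  have hxQ : Nat.Coprime x Q := by
    have h1 : Nat.Coprime (k : ZMod (Q * g)).val Q := Nat.Coprime.coprime_mul_right_right hkcop
    rw [Nat.Coprime, Nat.ModEq.gcd_eq hx1]
    exact h1
  have hxn : Nat.Coprime x n := by
    rw [Nat.Coprime, Nat.ModEq.gcd_eq hx2]
    simp
  have hxm : Nat.Coprime x m := by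
    rw [h.hm]
    exact Nat.Coprime.mul_right hxQ hxn
  refine ⟨ZMod.unitOfCoprime x hxm, ?_, ?_⟩
  · rw [mem_Kp, ZMod.coe_unitOfCoprime, ← Nat.cast_mul, ZMod.natCast_eq_natCast_iff, h.hm]
    have : x * Q ≡ 1 * Q [MOD n * Q] := Nat.ModEq.mul_right' Q hx2
    rw [one_mul, mul_comm n Q] at this
    exact this
  · apply Units.ext
    rw [ZMod.unitsMap_val, ZMod.coe_unitOfCoprime]
    have h1 : ((x : ZMod m).cast : ZMod (Q * g)) = (x : ZMod (Q * g)) :=
      ZMod.cast_natCast hfm x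
    rw [h1]
    have h2 : ((k : ZMod (Q * g)).val : ZMod (Q * g)) = k := ZMod.natCast_zmod_val _
    rw [← h2, ZMod.natCast_eq_natCast_iff]
    have hcop' : Nat.Coprime Q g := (h.sub hg).hcop
    rw [← Nat.modEq_and_modEq_iff_modEq_mul hcop']
    refine ⟨hx1, ?_⟩
    have h3 : (k : ZMod (Q * g)).val * Q ≡ 1 * Q [MOD Q * g] := by
      rw [← ZMod.natCast_eq_natCast_iff, Nat.cast_mul, h2, one_mul]
      exact hk
    have h4 : (k : ZMod (Q * g)).val ≡ 1 [MOD g] := by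
      have h5 : (k : ZMod (Q * g)).val * Q ≡ 1 * Q [MOD g * Q] := by
        rw [mul_comm g Q]; exact h3
      exact Nat.ModEq.mul_right_cancel' h.Qpos.ne' h5
    exact (hx2.of_dvd hg).trans h4.symm

/-- invariance of the sums under the large group -/
def SInv {m : ℕ} [NeZero m] (Q : ℕ) (F : ZMod m → ℤ) : Prop :=
  ∀ u ∈ Kp m Q, ∀ t : (ZMod m)ˣ, SS F (u * t) = SS F t

lemma even_char_sum {m f : ℕ} [NeZero m] [NeZero f] (hf : f ∣ m) {F : ZMod m → ℤ} (hodd : OddF F)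
    {χ : DirichletCharacter ℂ f} (hev : χ.Even) :
    ∑ u : (ZMod f)ˣ, χ (u : ZMod f) * (F (jj hf (u : ZMod f)) : ℂ) = 0 := by
  set S := ∑ u : (ZMod f)ˣ, χ (u : ZMod f) * (F (jj hf (u : ZMod f)) : ℂ) with hS
  have h1 : S = -S := by
    conv_lhs => rw [hS]
    rw [hS, ← sum_neg_distrib]
    refine Fintype.sum_equiv (Equiv.neg _) _ _ fun u => ?_
    have e1 : jj hf (-(u : ZMod f)) = - jj hf (u : ZMod f) := map_neg _ _
    rw [Equiv.neg_apply, Units.val_neg, e1, hodd, hev.eval_neg]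
    push_cast
    ring
  have h2 : (2 : ℂ) * S = 0 := by linear_combination h1
  exact (mul_eq_zero.mp h2).resolve_left two_ne_zero

lemma conductor_inv {f : ℕ} [NeZero f] (χ : DirichletCharacter ℂ f) :
    χ.conductor ∣ (χ⁻¹).conductor := by
  have h1 := DirichletCharacter.conductor_zpow_dvd (χ⁻¹) (-1)
  rw [zpow_neg_one, inv_inv] at h1
  exact h1

lemma odd_inv {f : ℕ} [NeZero f] {χ : DirichletCharacter ℂ f} (h : χ.Odd) : (χ⁻¹).Odd := by
  have h1 : χ (-1) = -1 := h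
  show χ⁻¹ (-1) = -1
  rw [MulChar.inv_apply_eq_inv', h1]
  norm_num

/-- characters non-trivial on the large group -/
theorem char_sum_big {m Q n q g : ℕ} [NeZero m] (h : Dat m Q n q) (hg : g ∣ n)
    (hfm : Q * g ∣ m) [NeZero (Q * g)] (F : ZMod m → ℤ) (hodd : OddF F) (hS : SInv Q F)
    (hsupp : ∀ a, F a ≠ 0 → Q ∣ addOrderOf a)
    (hsup : ∀ a, F a ≠ 0 → Q * g ∣ addOrderOf a → addOrderOf a = Q * g)
    (χ : DirichletCharacter ℂ (Q * g))
    (hχ : ∀ p, p.Prime → p ∣ g → ∃ k ∈ Kp (Q * g) p, χ ((k : (ZMod (Q * g))ˣ) : ZMod (Q * g)) ≠ 1)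
    (hχQ : ∃ k ∈ Kp (Q * g) Q, χ ((k : (ZMod (Q * g))ˣ) : ZMod (Q * g)) ≠ 1) :
    ∑ u : (ZMod (Q * g))ˣ, χ (u : ZMod (Q * g)) * (F (jj hfm (u : ZMod (Q * g))) : ℂ) = 0 := by
  have hD := h.sub hg
  rcases χ.even_or_odd with hev | hod
  · exact even_char_sum hfm hodd hev
  have hgc := conductor_facts hD χ hχ
  have hqc := q_dvd_conductor hD χ hχQ
  have hne : ∑ v : (ZMod (Q * g))ˣ, χ⁻¹ (v : ZMod (Q * g)) * ((v : ZMod (Q * g)).val : ℂ) ≠ 0 := by
    apply sum_units_ne_zero _ (odd_inv hod)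
    intro p hp hpf
    refine dvd_trans ?_ (conductor_inv χ)
    rcases hp.dvd_mul.mp hpf with h1 | h1
    · obtain ⟨K, _, hK⟩ := h.hQ
      rw [hK] at h1
      rw [(Nat.prime_dvd_prime_iff_eq hp h.hq).mp (hp.dvd_of_dvd_pow h1)]
      exact hqc
    · exact h1.trans hgc
  refine char_sum_V hfm F χ (VV (DirichletCharacter.changeLevel hfm χ))
    _ (VV_one_ne_zero hfm χ hne) ?_ ?_ (VV_top hfm χ)
  · rw [sum_mul_VV]
    obtain ⟨k, hk, hk1⟩ := hχQ
    obtain ⟨u, hu, huk⟩ := exists_lift_Kp h hg hfm k hk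
    set χm := DirichletCharacter.changeLevel hfm χ with hχm
    set S := ∑ t : (ZMod m)ˣ, χm ((t⁻¹ : (ZMod m)ˣ) : ZMod m) * (SS F t : ℂ) with hSdef
    have h1 : S = χm ((u⁻¹ : (ZMod m)ˣ) : ZMod m) * S := by
      conv_lhs => rw [hSdef]
      rw [hSdef, mul_sum]
      symm
      refine Fintype.sum_equiv (Equiv.mulLeft u) _ _ fun t => ?_
      rw [Equiv.coe_mulLeft, mul_inv_rev, Units.val_mul, map_mul, hS u hu t]
      ring
    have h2 : χm ((u⁻¹ : (ZMod m)ˣ) : ZMod m) ≠ 1 := by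
      rw [hχm, changeLevel_unit, map_inv, huk]
      intro h3
      apply hk1
      have h4 : χ ((k : (ZMod (Q * g))ˣ) : ZMod (Q * g))
          * χ (((k⁻¹ : (ZMod (Q * g))ˣ)) : ZMod (Q * g)) = 1 := by
        rw [← map_mul, ← Units.val_mul, mul_inv_cancel, Units.val_one, map_one]
      rw [h3, mul_one] at h4
      exact h4
    have h3 : (χm ((u⁻¹ : (ZMod m)ˣ) : ZMod m) - 1) * S = 0 := by
      rw [sub_mul, one_mul, ← h1, sub_self]
    exact (mul_eq_zero.mp h3).resolve_left (sub_ne_zero.mpr h2)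
  · intro a ha hVa
    have h1 := VV_low _ hVa
    rw [DirichletCharacter.conductor_changeLevel] at h1
    exact hsup a ha (Nat.Coprime.mul_dvd_of_dvd_of_dvd hD.hcop (hsupp a ha) (hgc.trans h1))

/-- mixed differences at the top level, odd functions -/
theorem MD_odd {m Q n q g : ℕ} [NeZero m] (h : Dat m Q n q) (hg : g ∣ n)
    (hfm : Q * g ∣ m) [NeZero (Q * g)] (F : ZMod m → ℤ) (hodd : OddF F) (hS : SInv Q F)
    (hsupp : ∀ a, F a ≠ 0 → Q ∣ addOrderOf a)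
    (hsup : ∀ a, F a ≠ 0 → Q * g ∣ addOrderOf a → addOrderOf a = Q * g)
    (ps : List ℕ) (hQps : Q ∈ ps) (hps : ∀ p, p.Prime → p ∣ g → p ∈ ps) :
    MD (ps.map (Kp (Q * g))) (fun u : (ZMod (Q * g))ˣ => F (jj hfm (u : ZMod (Q * g)))) := by
  apply MD_of_char
  intro χ hχ
  apply char_sum_big h hg hfm F hodd hS hsupp hsup χ
  · intro p hp hpg
    exact hχ _ (List.mem_map.mpr ⟨p, hps p hp hpg, rfl⟩)
  · exact hχ _ (List.mem_map.mpr ⟨Q, hQps, rfl⟩)

end Pool.Agent.Lib.MP_938ce2_ag_H7e
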