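import Pool.Agent.Lib.MP_938ce2_ag_H7e.Pushf

/-!
Second peeling: an odd function with invariant sums, supported on orders divisible by `Q`, whose
push-forward is Tate, is a combination of fibre relations.
-/

set_option autoImplicit false
set_option linter.style.haveILetI false
set_option linter.unusedSectionVars false

open Finset

namespace Pool.Agent.Lib.MP_938ce2_ag_H7e

open Pool.Agent.Lib.MP_938ce2_ag_h99

variable {m Q n q : ℕ} [NeZero m]

lemma castHom_jj (hD : Dat m Q n q) [NeZero n] {g : ℕ} (hg : g ∣ n) (hfm : Q * g ∣ m)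
    [NeZero (Q * g)] (hgf : g ∣ Q * g) (u : (ZMod (Q * g))ˣ) :
    ZMod.castHom hD.nm (ZMod n) (jj hfm (u : ZMod (Q * g)))
      = jj hg ((ZMod.unitsMap hgf u : (ZMod g)ˣ) : ZMod g) := by
  have h1 : (ZMod.unitsMap hgf u : (ZMod g)ˣ) = ((u : ZMod (Q * g)).val : ZMod g) := by
    rw [ZMod.unitsMap_val, ZMod.cast_eq_val]
  have hg0 : g ≠ 0 := (hD.sub hg).hn
  have h2 : m / (Q * g) = n / g := by
    rw [hD.hm, Nat.mul_div_mul_left _ _ hD.Qpos]
  rw [h1, jj_natCast]
  conv_lhs => rw [← ZMod.natCast_zmod_val (u : ZMod (Q * g)), jj_natCast, map_natCast, h2]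

lemma sum_push (hD : Dat m Q n q) [NeZero n] (F : ZMod m → ℤ) (W : ZMod n → ℂ) :
    ∑ a, (F a : ℂ) * W (ZMod.castHom hD.nm (ZMod n) a) = ∑ y, (push hD F y : ℂ) * W y := by
  haveI : NeZero Q := ⟨hD.Qpos.ne'⟩
  have h1 : ∀ a, (F a : ℂ) * W (ZMod.castHom hD.nm (ZMod n) a)
      = (fun p : ZMod Q × ZMod n => (F (hD.crt.symm p) : ℂ) * W p.2) (hD.crt a) := by
    intro a
    beta_reduce
    rw [RingEquiv.symm_apply_apply, hD.crt_snd]
  rw [sum_congr rfl fun a _ => h1 a, Fintype.sum_equiv hD.crt.toEquiv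
    (fun a => (fun p : ZMod Q × ZMod n => (F (hD.crt.symm p) : ℂ) * W p.2) (hD.crt a))
    (fun p : ZMod Q × ZMod n => (F (hD.crt.symm p) : ℂ) * W p.2) (fun _ => rfl),
    Fintype.sum_prod_type, sum_comm]
  refine sum_congr rfl fun y _ => ?_
  unfold push
  push_cast
  rw [sum_mul]

/-- characters coming from level `g` -/
theorem char_sum_small (hD : Dat m Q n q) [NeZero n] {g : ℕ} (hg : g ∣ n) (hfm : Q * g ∣ m)
    [NeZero (Q * g)] [NeZero g] (F : ZMod m → ℤ) (hodd : OddF F) (hT : TateF (push hD F))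
    (hsupp : ∀ a, F a ≠ 0 → Q ∣ addOrderOf a)
    (hsup : ∀ a, F a ≠ 0 → Q * g ∣ addOrderOf a → addOrderOf a = Q * g)
    (hgf : g ∣ Q * g) (χ' : DirichletCharacter ℂ g) (χ : DirichletCharacter ℂ (Q * g))
    (hχχ : χ = DirichletCharacter.changeLevel hgf χ') (hcond : g ∣ χ'.conductor) :
    ∑ u : (ZMod (Q * g))ˣ, χ (u : ZMod (Q * g)) * (F (jj hfm (u : ZMod (Q * g))) : ℂ) = 0 := by
  rcases χ.even_or_odd with hev | hod
  · exact even_char_sum hfm hodd hev
  have hod' : χ'.Odd := by
    have h1 : χ (((-1 : (ZMod (Q * g))ˣ)) : ZMod (Q * g)) = -1 := by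
      rw [Units.val_neg, Units.val_one]
      exact hod
    rw [hχχ, changeLevel_unit] at h1
    have h2 : ((ZMod.unitsMap hgf (-1) : (ZMod g)ˣ) : ZMod g) = -1 := by
      rw [ZMod.unitsMap_val, Units.val_neg, Units.val_one]
      exact (map_neg (ZMod.castHom hgf (ZMod g)) 1).trans (by rw [map_one])
    rw [h2] at h1
    exact h1
  have hne : ∑ v : (ZMod g)ˣ, χ'⁻¹ (v : ZMod g) * ((v : ZMod g).val : ℂ) ≠ 0 := by
    apply sum_units_ne_zero _ (odd_inv hod')
    intro p hp hpf
    exact (hpf.trans hcond).trans (conductor_inv χ')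
  set χn := DirichletCharacter.changeLevel hg χ' with hχn
  refine char_sum_V hfm F χ (fun a => VV χn (ZMod.castHom hD.nm (ZMod n) a))
    _ (VV_one_ne_zero hg χ' hne) ?_ ?_ ?_
  · rw [sum_push hD F (VV χn), sum_mul_VV]
    apply sum_eq_zero
    intro t _
    have : SS (push hD F) t = 0 := hT t
    rw [this]
    simp
  · intro a ha hVa
    have h1 := VV_low _ hVa
    rw [hχn, DirichletCharacter.conductor_changeLevel] at h1
    have h2 : addOrderOf (ZMod.castHom hD.nm (ZMod n) a) ∣ addOrderOf a := by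
      apply addOrderOf_dvd_of_nsmul_eq_zero
      rw [← map_nsmul, addOrderOf_nsmul_eq_zero, map_zero]
    exact hsup a ha (Nat.Coprime.mul_dvd_of_dvd_of_dvd (hD.sub hg).hcop (hsupp a ha)
      ((hcond.trans h1).trans h2))
  · intro u
    rw [castHom_jj hD hg hfm hgf, VV_top hg χ', hχχ, changeLevel_unit]

/-- mixed differences at the top level, without the large group -/
theorem MD_odd2 (hD : Dat m Q n q) [NeZero n] {g : ℕ} (hg : g ∣ n) (hfm : Q * g ∣ m)
    [NeZero (Q * g)] (F : ZMod m → ℤ) (hodd : OddF F) (hS : SInv Q F) (hT : TateF (push hD F))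
    (hsupp : ∀ a, F a ≠ 0 → Q ∣ addOrderOf a)
    (hsup : ∀ a, F a ≠ 0 → Q * g ∣ addOrderOf a → addOrderOf a = Q * g)
    (ps : List ℕ) (hps : ∀ p, p.Prime → p ∣ g → p ∈ ps) :
    MD (ps.map (Kp (Q * g))) (fun u : (ZMod (Q * g))ˣ => F (jj hfm (u : ZMod (Q * g)))) := by
  have hDg := hD.sub hg
  haveI : NeZero g := ⟨hDg.hn⟩
  have hgf : g ∣ Q * g := Dvd.intro_left _ rfl
  apply MD_of_char
  intro χ hχ
  have hχ1 : ∀ p, p.Prime → p ∣ g → ∃ k ∈ Kp (Q * g) p,
      χ ((k : (ZMod (Q * g))ˣ) : ZMod (Q * g)) ≠ 1 := fun p hp hpg =>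
    hχ _ (List.mem_map.mpr ⟨p, hps p hp hpg, rfl⟩)
  by_cases hχQ : ∃ k ∈ Kp (Q * g) Q, χ ((k : (ZMod (Q * g))ˣ) : ZMod (Q * g)) ≠ 1
  · exact char_sum_big hD hg hfm F hodd hS hsupp hsup χ hχ1 hχQ
  · push Not at hχQ
    have hft : χ.FactorsThrough g := by
      rw [DirichletCharacter.factorsThrough_iff_ker_unitsMap hgf]
      intro k hk
      have hQg : Q * g / Q = g := Nat.mul_div_cancel_left g hD.Qpos
      have hk' : k ∈ Kp (Q * g) Q := by
        have h1 := congrArg Units.val (MonoidHom.mem_ker.mp hk)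
        rw [ZMod.unitsMap_val] at h1
        have h2 : ZMod.castHom hgf (ZMod g) (k : ZMod (Q * g)) = 1 := h1
        rw [mem_Kp]
        rw [← ZMod.natCast_zmod_val (k : ZMod (Q * g)), ← Nat.cast_mul,
          ZMod.natCast_eq_natCast_iff]
        rw [← ZMod.natCast_zmod_val (k : ZMod (Q * g)), map_natCast] at h2
        have h3 : (k : ZMod (Q * g)).val ≡ 1 [MOD g] := by
          rw [← ZMod.natCast_eq_natCast_iff, h2, Nat.cast_one]
        have h4 := Nat.ModEq.mul_right' Q h3
        rw [one_mul, mul_comm g Q] at h4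
        exact h4
      have h5 := hχQ k hk'
      rw [MonoidHom.mem_ker]
      rw [← MulChar.coe_toUnitHom] at h5
      exact Units.ext h5
    obtain ⟨hd, χ', hχ'⟩ := hft
    have hcond := conductor_facts hDg χ hχ1
    rw [hχ', DirichletCharacter.conductor_changeLevel] at hcond
    exact char_sum_small hD hg hfm F hodd hT hsupp hsup hgf χ' χ hχ' hcond

lemma push_list_tate (hD : Dat m Q n q) [NeZero n] : ∀ (L : List (ZMod m → ℤ)),
    (∀ h ∈ L, TateF (push hD h)) → TateF (push hD L.sum)
  | [], _ => by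
      have : push hD (0 : ZMod m → ℤ) = 0 := by
        funext y; simp [push]
      rw [List.sum_nil, this]
      intro t
      simp
  | h :: L, hL => by
      rw [List.sum_cons, push_add]
      exact (hL h List.mem_cons_self).add
        (push_list_tate hD L fun h' hh' => hL h' (List.mem_cons_of_mem _ hh'))

theorem peel2_aux (hD : Dat m Q n q) [NeZero n] (h2Q : 2 < Q) : ∀ (k : ℕ) (F : ZMod m → ℤ),
    OddF F → SInv Q F → TateF (push hD F) → (∀ a, F a ≠ 0 → Q ∣ addOrderOf a) →
    (∀ a, F a ≠ 0 → addOrderOf a ≤ k) → F ∈ relSub m := by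
  classical
  intro k
  induction k with
  | zero =>
    intro F _ _ _ _ hsup
    have : F = 0 := by
      funext a
      by_contra ha
      have h1 := hsup a ha
      have h2 : 0 < addOrderOf a :=
        Nat.pos_of_dvd_of_pos (addOrderOf_dvd_m a) (Nat.pos_of_ne_zero (NeZero.ne m))
      omega
    rw [this]
    exact (relSub m).zero_mem
  | succ k ih =>
    intro F hodd hS hT hsupp hsup
    by_cases hf : Q ∣ k + 1 ∧ (k + 1) ∣ m
    swap
    · apply ih F hodd hS hT hsupp
      intro a ha
      have h1 := hsup a ha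
      have h2 : addOrderOf a ≠ k + 1 := by
        intro h
        exact hf ⟨h ▸ hsupp a ha, h ▸ addOrderOf_dvd_m a⟩
      omega
    obtain ⟨⟨g, hg'⟩, hkm⟩ := hf
    have hgn : g ∣ n := by
      rw [hg', hD.hm] at hkm
      exact Nat.dvd_of_mul_dvd_mul_left hD.Qpos hkm
    have hfm : Q * g ∣ m := hg' ▸ hkm
    haveI : NeZero (Q * g) := ⟨by omega⟩
    have hg0 : g ≠ 0 := (hD.sub hgn).hn
    set pl := g.primeFactors.toList with hpl
    have hmem : ∀ p, p ∈ pl ↔ p.Prime ∧ p ∣ g := by
      intro p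
      rw [hpl, Finset.mem_toList, Nat.mem_primeFactors]
      exact ⟨fun h => ⟨h.1, h.2.1⟩, fun h => ⟨h.1, h.2, hg0⟩⟩
    have hpf : ∀ p ∈ pl, p ∣ Q * g := fun p hp => ((hmem p).mp hp).2.trans (Dvd.intro_left _ rfl)
    have hMD := MD_odd2 hD hgn hfm F hodd hS hT hsupp
      (fun a ha hd => by
        have h1 := hsup a ha
        have h2 : 0 < addOrderOf a :=
          Nat.pos_of_dvd_of_pos (addOrderOf_dvd_m a) (Nat.pos_of_ne_zero (NeZero.ne m))
        have h3 := Nat.le_of_dvd h2 hd
        omega) pl (fun p hp hpg => (hmem p).mpr ⟨hp, hpg⟩)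
    have hneg : (-1 : (ZMod (Q * g))ˣ) ∉ spanL (pl.map (Kp (Q * g))) := by
      apply neg_one_not_mem_span g pl (fun p hp => ((hmem p).mp hp).2)
      intro hd
      have h1 : Q ∣ 2 := by
        rw [mul_comm 2 g, mul_comm Q g] at hd
        exact Nat.dvd_of_mul_dvd_mul_left (Nat.pos_of_ne_zero hg0) hd
      have h2 := Nat.le_of_dvd (by norm_num) h1
      omega
    obtain ⟨G, hG1, hG2, hG3⟩ := int_split (-1 : (ZMod (Q * g))ˣ) (by simp) (Kp (Q * g)) pl
      (Finset.nodup_toList _)
      (indep_Kp pl (fun p hp => ⟨((hmem p).mp hp).1, hpf p hp⟩) (Finset.nodup_toList _))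
      hneg _ hMD (odd_top hfm hodd)
    set R : ZMod m → ℤ := (pl.map (RR hfm G)).sum with hR
    have hRmem : R ∈ relSub m := by
      apply AddSubgroup.list_sum_mem
      intro x hx
      obtain ⟨p, hp, rfl⟩ := List.mem_map.mp hx
      exact rel_mem hfm ((hmem p).mp hp).1 (hpf p hp) (hG1 p hp) (hG3 p hp)
    have hRodd : OddF R := by
      apply OddF_list_sum
      intro x hx
      obtain ⟨p, hp, rfl⟩ := List.mem_map.mp hx
      exact (gOf_odd hfm (hG1 p hp) (hG3 p hp)).rel p
    have hRpush : TateF (push hD R) := by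
      apply push_list_tate
      intro x hx
      obtain ⟨p, hp, rfl⟩ := List.mem_map.mp hx
      have hpn : p ∣ n := ((hmem p).mp hp).2.trans hgn
      unfold RR
      rw [push_rel hD ((hmem p).mp hp).1 hpn]
      exact rel_tate ((hmem p).mp hp).1.pos hpn (push_odd hD (gOf_odd hfm (hG1 p hp) (hG3 p hp)))
        (push_supp hD (gOf_supp hfm))
    have hRT : TateF R := TateF_of_mem_relSub hRmem
    have hRne : ∀ a, R a ≠ 0 → addOrderOf a = Q * g ∨ ∃ p ∈ pl, addOrderOf a = Q * g / p := by
      intro a ha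
      rw [hR, list_sum_apply] at ha
      obtain ⟨x, hx, hx0⟩ := List.exists_mem_ne_zero_of_sum_ne_zero ha
      obtain ⟨p, hp, rfl⟩ := List.mem_map.mp hx
      rcases RR_other hfm ((hmem p).mp hp).1 (hpf p hp) hx0 with h | h
      · left; exact h
      · right; exact ⟨p, hp, h⟩
    have hdivQ : ∀ p ∈ pl, Q ∣ Q * g / p := by
      intro p hp
      rw [Nat.mul_div_assoc _ ((hmem p).mp hp).2]
      exact Dvd.intro _ rfl
    have hlt : ∀ p ∈ pl, Q * g / p < Q * g := fun p hp =>
      Nat.div_lt_self (Nat.pos_of_ne_zero (NeZero.ne _)) ((hmem p).mp hp).1.one_lt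
    set F' : ZMod m → ℤ := F - R with hF'
    have htop : ∀ a, addOrderOf a = Q * g → F' a = 0 := by
      intro a ha
      obtain ⟨u, rfl⟩ := exists_unit_of_order hfm ha
      have h1 := hG2 u
      rw [hF', Pi.sub_apply, hR, list_sum_apply]
      have h2 : (pl.map fun p => RR hfm G p (jj hfm (u : ZMod (Q * g))))
          = pl.map fun p => G p u := by
        apply List.map_congr_left
        intro p hp
        exact RR_top hfm ((hmem p).mp hp).1 (hpf p hp) (hG1 p hp) u
      rw [h2, ← h1]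
      ring
    have hne : ∀ a, F' a ≠ 0 → F a ≠ 0 ∨ ∃ p ∈ pl, addOrderOf a = Q * g / p := by
      intro a ha
      have h0 : addOrderOf a ≠ Q * g := fun h => ha (htop a h)
      by_contra hc
      push Not at hc
      apply ha
      have h2 : R a = 0 := by
        by_contra h
        rcases hRne a h with h3 | ⟨p, hp, h3⟩
        · exact h0 h3
        · exact hc.2 p hp h3
      rw [hF', Pi.sub_apply, hc.1, h2, sub_zero]
    have hF'mem : F' ∈ relSub m := by
      apply ih F' (hodd.sub hRodd)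
      · intro u hu t
        have h1 : ∀ t, SS R t = 0 := hRT
        have h2 : ∀ t, SS F' t = SS F t := by
          intro t
          have : SS F' t = SS F t - SS R t := by
            unfold SS
            rw [← sum_sub_distrib]
            refine sum_congr rfl fun a _ => ?_
            rw [hF', Pi.sub_apply]; ring
          rw [this, h1, sub_zero]
        rw [h2, h2, hS u hu]
      · rw [hF', push_sub]
        exact hT.sub hRpush
      · intro a ha
        rcases hne a ha with h | ⟨p, hp, h⟩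
        · exact hsupp a h
        · rw [h]; exact hdivQ p hp
      · intro a ha
        have h0 : addOrderOf a ≠ Q * g := fun h => ha (htop a h)
        rcases hne a ha with h | ⟨p, hp, h⟩
        · have := hsup a h
          omega
        · have := hlt p hp
          omega
    have h5 := (relSub m).add_mem hF'mem hRmem
    convert h5 using 1
    rw [hF']
    abel

/-- Main theorem: an odd function of small norm, supported on orders divisible by `Q`, whose sums
are invariant under the units which are `1` modulo `n`, is a combination of fibre relations. -/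
theorem main_small (hD : Dat m Q n q) {F : ZMod m → ℤ} (hodd : OddF F) (hS : SInv Q F)
    (hsupp : ∀ a, F a ≠ 0 → Q ∣ addOrderOf a) (hnorm : 3 * ∑ a, |F a| < Q.totient) :
    F ∈ relSub m := by
  haveI : NeZero n := ⟨hD.hn⟩

  by_cases h2Q : 2 < Q
  · exact peel2_aux hD h2Q m F hodd hS (push_tate hD hodd hS hsupp hnorm) hsupp
      (fun a _ => Nat.le_of_dvd (Nat.pos_of_ne_zero (NeZero.ne m)) (addOrderOf_dvd_m a))
  · have h1 : Q.totient ≤ 2 := (Nat.totient_le Q).trans (by omega)
    have h2 : ∑ a, |F a| = 0 := by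
      have h3 : (Q.totient : ℤ) ≤ 2 := by exact_mod_cast h1
      have h4 : 0 ≤ ∑ a, |F a| := sum_nonneg fun a _ => abs_nonneg _
      omega
    have h3 : F = 0 := by
      funext a
      have h4 := (sum_eq_zero_iff_of_nonneg fun a _ => abs_nonneg (F a)).mp h2 a (mem_univ a)
      exact abs_eq_zero.mp h4
    rw [h3]
    exact (relSub m).zero_mem

end Pool.Agent.Lib.MP_938ce2_ag_H7e
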