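import Pool.Agent.Lib.MP_938ce2_ag_H7e.Tail

/-!
Push-forward to the level `n`, and small sums.
-/

set_option autoImplicit false
set_option linter.style.haveILetI false
set_option linter.unusedSectionVars false

open Finset

namespace Pool.Agent.Lib.MP_938ce2_ag_H7e

open Pool.Agent.Lib.MP_938ce2_ag_h99

/-- numbers prime to `d` near the middle -/
lemma exists_mid (d : ℕ) (hd : 2 ≤ d) : ∃ r, Nat.Coprime r d ∧ d ≤ 6 * r ∧ 6 * r ≤ 5 * d := by
  rcases Nat.even_or_odd' d with ⟨c, rfl | rfl⟩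
  · rcases Nat.even_or_odd' c with ⟨c', rfl | rfl⟩
    · -- r = 2 c' - 1
      have hc : 1 ≤ c' := by omega
      obtain ⟨s, rfl⟩ : ∃ s, c' = s + 1 := ⟨c' - 1, by omega⟩
      refine ⟨2 * s + 1, ?_, by omega, by omega⟩
      have h1 : 2 * (2 * (s + 1)) = 2 * (2 * s + 1) + 2 := by ring
      rw [h1]
      have h2 : Nat.Coprime (2 * s + 1) 2 := by
        rw [Nat.coprime_two_right]; exact ⟨s, rfl⟩
      rw [Nat.coprime_mul_right_add_right]
      exact h2
    · -- c = 2 c' + 1
      rcases Nat.eq_zero_or_pos c' with rfl | hc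
      · exact ⟨1, by simp, by omega, by omega⟩
      · obtain ⟨s, rfl⟩ : ∃ s, c' = s + 1 := ⟨c' - 1, by omega⟩
        refine ⟨2 * s + 1, ?_, by omega, by omega⟩
        have h1 : 2 * (2 * (s + 1) + 1) = 2 * (2 * s + 1) + 4 := by ring
        rw [h1, Nat.coprime_mul_right_add_right]
        have h2 : Nat.Coprime (2 * s + 1) 2 := by
          rw [Nat.coprime_two_right]; exact ⟨s, rfl⟩
        have h3 : Nat.Coprime (2 * s + 1) (2 ^ 2) := h2.pow_right 2
        norm_num at h3
        exact h3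
  · refine ⟨c, ?_, by omega, by omega⟩
    rw [Nat.coprime_mul_right_add_right]
    simp

section small

variable {n : ℕ} [NeZero n]

lemma SS_cast (h : ZMod n → ℤ) (t : (ZMod n)ˣ) :
    ((SS h t : ℤ) : ZMod n) = (t : ZMod n) * ((SS h 1 : ℤ) : ZMod n) := by
  unfold SS
  push_cast
  rw [mul_sum]
  refine sum_congr rfl fun a _ => ?_
  rw [ZMod.natCast_zmod_val, ZMod.natCast_zmod_val]
  rw [one_mul]
  ring

/-- Small sums vanish. -/
theorem small_zero (h : ZMod n → ℤ) (hs : ∀ t : (ZMod n)ˣ, 6 * |SS h t| < n) :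
    ∀ t : (ZMod n)ˣ, SS h t = 0 := by
  intro t
  have hn : 0 < n := Nat.pos_of_ne_zero (NeZero.ne n)
  by_cases hs0 : ((SS h 1 : ℤ) : ZMod n) = 0
  · have h1 : ((SS h t : ℤ) : ZMod n) = 0 := by rw [SS_cast, hs0, mul_zero]
    rw [ZMod.intCast_zmod_eq_zero_iff_dvd] at h1
    have h2 := hs t
    have h3 : |SS h t| < n := by
      have := abs_nonneg (SS h t)
      linarith
    exact Int.eq_zero_of_abs_lt_dvd h1 h3
  · exfalso
    set s : ZMod n := ((SS h 1 : ℤ) : ZMod n) with hsdef
    set d := addOrderOf s with hd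
    have hdn : d ∣ n := addOrderOf_dvd_m s
    have hd0 : 0 < d := Nat.pos_of_dvd_of_pos hdn hn
    have hd1 : d ≠ 1 := by
      intro h1
      rw [hd, AddMonoid.addOrderOf_eq_one_iff] at h1
      exact hs0 h1
    haveI : NeZero d := ⟨hd0.ne'⟩
    obtain ⟨r, hr1, hr2, hr3⟩ := exists_mid d (by omega)
    obtain ⟨u, hu⟩ := exists_unit_of_order hdn (a := s) rfl
    obtain ⟨v, hv⟩ := ZMod.unitsMap_surjective hdn (ZMod.unitOfCoprime r hr1 * u⁻¹)
    have h1 : (v : ZMod n) * s = jj hdn (r : ZMod d) := by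
      rw [← hu, jj_mul]
      congr 1
      have h2 : ZMod.castHom hdn (ZMod d) (v : ZMod n)
          = ((ZMod.unitsMap hdn v : (ZMod d)ˣ) : ZMod d) := by
        rw [ZMod.unitsMap_val]; rfl
      rw [h2, hv, Units.val_mul, mul_assoc, ← Units.val_mul, inv_mul_cancel, Units.val_one, mul_one,
        ZMod.coe_unitOfCoprime]
    have h2 := SS_cast h v
    rw [← hsdef, h1, jj_natCast] at h2
    have hnd0 : n = n / d * d := (Nat.div_mul_cancel hdn).symm
    have hndpos0 : 0 < n / d := Nat.div_pos (Nat.le_of_dvd hn hdn) hd0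
    generalize n / d = E at h2 hnd0 hndpos0
    have h3 : (n : ℤ) ∣ SS h v - ((E * r : ℕ) : ℤ) := by
      rw [← ZMod.intCast_zmod_eq_zero_iff_dvd, Int.cast_sub, Int.cast_natCast, h2, sub_self]
    have hnd : (n : ℤ) = E * (d : ℤ) := by
      exact_mod_cast hnd0
    have hndpos : (0 : ℤ) < E := by
      exact_mod_cast hndpos0
    have h4 : (n : ℤ) ≤ 6 * ((E * r : ℕ) : ℤ) := by
      have : (d : ℤ) ≤ 6 * r := by exact_mod_cast hr2
      rw [hnd]
      push_cast
      nlinarith
    have h5 : 6 * ((E * r : ℕ) : ℤ) ≤ 5 * n := by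
      have : 6 * (r : ℤ) ≤ 5 * d := by exact_mod_cast hr3
      rw [hnd]
      push_cast
      nlinarith
    have h6 := hs v
    obtain ⟨k, hk⟩ := h3
    have h7 := abs_lt.mp (show |6 * SS h v| < n by rwa [abs_mul, abs_of_pos (by norm_num)])
    have hn' : (0 : ℤ) < n := by exact_mod_cast hn
    have h8 : SS h v = ((E * r : ℕ) : ℤ) + n * k := by linarith
    rw [h8] at h7
    have h9 : k < 0 := by
      by_contra hc
      push Not at hc
      nlinarith [h7.2]
    have h10 : -1 < k := by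
      by_contra hc
      push Not at hc
      nlinarith [h7.1]
    omega

/-- sum against the odd representative -/
def PH (h : ZMod n → ℤ) (t : (ZMod n)ˣ) : ℤ :=
  ∑ a, h a * (if a = 0 then 0 else 2 * (((t : ZMod n) * a).val : ℤ) - n)

lemma exists_unit_SS (h : ZMod n → ℤ) {d r : ℕ} (hd : addOrderOf ((SS h 1 : ℤ) : ZMod n) = d)
    (hr : Nat.Coprime r d) : ∃ v : (ZMod n)ˣ, (n : ℤ) ∣ SS h v - ((n / d * r : ℕ) : ℤ) := by
  have hn : 0 < n := Nat.pos_of_ne_zero (NeZero.ne n)
  set s : ZMod n := ((SS h 1 : ℤ) : ZMod n) with hsdef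
  have hdn : d ∣ n := hd ▸ addOrderOf_dvd_m s
  have hd0 : 0 < d := Nat.pos_of_dvd_of_pos hdn hn
  haveI : NeZero d := ⟨hd0.ne'⟩
  obtain ⟨u, hu⟩ := exists_unit_of_order hdn (a := s) hd
  obtain ⟨v, hv⟩ := ZMod.unitsMap_surjective hdn (ZMod.unitOfCoprime r hr * u⁻¹)
  have h1 : (v : ZMod n) * s = jj hdn (r : ZMod d) := by
    rw [← hu, jj_mul]
    congr 1
    have h2 : ZMod.castHom hdn (ZMod d) (v : ZMod n)
        = ((ZMod.unitsMap hdn v : (ZMod d)ˣ) : ZMod d) := by
      rw [ZMod.unitsMap_val]; rfl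
    rw [h2, hv, Units.val_mul, mul_assoc, ← Units.val_mul, inv_mul_cancel, Units.val_one, mul_one,
      ZMod.coe_unitOfCoprime]
  have h2 := SS_cast h v
  rw [← hsdef, h1, jj_natCast] at h2
  refine ⟨v, ?_⟩
  rw [← ZMod.intCast_zmod_eq_zero_iff_dvd, Int.cast_sub, Int.cast_natCast, h2, sub_self]

/-- Small sums against the odd representative vanish. -/
theorem small_zero_PH (g : ZMod n → ℤ) (hs : ∀ t : (ZMod n)ˣ, 3 * |PH g t| < n) :
    ∀ t : (ZMod n)ˣ, PH g t = 0 := by
  have hn : 0 < n := Nat.pos_of_ne_zero (NeZero.ne n)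
  have hn' : (0 : ℤ) < n := by exact_mod_cast hn
  set G : ℤ := ∑ a, if a = 0 then 0 else g a with hG
  have hPH : ∀ t, PH g t = 2 * SS g t - n * G := by
    intro t
    unfold PH SS
    rw [hG, mul_sum, mul_sum, ← sum_sub_distrib]
    refine sum_congr rfl fun a _ => ?_
    by_cases ha : a = 0
    · rw [if_pos ha, if_pos ha, ha]
      simp
    · rw [if_neg ha, if_neg ha]; ring
  set s : ZMod n := ((SS g 1 : ℤ) : ZMod n) with hsdef
  by_cases h2s : 2 * s = 0
  · intro t
    have h1 : (n : ℤ) ∣ PH g t := by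
      rw [hPH]
      apply dvd_sub _ (Dvd.intro _ rfl)
      rw [← ZMod.intCast_zmod_eq_zero_iff_dvd, Int.cast_mul, SS_cast, ← hsdef]
      push_cast
      rw [mul_left_comm, h2s, mul_zero]
    have h2 := hs t
    have h3 := abs_nonneg (PH g t)
    exact Int.eq_zero_of_abs_lt_dvd h1 (by linarith)
  · exfalso
    set d := addOrderOf s with hd
    have hdn : d ∣ n := addOrderOf_dvd_m s
    have hd0 : 0 < d := Nat.pos_of_dvd_of_pos hdn hn
    have hd1 : d ≠ 1 := by
      intro h1
      rw [hd, AddMonoid.addOrderOf_eq_one_iff] at h1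
      exact h2s (by rw [h1, mul_zero])
    have hd2 : d ≠ 2 := by
      intro h1
      have h3 : d • s = 0 := addOrderOf_nsmul_eq_zero s
      rw [h1, nsmul_eq_mul] at h3
      exact h2s (by exact_mod_cast h3)
    have hnd : (n : ℤ) = ((n / d : ℕ) : ℤ) * d := by
      exact_mod_cast (Nat.div_mul_cancel hdn).symm
    have hE : (0 : ℤ) < ((n / d : ℕ) : ℤ) := by
      exact_mod_cast Nat.div_pos (Nat.le_of_dvd hn hdn) hd0
    have hd3 : (3 : ℤ) ≤ d := by
      have : 3 ≤ d := by omega
      exact_mod_cast this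
    rcases Int.even_or_odd' G with ⟨c, hc | hc⟩
    · obtain ⟨r, hr1, hr2, hr3⟩ := exists_mid d (by omega)
      obtain ⟨v, k, hk⟩ := exists_unit_SS g (d := d) rfl hr1
      have h6 := hs v
      rw [hPH, hc] at h6
      generalize n / d = E at hnd hE hk
      have h4 : (n : ℤ) ≤ 6 * ((E * r : ℕ) : ℤ) := by
        have : (d : ℤ) ≤ 6 * r := by exact_mod_cast hr2
        rw [hnd]
        push_cast
        nlinarith
      have h5 : 6 * ((E * r : ℕ) : ℤ) ≤ 5 * n := by
        have : 6 * (r : ℤ) ≤ 5 * d := by exact_mod_cast hr3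
        rw [hnd]
        push_cast
        nlinarith
      have h7 := abs_lt.mp (show |3 * (2 * SS g v - n * (2 * c))| < n by
        rwa [abs_mul, abs_of_pos (by norm_num)])
      have h8 : SS g v = ((E * r : ℕ) : ℤ) + n * k := by linarith
      rw [h8] at h7
      have h9 : k - c < 0 := by
        by_contra hcon
        push Not at hcon
        nlinarith [h7.2]
      have h10 : -1 < k - c := by
        by_contra hcon
        push Not at hcon
        nlinarith [h7.1]
      omega
    · obtain ⟨v, k, hk⟩ := exists_unit_SS g (d := d) (r := 1) rfl (Nat.coprime_one_left d)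
      have h6 := hs v
      rw [hPH, hc] at h6
      generalize n / d = E at hnd hE hk
      have h4 : 3 * (E : ℤ) ≤ n := by
        rw [hnd]
        nlinarith
      have h7 := abs_lt.mp (show |3 * (2 * SS g v - n * (2 * c + 1))| < n by
        rwa [abs_mul, abs_of_pos (by norm_num)])
      have h8 : SS g v = (E : ℤ) + n * k := by
        rw [mul_one] at hk
        linarith
      rw [h8] at h7
      have h9 : k - c < 1 := by
        by_contra hcon
        push Not at hcon
        nlinarith [h7.2]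
      have h10 : 0 < k - c := by
        by_contra hcon
        push Not at hcon
        nlinarith [h7.1]
      omega

lemma PH_odd {h : ZMod n → ℤ} (hodd : OddF h) (t : (ZMod n)ˣ) : PH h t = 2 * SS h t := by
  have h0 : h 0 = 0 := by
    have := hodd 0
    rw [neg_zero] at this
    omega
  have h1 : PH h t = ∑ a, (2 * (h a * (((t : ZMod n) * a).val : ℤ)) - n * h a) := by
    unfold PH
    refine sum_congr rfl fun a _ => ?_
    by_cases ha : a = 0
    · rw [if_pos ha, ha, h0]; ring
    · rw [if_neg ha]; ring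
  rw [h1, sum_sub_distrib, ← mul_sum, ← mul_sum, hodd.sum_eq_zero]
  unfold SS
  ring

lemma PH_add (h g : ZMod n → ℤ) (t : (ZMod n)ˣ) : PH (h + g) t = PH h t + PH g t := by
  unfold PH
  rw [← sum_add_distrib]
  refine sum_congr rfl fun a _ => ?_
  rw [Pi.add_apply]; ring

lemma PH_neg (h : ZMod n → ℤ) (t : (ZMod n)ˣ) : PH (-h) t = - PH h t := by
  unfold PH
  rw [← sum_neg_distrib]
  refine sum_congr rfl fun a _ => ?_
  rw [Pi.neg_apply]; ring

lemma PH_comp_neg (h : ZMod n → ℤ) (t : (ZMod n)ˣ) : PH (fun a => h (-a)) t = - PH h t := by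
  unfold PH
  rw [← sum_neg_distrib]
  refine Fintype.sum_equiv (Equiv.neg _) _ _ fun a => ?_
  rw [Equiv.neg_apply]
  by_cases ha : a = 0
  · rw [ha]; simp
  · have ha' : -a ≠ 0 := neg_ne_zero.mpr ha
    rw [if_neg ha, if_neg ha']
    have hta : (t : ZMod n) * a ≠ 0 := fun h0 => ha ((Units.mul_right_eq_zero t).mp h0)
    haveI : NeZero ((t : ZMod n) * a) := ⟨hta⟩
    have h1 : ((t : ZMod n) * -a).val = n - ((t : ZMod n) * a).val := by
      rw [mul_neg, ZMod.val_neg_of_ne_zero]
    have h2 : ((t : ZMod n) * a).val < n := ZMod.val_lt _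
    rw [h1, Nat.cast_sub h2.le]
    ring

lemma PH_le (h : ZMod n → ℤ) (t : (ZMod n)ˣ) : |PH h t| ≤ n * ∑ a, |h a| := by
  unfold PH
  rw [mul_sum]
  refine (abs_sum_le_sum_abs _ _).trans (sum_le_sum fun a _ => ?_)
  rw [abs_mul, mul_comm]
  apply mul_le_mul_of_nonneg_right _ (abs_nonneg _)
  have hn : (0 : ℤ) ≤ n := Int.natCast_nonneg n
  split_ifs
  · rw [abs_zero]; exact hn
  · have h2 : ((((t : ZMod n) * a).val : ℕ) : ℤ) < n := by exact_mod_cast ZMod.val_lt _
    have h3 : (0 : ℤ) ≤ ((((t : ZMod n) * a).val : ℕ) : ℤ) := Int.natCast_nonneg _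
    rw [abs_le]
    constructor <;> linarith

lemma card_ker {p : ℕ} (hp : 0 < p) (hpn : p ∣ n) :
    (univ.filter (fun b : ZMod n => (p : ZMod n) * b = 0)).card = p := by
  obtain ⟨l, hl⟩ := hpn
  have hn : 0 < n := Nat.pos_of_ne_zero (NeZero.ne n)
  have hl0 : 0 < l := by
    rcases Nat.eq_zero_or_pos l with h | h
    · rw [h, mul_zero] at hl; omega
    · exact h
  rw [← card_range p]
  symm
  refine card_bij (fun k _ => ((l * k : ℕ) : ZMod n)) ?_ ?_ ?_
  · intro k hk
    simp only [mem_filter, mem_univ, true_and]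
    rw [card_range, ← Nat.cast_mul, ZMod.natCast_eq_zero_iff, hl]
    exact ⟨k, by ring⟩
  · intro k hk k' hk' h
    rw [mem_range] at hk hk'
    have h1 : l * k < n := by rw [hl, mul_comm p l]; exact Nat.mul_lt_mul_of_pos_left hk hl0
    have h2 : l * k' < n := by rw [hl, mul_comm p l]; exact Nat.mul_lt_mul_of_pos_left hk' hl0
    have h3 := congrArg ZMod.val h
    rw [ZMod.val_natCast_of_lt h1, ZMod.val_natCast_of_lt h2] at h3
    exact Nat.eq_of_mul_eq_mul_left hl0 h3
  · intro b hb
    simp only [mem_filter, mem_univ, true_and] at hb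
    rw [card_range] at hb
    rw [← ZMod.natCast_zmod_val b, ← Nat.cast_mul, ZMod.natCast_eq_zero_iff] at hb
    have hb' : p * l ∣ p * b.val := hl ▸ hb
    obtain ⟨k, hk⟩ := Nat.dvd_of_mul_dvd_mul_left hp hb'
    refine ⟨k, ?_, ?_⟩
    · rw [mem_range]
      have h1 : b.val < n := ZMod.val_lt b
      have h2 : l * k < l * p := by
        calc l * k = b.val := hk.symm
          _ < n := h1
          _ = l * p := by rw [hl, mul_comm]
      exact Nat.lt_of_mul_lt_mul_left h2
    · rw [← hk, ZMod.natCast_zmod_val]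

lemma PH_rel {p : ℕ} (hp : 0 < p) (hpn : p ∣ n) {g : ZMod n → ℤ}
    (hs : ∀ a, g a ≠ 0 → ∃ b, a = (p : ZMod n) * b) (t : (ZMod n)ˣ) : PH (rel p g) t = 0 := by
  classical
  set W : ZMod n → ℤ := fun a => if a = 0 then 0 else 2 * (((t : ZMod n) * a).val : ℤ) - n with hW
  have h1 : PH (rel p g) t = ∑ b, g ((p : ZMod n) * b) * W b - ∑ b, g b * W b := by
    unfold PH rel
    rw [← sum_sub_distrib]
    refine sum_congr rfl fun b _ => ?_
    rw [hW]; ring
  have h2 : ∑ b, g ((p : ZMod n) * b) * W b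
      = ∑ c, g c * ∑ b ∈ univ.filter (fun b : ZMod n => (p : ZMod n) * b = c), W b := by
    rw [← Finset.sum_fiberwise_of_maps_to (s := univ) (t := univ)
      (g := fun b : ZMod n => (p : ZMod n) * b) (fun _ _ => mem_univ _)]
    refine sum_congr rfl fun c _ => ?_
    rw [mul_sum]
    refine sum_congr rfl fun b hb => ?_
    rw [(mem_filter.mp hb).2]
  rw [h1, h2, ← sum_sub_distrib]
  apply sum_eq_zero
  intro c _
  by_cases hc : g c = 0
  · rw [hc]; ring
  obtain ⟨b0, hb0⟩ := hs c hc
  rw [← mul_sub]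
  apply mul_eq_zero_of_right
  rw [sub_eq_zero]
  -- fibre over `c`
  have hcard : (univ.filter (fun b : ZMod n => (p : ZMod n) * b = c)).card = p := by
    have hcard0 := card_ker hp hpn
    refine Eq.trans ?_ hcard0
    refine card_bij' (fun b _ => b - b0) (fun b _ => b + b0) ?_ ?_ ?_ ?_
    · intro b hb
      simp only [mem_filter, mem_univ, true_and] at hb ⊢
      rw [mul_sub, hb, hb0, sub_self]
    · intro b hb
      simp only [mem_filter, mem_univ, true_and] at hb ⊢
      rw [mul_add, hb, zero_add, hb0]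
    · intro b _; ring
    · intro b _; ring
  have hfib : univ.filter (fun b : ZMod n => (p : ZMod n) * b = (p : ZMod n) * ((t : ZMod n) * b0))
      = (univ.filter (fun b : ZMod n => (p : ZMod n) * b = c)).image (fun b => (t : ZMod n) * b) := by
    ext b
    simp only [mem_filter, mem_univ, true_and, mem_image]
    constructor
    · intro hb
      refine ⟨((t⁻¹ : (ZMod n)ˣ) : ZMod n) * b, ?_, ?_⟩
      · rw [mul_left_comm, hb, hb0]
        rw [mul_left_comm (p : ZMod n), ← mul_assoc, ← Units.val_mul, inv_mul_cancel, Units.val_one,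
          one_mul]
      · rw [← mul_assoc, ← Units.val_mul, mul_inv_cancel, Units.val_one, one_mul]
    · rintro ⟨b', hb', rfl⟩
      rw [mul_left_comm, hb', hb0]
      ring
  have hsumt : ∑ b ∈ univ.filter (fun b : ZMod n => (p : ZMod n) * b = c),
      (2 * ((((t : ZMod n) * b).val : ℕ) : ℤ) - n) = 2 * ((((t : ZMod n) * c).val : ℕ) : ℤ) - n := by
    have h3 := fiber_val hp hpn ((t : ZMod n) * b0)
    rw [hfib, sum_image] at h3
    · rw [sum_sub_distrib, ← mul_sum, h3, sum_const, hcard, hb0, nsmul_eq_mul]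
      have : (p : ZMod n) * ((t : ZMod n) * b0) = (t : ZMod n) * ((p : ZMod n) * b0) := by ring
      rw [this]
      ring
    · intro x _ y _ hxy
      exact (Units.mul_right_inj t).mp hxy
  by_cases hc0 : c = 0
  · -- fibre over zero
    have hWc : W c = 0 := by rw [hW]; simp [hc0]
    rw [hWc]
    have hmem0 : (0 : ZMod n) ∈ univ.filter (fun b : ZMod n => (p : ZMod n) * b = c) := by
      simp [hc0]
    rw [← add_sum_erase _ _ hmem0] at hsumt ⊢
    have hW0 : W 0 = 0 := by rw [hW]; simp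
    rw [hW0, zero_add]
    have h4 : ∑ x ∈ (univ.filter (fun b : ZMod n => (p : ZMod n) * b = c)).erase 0, W x
        = ∑ x ∈ (univ.filter (fun b : ZMod n => (p : ZMod n) * b = c)).erase 0,
          (2 * ((((t : ZMod n) * x).val : ℕ) : ℤ) - n) := by
      refine sum_congr rfl fun x hx => ?_
      rw [hW]
      simp [(mem_erase.mp hx).1]
    rw [h4]
    have h5 : (2 * ((((t : ZMod n) * (0 : ZMod n)).val : ℕ) : ℤ) - n) = -n := by
      rw [mul_zero, ZMod.val_zero]; simp
    have h6 : (2 * ((((t : ZMod n) * c).val : ℕ) : ℤ) - n) = -n := by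
      rw [hc0, mul_zero, ZMod.val_zero]; simp
    rw [h5, h6] at hsumt
    linarith
  · have hWc : W c = 2 * ((((t : ZMod n) * c).val : ℕ) : ℤ) - n := by rw [hW]; simp [hc0]
    rw [hWc, ← hsumt]
    refine sum_congr rfl fun x hx => ?_
    have hx0 : x ≠ 0 := by
      rintro rfl
      apply hc0
      have := (mem_filter.mp hx).2
      rw [mul_zero] at this
      exact this.symm
    rw [hW]
    simp [hx0]

end small

end Pool.Agent.Lib.MP_938ce2_ag_H7e
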