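import Pool.Agent.Lib.MP_938ce2_ag_H7e.Push

/-!
Push-forward to the level prime to `q`.
-/

set_option autoImplicit false
set_option linter.style.haveILetI false
set_option linter.unusedSectionVars false

open Finset

namespace Pool.Agent.Lib.MP_938ce2_ag_H7e

open Pool.Agent.Lib.MP_938ce2_ag_h99

variable {m Q n q r : ℕ} [NeZero m] [NeZero r]

/-- the Chinese remainder isomorphism -/
noncomputable def Dat.crt (hD : Dat m Q n q) : ZMod m ≃+* ZMod Q × ZMod n :=
  (ZMod.ringEquivCongr hD.hm).trans (ZMod.chineseRemainder hD.hcop)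

lemma Dat.crt_snd (hD : Dat m Q n q) (a : ZMod m) :
    (hD.crt a).2 = ZMod.castHom hD.nm (ZMod n) a := by
  have h : (RingHom.snd (ZMod Q) (ZMod n)).comp (hD.crt : ZMod m →+* ZMod Q × ZMod n)
      = ZMod.castHom hD.nm (ZMod n) := RingHom.ext_zmod _ _
  exact DFunLike.congr_fun h a

/-- push-forward -/
noncomputable def push (hD : Dat m Q n q) (F : ZMod m → ℤ) : ZMod n → ℤ := fun y =>
  haveI : NeZero Q := ⟨hD.Qpos.ne'⟩
  ∑ x : ZMod Q, F (hD.crt.symm (x, y))

variable (hD : Dat m Q n q)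

lemma push_sub (F G : ZMod m → ℤ) : push hD (F - G) = push hD F - push hD G := by
  funext y
  simp [push, sum_sub_distrib]

lemma push_add (F G : ZMod m → ℤ) : push hD (F + G) = push hD F + push hD G := by
  funext y
  simp [push, sum_add_distrib]

lemma push_odd {F : ZMod m → ℤ} (hodd : OddF F) : OddF (push hD F) := by
  intro y
  haveI : NeZero Q := ⟨hD.Qpos.ne'⟩
  show ∑ x : ZMod Q, F (hD.crt.symm (x, -y)) = - ∑ x : ZMod Q, F (hD.crt.symm (x, y))
  rw [← sum_neg_distrib]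
  refine Fintype.sum_equiv (Equiv.neg _) _ _ fun x => ?_
  rw [Equiv.neg_apply]
  have h1 : hD.crt.symm (x, -y) = - hD.crt.symm (-x, y) := by
    rw [← map_neg]; simp
  rw [h1, hodd]

lemma push_rel {p : ℕ} (_hp : p.Prime) (hpn : p ∣ n) (h : ZMod m → ℤ) :
    push hD (rel p h) = rel p (push hD h) := by
  funext y
  haveI : NeZero Q := ⟨hD.Qpos.ne'⟩
  show ∑ x : ZMod Q, (h ((p : ZMod m) * hD.crt.symm (x, y)) - h (hD.crt.symm (x, y)))
    = (∑ x : ZMod Q, h (hD.crt.symm (x, (p : ZMod n) * y))) - ∑ x : ZMod Q, h (hD.crt.symm (x, y))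
  rw [sum_sub_distrib]
  congr 1
  have hpu : IsUnit ((p : ℕ) : ZMod Q) := by
    rw [ZMod.isUnit_iff_coprime]
    exact (Nat.Coprime.coprime_dvd_right hpn hD.hcop).symm
  obtain ⟨u, hu⟩ := hpu
  refine Fintype.sum_equiv (Units.mulLeft u) _ _ fun x => ?_
  rw [Units.mulLeft_apply, hu]
  congr 1
  have h1 : (p : ZMod m) = hD.crt.symm ((p : ZMod Q), (p : ZMod n)) := by
    have : ((p : ZMod Q), (p : ZMod n)) = ((p : ℕ) : ZMod Q × ZMod n) := by
      ext <;> simp
    rw [this, map_natCast]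
  rw [h1, ← map_mul, Prod.mk_mul_mk]

lemma push_supp {p : ℕ} {h : ZMod m → ℤ} (hs : ∀ a, h a ≠ 0 → ∃ b, a = (p : ZMod m) * b) :
    ∀ y, push hD h y ≠ 0 → ∃ b, y = (p : ZMod n) * b := by
  intro y hy
  haveI : NeZero Q := ⟨hD.Qpos.ne'⟩
  obtain ⟨x, _, hx⟩ := exists_ne_zero_of_sum_ne_zero hy
  obtain ⟨b, hb⟩ := hs _ hx
  refine ⟨(hD.crt b).2, ?_⟩
  have h1 := congrArg hD.crt hb
  rw [RingEquiv.apply_symm_apply, map_mul, map_natCast] at h1
  have h2 := congrArg Prod.snd h1
  simpa using h2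

lemma push_norm [NeZero n] (F : ZMod m → ℤ) : ∑ y, |push hD F y| ≤ ∑ a, |F a| := by
  haveI : NeZero Q := ⟨hD.Qpos.ne'⟩
  have h1 : ∑ a, |F a| = ∑ y : ZMod n, ∑ x : ZMod Q, |F (hD.crt.symm (x, y))| := by
    rw [sum_comm, ← Fintype.sum_prod_type' (fun x y => |F (hD.crt.symm (x, y))|)]
    exact (Fintype.sum_equiv hD.crt.symm.toEquiv _ _ fun _ => rfl).symm
  rw [h1]
  exact sum_le_sum fun y _ => abs_sum_le_sum_abs _ _

lemma crt_unit_mem (x : (ZMod Q)ˣ) :
    (Units.map (hD.crt.symm : ZMod Q × ZMod n →* ZMod m) (MulEquiv.prodUnits.symm (x, 1))) ∈ Kp m Q := by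
  rw [mem_Kp]
  have h1 : (Q : ZMod m) = hD.crt.symm ((Q : ZMod Q), (Q : ZMod n)) := by
    have : ((Q : ZMod Q), (Q : ZMod n)) = ((Q : ℕ) : ZMod Q × ZMod n) := by
      ext <;> simp
    rw [this, map_natCast]
  have h2 : ((Units.map (hD.crt.symm : ZMod Q × ZMod n →* ZMod m)
      (MulEquiv.prodUnits.symm (x, 1)) : (ZMod m)ˣ) : ZMod m) = hD.crt.symm ((x : ZMod Q), 1) := rfl
  rw [h2, h1, ← map_mul, Prod.mk_mul_mk, one_mul, ZMod.natCast_self, mul_zero]

lemma not_dvd_order {x : ZMod Q} (hx : ¬ IsUnit x) (y : ZMod n) :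
    ¬ Q ∣ addOrderOf (hD.crt.symm (x, y)) := by
  intro hd
  obtain ⟨K, hK, hQ⟩ := hD.hQ
  haveI : NeZero Q := ⟨hD.Qpos.ne'⟩
  have hqx : q ∣ x.val := by
    by_contra hc
    apply hx
    rw [← ZMod.natCast_zmod_val x, ZMod.isUnit_iff_coprime]
    conv_rhs => rw [hQ]
    exact Nat.Coprime.pow_right _ ((Nat.Prime.coprime_iff_not_dvd hD.hq).mpr hc).symm
  have hQ' : Q = q * q ^ (K - 1) := by
    conv_lhs => rw [hQ]
    rw [← pow_succ']
    congr 1
    omega
  set c := q ^ (K - 1) with hc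
  have h1 : (c * n) • hD.crt.symm (x, y) = 0 := by
    rw [nsmul_eq_mul, ← map_natCast hD.crt.symm, ← map_mul]
    have h2 : ((c * n : ℕ) : ZMod Q × ZMod n) * (x, y) = 0 := by
      ext
      · simp only [Prod.fst_mul, Prod.fst_natCast, Prod.fst_zero]
        rw [← ZMod.natCast_zmod_val x, ← Nat.cast_mul, ZMod.natCast_eq_zero_iff]
        obtain ⟨k, hk⟩ := hqx
        rw [hk]
        exact ⟨n * k, by rw [hQ']; ring⟩
      · simp only [Prod.snd_mul, Prod.snd_natCast, Prod.snd_zero]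
        push_cast
        simp
    rw [h2, map_zero]
  have h3 : Q ∣ c * n := hd.trans (addOrderOf_dvd_of_nsmul_eq_zero h1)
  have h4 : Q ∣ c := hD.hcop.dvd_of_dvd_mul_right h3
  have h5 : 0 < c := pow_pos hD.hq.pos _
  have h6 := Nat.le_of_dvd h5 h4
  have h7 := hD.hq.two_le
  rw [hQ'] at h6
  nlinarith

lemma push_inv {E : ZMod m → ℤ} (hE : GInv Q E) (hsupp : ∀ a, E a ≠ 0 → Q ∣ addOrderOf a) :
    push hD E = fun y => (Q.totient : ℤ) * E (hD.crt.symm (1, y)) := by
  funext y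
  haveI : NeZero Q := ⟨hD.Qpos.ne'⟩
  show ∑ x : ZMod Q, E (hD.crt.symm (x, y)) = _
  have h1 : ∑ x : ZMod Q, E (hD.crt.symm (x, y))
      = ∑ _x : (ZMod Q)ˣ, E (hD.crt.symm (1, y)) := by
    symm
    refine Fintype.sum_of_injective (fun u : (ZMod Q)ˣ => (u : ZMod Q)) Units.val_injective
      _ _ ?_ ?_
    · intro x hx
      have hnu : ¬ IsUnit x := fun ⟨u, hu⟩ => hx ⟨u, hu⟩
      by_contra hne
      exact not_dvd_order hD hnu y (hsupp _ hne)
    · intro u
      have h2 := hE _ (crt_unit_mem hD u) (hD.crt.symm (1, y))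
      rw [← h2]
      congr 1
      have h3 : ((Units.map (hD.crt.symm : ZMod Q × ZMod n →* ZMod m)
        (MulEquiv.prodUnits.symm (u, 1)) : (ZMod m)ˣ) : ZMod m) = hD.crt.symm ((u : ZMod Q), 1) := rfl
      rw [h3, ← map_mul, Prod.mk_mul_mk, one_mul, mul_one]
  rw [h1, sum_const, card_univ, ZMod.card_units_eq_totient, nsmul_eq_mul]

lemma TP.of_sinv {e : ZMod r → ℤ} {F : ZMod m → ℤ} (hodd : OddF F) (hS : SInv Q F) :
    TP Q e F where
  o := by
    have := hS.add hS
    convert this using 1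
    funext a
    simp only [Pi.add_apply, hodd a]
    ring
  ev := by
    have h0 : (fun a => F a + F (-a)) = (0 : ZMod m → ℤ) := by
      funext a
      rw [hodd a]
      simp
    rw [h0, sharp_zero]
    exact SInv.zero

lemma PH_push_relN [NeZero n] {d : ZMod m → ℤ} (hd : d ∈ relN m n) :
    ∀ t : (ZMod n)ˣ, PH (push hD d) t = 0 := by
  unfold relN at hd
  induction hd using AddSubgroup.closure_induction with
  | mem x hx =>
    obtain ⟨p, g, hp, hpn, hs, rfl⟩ := hx
    intro t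
    rw [push_rel hD hp hpn]
    exact PH_rel hp.pos hpn (push_supp hD hs) t
  | zero =>
    intro t
    have : push hD (0 : ZMod m → ℤ) = 0 := by
      funext y; simp [push]
    rw [this]
    simp [PH]
  | add x y _ _ hx hy =>
    intro t
    rw [push_add, PH_add, hx t, hy t, add_zero]
  | neg x _ hx =>
    intro t
    have : push hD (-x) = - push hD x := by
      funext y; simp [push]
    rw [this, PH_neg, hx t, neg_zero]

/-- The push-forward of a function of small norm is Tate. -/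
theorem push_tate [NeZero n] {F : ZMod m → ℤ} (hodd : OddF F) (hS : SInv Q F)
    (hsupp : ∀ a, F a ≠ 0 → Q ∣ addOrderOf a) (hnorm : 3 * ∑ a, |F a| < Q.totient) :
    TateF (push hD F) := by
  obtain ⟨r, e, hrb, he⟩ := exists_aux n hD.hn m
  haveI : NeZero r := ⟨he.hr.ne_zero⟩
  have hrm : Nat.Coprime r m := by
    apply Nat.Coprime.symm
    rw [Nat.coprime_comm, Nat.Prime.coprime_iff_not_dvd he.hr]
    intro h
    have := Nat.le_of_dvd (Nat.pos_of_ne_zero (NeZero.ne m)) h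
    omega
  obtain ⟨E, hE1, hE2, hE3⟩ := tail_aux hD he hrm m F (TP.of_sinv hodd hS) hsupp
    (fun a _ => Nat.le_of_dvd (Nat.pos_of_ne_zero (NeZero.ne m)) (addOrderOf_dvd_m a))
  set g : ZMod n → ℤ := fun y => E (hD.crt.symm (1, y)) with hg
  have hpushE : push hD E = fun y => (Q.totient : ℤ) * g y := push_inv hD hE1 hE2
  have hφ : (0 : ℤ) < Q.totient := by exact_mod_cast Nat.totient_pos.mpr hD.Qpos
  have hkey : ∀ t : (ZMod n)ˣ, PH (push hD F) t = Q.totient * PH g t := by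
    intro t
    have h1 := PH_push_relN hD hE3 t
    have h2 : push hD F = push hD (F - E) + push hD E := by
      rw [← push_add, sub_add_cancel]
    rw [h2, PH_add, h1, zero_add, hpushE]
    unfold PH
    rw [mul_sum]
    refine sum_congr rfl fun a _ => by ring
  have hn : (0 : ℤ) < n := by exact_mod_cast Nat.pos_of_ne_zero (NeZero.ne n)
  have hsmall : ∀ t : (ZMod n)ˣ, 3 * |PH g t| < n := by
    intro t
    have h1 := PH_le (push hD F) t
    rw [hkey, abs_mul, abs_of_pos hφ] at h1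
    have h2 := push_norm hD F
    have h3 : (Q.totient : ℤ) * (3 * |PH g t|) < Q.totient * n := by
      calc (Q.totient : ℤ) * (3 * |PH g t|) = 3 * (Q.totient * |PH g t|) := by ring
        _ ≤ 3 * (n * ∑ y, |push hD F y|) := by linarith
        _ ≤ n * (3 * ∑ a, |F a|) := by nlinarith
        _ < n * Q.totient := by nlinarith
        _ = Q.totient * n := by ring
    exact lt_of_mul_lt_mul_left h3 hφ.le
  have hzero := small_zero_PH g hsmall
  intro t
  have h1 := PH_odd (push_odd hD hodd) t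
  rw [hkey, hzero, mul_zero] at h1
  have h2 : SS (push hD F) t = 0 := by linarith
  exact h2

end Pool.Agent.Lib.MP_938ce2_ag_H7e
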