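import Pool.Agent.Lib.MP_938ce2_ag_H7e.Odd

/-!
Even functions are turned into odd ones at an auxiliary prime.
-/

set_option autoImplicit false
set_option linter.style.haveILetI false
set_option linter.unusedSectionVars false

open Finset

namespace Pool.Agent.Lib.MP_938ce2_ag_H7e

open Pool.Agent.Lib.MP_938ce2_ag_h99

/-- an auxiliary character modulo `r` -/
structure Aux (n r : ℕ) (e : ZMod r → ℤ) : Prop where
  hr : r.Prime
  mul : ∀ x y, e (x * y) = e x * e y
  zero : e 0 = 0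
  one : e 1 = 1
  neg : e (-1) = -1
  small : ∀ p, p.Prime → p ∣ n → e (p : ZMod r) = 1
  cop : Nat.Coprime r n

/-- existence of the auxiliary character -/
theorem exists_aux (n : ℕ) (hn : n ≠ 0) (b : ℕ) : ∃ (r : ℕ) (e : ZMod r → ℤ), b < r ∧ Aux n r e := by
  haveI : NeZero (8 * n) := ⟨by omega⟩
  obtain ⟨r, hrb, hr, hr1⟩ := Nat.forall_exists_prime_gt_and_eq_mod (q := 8 * n)
    (a := -1) (isUnit_one.neg) (max b (8 * n))
  have hb : b < r := lt_of_le_of_lt (le_max_left _ _) hrb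
  have hn8 : 8 * n < r := lt_of_le_of_lt (le_max_right _ _) hrb
  haveI : Fact r.Prime := ⟨hr⟩
  have hr8 : r % 8 = 7 := by
    have h1 : ((r + 1 : ℕ) : ZMod (8 * n)) = 0 := by
      push_cast; rw [hr1]; ring
    rw [ZMod.natCast_eq_zero_iff] at h1
    have h2 : 8 ∣ r + 1 := (Dvd.intro _ rfl).trans h1
    omega
  have hr4 : r % 4 = 3 := by omega
  have hr2 : r ≠ 2 := by omega
  refine ⟨r, fun x => quadraticChar (ZMod r) x, hb, hr, fun x y => map_mul _ _ _, by simp, by simp,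
    ?_, ?_, ?_⟩
  · rw [quadraticChar_neg_one_iff_not_isSquare, ZMod.exists_sq_eq_neg_one_iff]
    omega
  · intro p hp hpn
    have hpr : p < r := by
      have : p ≤ n := Nat.le_of_dvd (Nat.pos_of_ne_zero hn) hpn
      omega
    have hp0 : (p : ZMod r) ≠ 0 := by
      intro h0
      rw [ZMod.natCast_eq_zero_iff] at h0
      exact absurd (Nat.le_of_dvd hp.pos h0) (by omega)
    show quadraticChar (ZMod r) (p : ZMod r) = 1
    rw [quadraticChar_one_iff_isSquare hp0]
    rcases eq_or_ne p 2 with rfl | hp2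
    · have := (ZMod.exists_sq_eq_two_iff (p := r) hr2).mpr (Or.inr hr8)
      simpa using this
    haveI : Fact p.Prime := ⟨hp⟩
    have hrp : (r : ZMod p) = -1 := by
      have h1 : ((r + 1 : ℕ) : ZMod (8 * n)) = 0 := by
        push_cast; rw [hr1]; ring
      rw [ZMod.natCast_eq_zero_iff] at h1
      have h2 : p ∣ r + 1 := (hpn.trans (Dvd.intro_left _ rfl)).trans h1
      have h3 : ((r + 1 : ℕ) : ZMod p) = 0 := by
        rw [ZMod.natCast_eq_zero_iff]; exact h2
      push_cast at h3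
      linear_combination h3
    have hpodd : p % 4 = 1 ∨ p % 4 = 3 := by
      have := hp.eq_two_or_odd
      omega
    rcases hpodd with h | h
    · rw [← ZMod.exists_sq_eq_prime_iff_of_mod_four_eq_one (p := p) (q := r) h hr2, hrp,
        ZMod.exists_sq_eq_neg_one_iff]
      omega
    · rw [ZMod.exists_sq_eq_prime_iff_of_mod_four_eq_three (p := r) (q := p) hr4 h (by omega), hrp,
        ZMod.exists_sq_eq_neg_one_iff]
      omega
  · rw [Nat.coprime_comm]
    apply Nat.Coprime.symm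
    rw [Nat.Prime.coprime_iff_not_dvd hr]
    intro h
    have := Nat.le_of_dvd (Nat.pos_of_ne_zero hn) h
    omega

variable {m r : ℕ} [NeZero m] [NeZero r]

instance : NeZero (m * r) := ⟨mul_ne_zero (NeZero.ne m) (NeZero.ne r)⟩

/-- the transfer to level `m r` -/
def sharp (m r : ℕ) (e : ZMod r → ℤ) (H : ZMod m → ℤ) : ZMod (m * r) → ℤ := fun b =>
  H (ZMod.castHom (Dvd.intro _ rfl : m ∣ m * r) (ZMod m) b) *
    e (ZMod.castHom (Dvd.intro_left _ rfl : r ∣ m * r) (ZMod r) b)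

/-- even functions -/
def EvenF (F : ZMod m → ℤ) : Prop := ∀ a, F (-a) = F a

lemma sharp_odd {n : ℕ} {e : ZMod r → ℤ} (he : Aux n r e) {H : ZMod m → ℤ} (hH : EvenF H) :
    OddF (sharp m r e H) := by
  intro b
  unfold sharp
  rw [map_neg, map_neg, hH, ← neg_one_mul (ZMod.castHom _ (ZMod r) b), he.mul, he.neg]
  ring

lemma sharp_rel {n : ℕ} {e : ZMod r → ℤ} (he : Aux n r e) {p : ℕ} (hp : p.Prime) (hpn : p ∣ n)
    (h : ZMod m → ℤ) : sharp m r e (rel p h) = rel p (sharp m r e h) := by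
  funext b
  unfold sharp rel
  beta_reduce
  rw [map_mul, map_mul, map_natCast, map_natCast, he.mul, he.small p hp hpn]
  ring

lemma sharp_add {e : ZMod r → ℤ} (F G : ZMod m → ℤ) :
    sharp m r e (F + G) = sharp m r e F + sharp m r e G := by
  funext b
  unfold sharp
  simp only [Pi.add_apply]
  ring

lemma sharp_neg {e : ZMod r → ℤ} (F : ZMod m → ℤ) :
    sharp m r e (-F) = - sharp m r e F := by
  funext b
  unfold sharp
  simp only [Pi.neg_apply]
  ring

lemma sharp_zero {e : ZMod r → ℤ} : sharp m r e 0 = 0 := by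
  funext b
  unfold sharp
  simp

/-- multiples of a divisor of the level -/
lemma exists_mul_iff {p : ℕ} (hpm : p ∣ m) (a : ZMod m) :
    (∃ b, a = (p : ZMod m) * b) ↔ p ∣ a.val := by
  constructor
  · rintro ⟨b, rfl⟩
    rw [ZMod.val_mul, (Nat.dvd_mod_iff hpm)]
    apply Dvd.dvd.mul_right
    rw [ZMod.val_natCast, Nat.dvd_mod_iff hpm]
  · rintro ⟨k, hk⟩
    refine ⟨(k : ZMod m), ?_⟩
    rw [← Nat.cast_mul, ← hk, ZMod.natCast_zmod_val]

lemma castHom_val {d : ℕ} (hd : d ∣ m) [NeZero d] (a : ZMod m) :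
    (ZMod.castHom hd (ZMod d) a).val = a.val % d := by
  conv_lhs => rw [← ZMod.natCast_zmod_val a, map_natCast, ZMod.val_natCast]

lemma sharp_supp {e : ZMod r → ℤ} {p : ℕ} (hpm : p ∣ m) {h : ZMod m → ℤ}
    (hs : ∀ a, h a ≠ 0 → ∃ b, a = (p : ZMod m) * b) :
    ∀ a, sharp m r e h a ≠ 0 → ∃ b, a = (p : ZMod (m * r)) * b := by
  intro a ha
  have h1 : h (ZMod.castHom (Dvd.intro _ rfl : m ∣ m * r) (ZMod m) a) ≠ 0 := by
    intro h0
    apply ha
    unfold sharp
    rw [h0, zero_mul]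
  have h2 := (exists_mul_iff hpm _).mp (hs _ h1)
  rw [castHom_val, Nat.dvd_mod_iff hpm] at h2
  exact (exists_mul_iff (hpm.trans (Dvd.intro _ rfl)) _).mpr h2

/-- invariant functions -/
def GInv (Q : ℕ) (E : ZMod m → ℤ) : Prop := ∀ u ∈ Kp m Q, ∀ a, E ((u : ZMod m) * a) = E a

lemma GInv.sInv {Q : ℕ} {E : ZMod m → ℤ} (h : GInv Q E) : SInv Q E := by
  intro u hu t
  unfold SS
  refine Fintype.sum_equiv (Units.mulLeft u) _ _ fun a => ?_
  rw [Units.mulLeft_apply, h u hu, Units.val_mul]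
  congr 3
  ring

lemma GInv.sharp {Q n q : ℕ} (hD : Dat m Q n q) {e : ZMod r → ℤ}
    (hrm : Nat.Coprime r m) {E : ZMod m → ℤ}
    (h : GInv Q E) : GInv Q (sharp m r e E) := by
  intro u hu a
  rw [mem_Kp] at hu
  unfold Pool.Agent.Lib.MP_938ce2_ag_H7e.sharp
  rw [map_mul, map_mul]
  have h1 : ZMod.castHom (Dvd.intro _ rfl : m ∣ m * r) (ZMod m) (u : ZMod (m * r))
      = ((ZMod.unitsMap (Dvd.intro _ rfl : m ∣ m * r) u : (ZMod m)ˣ) : ZMod m) := by
    rw [ZMod.unitsMap_val]; rfl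
  rw [h1, h]
  · congr 1
    have h2 := congrArg (ZMod.castHom (Dvd.intro_left _ rfl : r ∣ m * r) (ZMod r)) hu
    rw [map_mul, map_natCast] at h2
    have h3 : IsUnit ((Q : ℕ) : ZMod r) := by
      rw [ZMod.isUnit_iff_coprime]
      exact (Nat.Coprime.coprime_dvd_right hD.Qm hrm).symm
    have h4 : ZMod.castHom (Dvd.intro_left _ rfl : r ∣ m * r) (ZMod r) (u : ZMod (m * r)) = 1 := by
      apply h3.mul_right_cancel
      rw [h2, one_mul]
    rw [h4, one_mul]
  · rw [mem_Kp, ← h1]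
    have h2 := congrArg (ZMod.castHom (Dvd.intro _ rfl : m ∣ m * r) (ZMod m)) hu
    rw [map_mul, map_natCast] at h2
    exact h2

lemma SInv.add {Q : ℕ} {F G : ZMod m → ℤ} (hF : SInv Q F) (hG : SInv Q G) : SInv Q (F + G) := by
  intro u hu t
  have h1 := hF u hu t
  have h2 := hG u hu t
  unfold SS at *
  simp only [Pi.add_apply, add_mul, sum_add_distrib]
  rw [h1, h2]

lemma SInv.neg {Q : ℕ} {F : ZMod m → ℤ} (hF : SInv Q F) : SInv Q (-F) := by
  intro u hu t
  have h1 := hF u hu t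
  unfold SS at *
  simp only [Pi.neg_apply, neg_mul, sum_neg_distrib]
  rw [h1]

lemma SInv.of_tate {Q : ℕ} {F : ZMod m → ℤ} (hF : TateF F) : SInv Q F := by
  intro u _ t
  have h1 := hF (u * t)
  have h2 := hF t
  unfold SS
  rw [h1, h2]

lemma SInv.zero {Q : ℕ} : SInv Q (0 : ZMod m → ℤ) := by
  intro u _ t
  simp [SS]

lemma aux_dvd {n : ℕ} {e : ZMod r → ℤ} (he : Aux n r e) (c : ℕ) (hc : c ∣ n) (hn : n ≠ 0) :
    e (c : ZMod r) = 1 := by
  induction c using Nat.strong_induction_on with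
  | _ c ih =>
    by_cases h1 : c = 1
    · subst h1
      rw [Nat.cast_one, he.one]
    obtain ⟨p, hp, c', rfl⟩ := Nat.exists_prime_and_dvd h1
    have hc0 : c' ≠ 0 := by
      rintro rfl
      rw [mul_zero] at hc
      exact hn (Nat.eq_zero_of_zero_dvd hc)
    rw [Nat.cast_mul, he.mul, he.small p hp ((Dvd.intro _ rfl).trans hc), one_mul]
    apply ih
    · have := hp.two_le
      nlinarith [Nat.pos_of_ne_zero hc0]
    · exact (Dvd.intro_left _ rfl).trans hc

/-- simultaneous lift of units -/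
lemma exists_lift2 {F f r : ℕ} (hF0 : F ≠ 0) (hF : F = f * r) (hcop : Nat.Coprime f r)
    (hf : f ∣ F) (hr : r ∣ F)
    (k : (ZMod f)ˣ) (s : (ZMod r)ˣ) :
    ∃ w : (ZMod F)ˣ, ZMod.unitsMap hf w = k ∧ ZMod.unitsMap hr w = s := by
  obtain ⟨x, hx1, hx2⟩ := Nat.chineseRemainder hcop (k : ZMod f).val (s : ZMod r).val
  have hxf : Nat.Coprime x f := by
    rw [Nat.Coprime, Nat.ModEq.gcd_eq hx1]
    exact ZMod.val_coe_unit_coprime k
  have hxr : Nat.Coprime x r := by
    rw [Nat.Coprime, Nat.ModEq.gcd_eq hx2]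
    exact ZMod.val_coe_unit_coprime s
  have hxF : Nat.Coprime x F := by
    rw [hF]
    exact Nat.Coprime.mul_right hxf hxr
  have key : ∀ {d : ℕ} (hd : d ∣ F) (y : (ZMod d)ˣ), x ≡ (y : ZMod d).val [MOD d] →
      ZMod.unitsMap hd (ZMod.unitOfCoprime x hxF) = y := by
    intro d hd y hy
    apply Units.ext
    rw [ZMod.unitsMap_val, ZMod.coe_unitOfCoprime]
    have h1 : ((x : ZMod F).cast : ZMod d) = (x : ZMod d) := ZMod.cast_natCast hd x
    rw [h1]
    rcases Nat.eq_zero_or_pos d with rfl | hd0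
    · exact absurd (Nat.eq_zero_of_zero_dvd hd) hF0
    · haveI : NeZero d := ⟨hd0.ne'⟩
      have h2 : ((y : ZMod d).val : ZMod d) = y := ZMod.natCast_zmod_val _
      rw [← h2, ZMod.natCast_eq_natCast_iff]
      exact hy
  exact ⟨ZMod.unitOfCoprime x hxF, key hf k hx1, key hr s hx2⟩

end Pool.Agent.Lib.MP_938ce2_ag_H7e
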