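import Pool.Agent.Lib.MP_938ce2_ag_h99.IntSplit
import Pool.Agent.Lib.MP_938ce2_ag_h99.MainA

/-!
Integral splitting without parity.
-/

set_option autoImplicit false
set_option linter.unusedSectionVars false

open Finset

namespace Pool.Agent.Lib.MP_938ce2_ag_H7e

open Pool.Agent.Lib.MP_938ce2_ag_h99

variable {A : Type*} [CommGroup A]

/-- integral splitting without parity -/
theorem int_split0 (K : ℕ → Subgroup A) : ∀ ps : List ℕ, ps.Nodup →
    IndepL (ps.map K) → ∀ F : A → ℤ, MD (ps.map K) F →
    ∃ G : ℕ → A → ℤ, (∀ p ∈ ps, ∀ z ∈ K p, ∀ x, G p (z * x) = G p x) ∧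
      (∀ x, F x = (ps.map fun p => G p x).sum) := by
  intro ps
  induction ps with
  | nil =>
    intro _ _ F hF
    refine ⟨fun _ => 0, by simp, ?_⟩
    intro x
    have : F x = 0 := hF x
    simp [this]
  | cons p ps ih =>
    intro hnd hI F hF
    have hpn : p ∉ ps := (List.nodup_cons.mp hnd).1
    set L := ps.map K with hL
    obtain ⟨k, hk1, hk2, hk3⟩ := exists_coord (K p) (spanL L) hI.1
    set B : A → ℤ := fun x => F ((k x)⁻¹ * x) with hB
    have hBinv : ∀ z ∈ K p, ∀ x, B (z * x) = B x := by
      intro z hz x
      simp only [hB]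
      rw [hk2 z hz, mul_inv_rev, mul_assoc, inv_mul_cancel_left]
    have hD := split_first hF k hk1 hk3
    obtain ⟨G, hG1, hG2⟩ := ih (List.nodup_cons.mp hnd).2 hI.2 (fun x => F x - B x) hD
    refine ⟨fun r => if r = p then B else G r, ?_, ?_⟩
    · intro r hr z hz x
      by_cases hrp : r = p
      · subst hrp
        simp only [if_true]
        exact hBinv z hz x
      · simp only [hrp, if_false]
        exact hG1 r ((List.mem_cons.mp hr).resolve_left hrp) z hz x
    · intro x
      have h1 := hG2 x
      rw [List.map_cons, List.sum_cons]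
      have h2 : (ps.map fun r => (if r = p then B else G r) x)
          = ps.map fun r => G r x := by
        apply List.map_congr_left
        intro r hr
        have : r ≠ p := fun h => hpn (h ▸ hr)
        simp [this]
      rw [h2, ← h1]
      simp

lemma MD.of_two {L : List (Subgroup A)} : ∀ {F : A → ℤ}, MD L (fun x => 2 * F x) → MD L F := by
  induction L with
  | nil =>
    intro F h x
    have h1 : 2 * F x = 0 := h x
    show F x = 0
    omega
  | cons K L ih =>
    intro F h
    rw [MD_cons] at *
    intro k hk
    apply ih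
    have := h k hk
    convert this using 2 with x
    ring

/-- transfer of the vanishing of mixed differences from a bigger group -/
lemma MD.transfer {A' : Type*} [CommGroup A'] (φ : A' →* A) (S : Subgroup A')
    (e : A' → ℤ) (he : ∀ k ∈ S, ∀ w, e (k * w) = e w) :
    ∀ (L : List (Subgroup A)) (L' : List (Subgroup A')),
      List.Forall₂ (fun K K' => ∀ k ∈ K, ∃ k' ∈ K', k' ∈ S ∧ φ k' = k) L L' →
      ∀ (H : A → ℤ) (w : A'), e w = 1 → MDat L' (fun w => H (φ w) * e w) w → MDat L H (φ w)
  | [], [], _, H, w, hw, h => by
      have : H (φ w) * e w = 0 := h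
      rw [hw, mul_one] at this
      exact this
  | K :: L, K' :: L', hf, H, w, hw, h => by
      intro k hk
      rcases hf with _ | ⟨h1, h2⟩
      obtain ⟨k', hk', hS, rfl⟩ := h1 k hk
      have h3 := h k' hk'
      refine MD.transfer φ S e he L L' h2 _ w hw ?_
      convert h3 using 2 with y
      show _ = H (φ y) * e y - H (φ (k' * y)) * e (k' * y)
      rw [he k' hS, map_mul]
      ring

end Pool.Agent.Lib.MP_938ce2_ag_H7e
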