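import Pool.Agent.Lib.MP_938ce2_ag_H7e.Up

/-!
Splitting off the elements of large order at `q`.
-/

set_option autoImplicit false
set_option linter.style.haveILetI false
set_option linter.unusedSectionVars false

open Finset

namespace Pool.Agent.Lib.MP_938ce2_ag_H7e

open Pool.Agent.Lib.MP_938ce2_ag_h99

variable {m Q n q : ℕ} [NeZero m]

lemma exists_of_order_dvd {c m' : ℕ} (hm : m = c * m') (hm' : m' ≠ 0) {a : ZMod m}
    (ha : addOrderOf a ∣ m') : ∃ b, a = (c : ZMod m) * b := by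
  rw [exists_mul_iff (Dvd.intro _ hm.symm)]
  have h1 : m' • a = 0 := addOrderOf_dvd_iff_nsmul_eq_zero.mp ha
  rw [nsmul_eq_mul, ← ZMod.natCast_zmod_val a, ← Nat.cast_mul, ZMod.natCast_eq_zero_iff] at h1
  have h2 : c * m' ∣ a.val * m' := by
    have : c * m' ∣ m' * a.val := by rw [← hm]; exact h1
    rwa [mul_comm m' a.val] at this
  exact Nat.dvd_of_mul_dvd_mul_right (Nat.pos_of_ne_zero hm') h2

lemma SS_fix {c m' : ℕ} (hm : m = c * m') (hm' : m' ≠ 0) {F : ZMod m → ℤ}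
    (hs : ∀ a, F a ≠ 0 → addOrderOf a ∣ m') :
    ∀ u ∈ Kp m c, ∀ t : (ZMod m)ˣ, SS F (u * t) = SS F t := by
  intro u hu t
  unfold SS
  refine sum_congr rfl fun a _ => ?_
  by_cases ha : F a = 0
  · rw [ha]; ring
  · obtain ⟨b, hb⟩ := exists_of_order_dvd hm hm' (hs a ha)
    rw [mem_Kp] at hu
    have h1 : ((u * t : (ZMod m)ˣ) : ZMod m) * a = (t : ZMod m) * a := by
      rw [hb, Units.val_mul]
      calc (u : ZMod m) * t * ((c : ZMod m) * b) = t * (((u : ZMod m) * c) * b) := by ring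
        _ = t * ((c : ZMod m) * b) := by rw [hu]
    rw [h1]

lemma SS_add (F G : ZMod m → ℤ) (t : (ZMod m)ˣ) : SS (F + G) t = SS F t + SS G t := by
  unfold SS
  rw [← sum_add_distrib]
  refine sum_congr rfl fun a _ => ?_
  rw [Pi.add_apply]; ring

/-- The part of large order at `q` is a combination of fibre relations. -/
theorem split_q (hD : Dat m Q n q) {K k0 e : ℕ} (hQ : Q = q ^ K) (he : 1 ≤ e)
    {F0 F1 : ZMod m → ℤ} (ho : OddF F1) (hT : TateF (F0 + F1))
    (hs0 : ∀ a, F0 a ≠ 0 → addOrderOf a ∣ q ^ k0 * n)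
    (hs1 : ∀ a, F1 a ≠ 0 → q ^ (k0 + e) ∣ addOrderOf a)
    (hnorm : 3 * ∑ a, |F1 a| < (q ^ e).totient) : F1 ∈ relSub m := by
  by_cases hK : k0 + e ≤ K
  swap
  · have h1 : F1 = 0 := by
      funext a
      by_contra ha
      have h2 := (hs1 a ha).trans (addOrderOf_dvd_m a)
      rw [hD.hm] at h2
      have hqn : Nat.Coprime q n := Nat.Coprime.coprime_dvd_left hD.qQ hD.hcop
      have h3 := (hqn.pow_left (k0 + e)).dvd_of_dvd_mul_right h2
      rw [hQ] at h3
      exact hK ((Nat.pow_dvd_pow_iff_le_right hD.hq.one_lt).mp h3)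
    rw [h1]
    exact (relSub m).zero_mem
  obtain ⟨d, hd⟩ : ∃ d, K = (k0 + e) + d := ⟨K - (k0 + e), by omega⟩
  obtain ⟨F, hF1, hF2, hF3, hF4⟩ := push_up hD hQ d (k0 + e) hd.symm (by omega) F1 ho hs1
  have hqpos : (0 : ℤ) < q := by exact_mod_cast hD.hq.pos
  have hqd : (0 : ℤ) < (q : ℤ) ^ d := pow_pos hqpos d
  suffices hmem : F ∈ relSub m by
    have := (relSub m).sub_mem hmem hF3
    rwa [sub_sub_cancel] at this
  -- norm bound
  have hφ : (((q ^ (e + d)).totient : ℕ) : ℤ) = q ^ d * ((q ^ e).totient : ℕ) := by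
    obtain ⟨e', rfl⟩ : ∃ e', e = e' + 1 := ⟨e - 1, by omega⟩
    rw [show e' + 1 + d = (e' + d) + 1 by ring, Nat.totient_prime_pow_succ hD.hq,
      Nat.totient_prime_pow_succ hD.hq]
    push_cast
    ring
  have hφ2 : (((q ^ (e + d)).totient : ℕ) : ℤ) ≤ Q.totient := by
    have h1 : q ^ (e + d) ∣ Q := by rw [hQ]; exact pow_dvd_pow q (by omega)
    exact_mod_cast Nat.le_of_dvd (Nat.totient_pos.mpr hD.Qpos) (Nat.totient_dvd_of_dvd h1)
  have hn : 3 * ∑ a, |F a| < Q.totient := by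
    calc 3 * ∑ a, |F a| ≤ 3 * (q ^ d * ∑ a, |F1 a|) := by linarith
      _ = q ^ d * (3 * ∑ a, |F1 a|) := by ring
      _ < q ^ d * ((q ^ e).totient : ℕ) := mul_lt_mul_of_pos_left hnorm hqd
      _ = (((q ^ (e + d)).totient : ℕ) : ℤ) := hφ.symm
      _ ≤ Q.totient := hφ2
  -- the sums
  have hSF : ∀ t, SS F t = - SS F0 t := by
    intro t
    have h1 : SS (F - F1) t = 0 := TateF_of_mem_relSub hF3 t
    have h2 : SS (F0 + F1) t = 0 := hT t
    have h3 := SS_add (F - F1) F1 t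
    rw [sub_add_cancel, h1, zero_add] at h3
    rw [SS_add] at h2
    linarith
  have hinv : ∀ u ∈ Kp m (q ^ (e + d)), ∀ t : (ZMod m)ˣ, SS F (u * t) = SS F t := by
    intro u hu t
    rw [hSF, hSF, SS_fix (m' := q ^ k0 * n) ?_ ?_ hs0 u hu t]
    · rw [hD.hm, hQ, hd]
      ring
    · exact mul_ne_zero (pow_pos hD.hq.pos _).ne' hD.hn
  rcases Nat.eq_zero_or_pos k0 with h0 | hk0
  · refine main_small hD hF1 ?_ hF2 hn
    intro u hu t
    apply hinv
    rw [h0, zero_add] at hd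
    rw [← hd, ← hQ]
    exact hu
  · have hsmall : ∀ t : (ZMod m)ˣ, 6 * |SS F t| < m := by
      intro t
      have hQ' : Q = q ^ (k0 + (e + d)) := by rw [hQ, hd]; congr 1; ring
      have h1 := avg_bound hD hk0 hQ' hF1 hF2 hinv t
      have hm : (0 : ℤ) < m := by exact_mod_cast Nat.pos_of_ne_zero (NeZero.ne m)
      have h2 : (((q ^ e).totient : ℕ) : ℤ) ≤ q ^ e := by exact_mod_cast Nat.totient_le _
      have h3 : (q : ℤ) ^ (e + d) * (6 * |SS F t|) < q ^ (e + d) * m := by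
        have h4 : (0 : ℤ) ≤ ∑ a, |F1 a| := sum_nonneg fun a _ => abs_nonneg _
        calc (q : ℤ) ^ (e + d) * (6 * |SS F t|) = 3 * (2 * q ^ (e + d) * |SS F t|) := by ring
          _ ≤ 3 * (m * ∑ a, |F a|) := by linarith
          _ ≤ 3 * (m * (q ^ d * ∑ a, |F1 a|)) := by
              have := mul_le_mul_of_nonneg_left hF4 hm.le
              linarith
          _ = (m * q ^ d) * (3 * ∑ a, |F1 a|) := by ring
          _ < (m * q ^ d) * ((q ^ e).totient : ℕ) :=
              mul_lt_mul_of_pos_left hnorm (mul_pos hm hqd)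
          _ ≤ (m * q ^ d) * q ^ e := mul_le_mul_of_nonneg_left h2 (mul_pos hm hqd).le
          _ = q ^ (e + d) * m := by ring
      exact lt_of_mul_lt_mul_left h3 (by positivity)
    have hzero := small_zero F hsmall
    exact main_small hD hF1 (SInv.of_tate hzero) hF2 hn

end Pool.Agent.Lib.MP_938ce2_ag_H7e
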