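import Pool.Agent.Lib.MP_938ce2_ag_H7e.All

/-!
Peeling, first part: functions whose sums are invariant under the large group are invariant
modulo the relations at the other primes.
-/

set_option autoImplicit false
set_option linter.style.haveILetI false
set_option linter.unusedSectionVars false

open Finset

namespace Pool.Agent.Lib.MP_938ce2_ag_H7e

open Pool.Agent.Lib.MP_938ce2_ag_h99

section Peeling

variable {m f : ℕ} [NeZero m] [NeZero f]

/-- the relation attached to an invariant function at level `f` -/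
noncomputable def RR (hf : f ∣ m) (G : ℕ → (ZMod f)ˣ → ℤ) (p : ℕ) : ZMod m → ℤ :=
  rel p (gOf hf p (G p))

lemma RR_top (hf : f ∣ m) {G : ℕ → (ZMod f)ˣ → ℤ} {p : ℕ} (hp : p.Prime) (hpf : p ∣ f)
    (hG : ∀ z ∈ Kp f p, ∀ u, G p (z * u) = G p u) (u : (ZMod f)ˣ) :
    RR hf G p (jj hf (u : ZMod f)) = G p u := by
  have h1 : gOf hf p (G p) (jj hf (u : ZMod f)) = 0 := by
    by_contra hne
    have h1 := gOf_order hf hp.ne_zero hpf hne
    rw [addOrderOf_unit hf u] at h1
    have h2 := Nat.div_lt_self (Nat.pos_of_ne_zero (NeZero.ne f)) hp.one_lt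
    omega
  unfold RR rel
  rw [h1, gOf_apply hf hG, sub_zero]

lemma RR_other (hf : f ∣ m) {G : ℕ → (ZMod f)ˣ → ℤ} {p : ℕ} (hp : p.Prime) (hpf : p ∣ f)
    {a : ZMod m} (ha : RR hf G p a ≠ 0) : addOrderOf a = f ∨ addOrderOf a = f / p := by
  have hx1 : gOf hf p (G p) ((p : ZMod m) * a) - gOf hf p (G p) a ≠ 0 := ha
  by_cases h2 : gOf hf p (G p) a = 0
  · have h3 : gOf hf p (G p) ((p : ZMod m) * a) ≠ 0 := by
      intro h0
      apply hx1
      rw [h0, h2, sub_zero]
    have h4 := gOf_order hf hp.ne_zero hpf h3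
    rcases order_of_mul hp h4 with h5 | h5
    · right; exact h5
    · left
      rw [h5, Nat.mul_div_cancel' hpf]
  · right
    exact gOf_order hf hp.ne_zero hpf h2

lemma gOf_supp (hf : f ∣ m) {G : (ZMod f)ˣ → ℤ} {p : ℕ} :
    ∀ a, gOf hf p G a ≠ 0 → ∃ b, a = (p : ZMod m) * b := by
  intro a ha
  obtain ⟨u, hu⟩ := gOf_ne_zero hf ha
  exact ⟨_, hu⟩

end Peeling

variable {m r : ℕ} [NeZero m] [NeZero r]

/-- relations at the primes dividing `n`, without parity -/
def relN (m n : ℕ) : AddSubgroup (ZMod m → ℤ) :=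
  AddSubgroup.closure {h | ∃ (p : ℕ) (g : ZMod m → ℤ), p.Prime ∧ p ∣ n ∧
    (∀ a, g a ≠ 0 → ∃ b, a = (p : ZMod m) * b) ∧ h = rel p g}

/-- extension by zero of a function at level `f` -/
noncomputable def ext0 {f : ℕ} (hf : f ∣ m) (G : (ZMod f)ˣ → ℤ) : ZMod m → ℤ := fun a =>
  by classical exact if h : ∃ u : (ZMod f)ˣ, jj hf (u : ZMod f) = a then G h.choose else 0

lemma ext0_apply {f : ℕ} (hf : f ∣ m) (G : (ZMod f)ˣ → ℤ) (u : (ZMod f)ˣ) :
    ext0 hf G (jj hf (u : ZMod f)) = G u := by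
  unfold ext0
  have h : ∃ v : (ZMod f)ˣ, jj hf (v : ZMod f) = jj hf (u : ZMod f) := ⟨u, rfl⟩
  rw [dif_pos h]
  congr 1
  exact Units.ext (jj_injective hf h.choose_spec)

lemma ext0_ne {f : ℕ} (hf : f ∣ m) {G : (ZMod f)ˣ → ℤ} {a : ZMod m} (h : ext0 hf G a ≠ 0) :
    addOrderOf a = f := by
  unfold ext0 at h
  by_contra hn
  apply h
  rw [dif_neg]
  rintro ⟨u, rfl⟩
  exact hn (addOrderOf_unit hf u)

lemma addOrderOf_unit_mul (v : (ZMod m)ˣ) (a : ZMod m) :
    addOrderOf ((v : ZMod m) * a) = addOrderOf a := by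
  have key : ∀ (v : (ZMod m)ˣ) (a : ZMod m), addOrderOf ((v : ZMod m) * a) ∣ addOrderOf a := by
    intro v a
    apply addOrderOf_dvd_of_nsmul_eq_zero
    rw [← mul_smul_comm, addOrderOf_nsmul_eq_zero, mul_zero]
  apply Nat.dvd_antisymm (key v a)
  have := key v⁻¹ ((v : ZMod m) * a)
  rwa [← mul_assoc, ← Units.val_mul, inv_mul_cancel, Units.val_one, one_mul] at this

lemma GInv.ext0 {Q f : ℕ} (hf : f ∣ m) {G : (ZMod f)ˣ → ℤ}
    (hG : ∀ z ∈ Kp f Q, ∀ u, G (z * u) = G u) : GInv Q (ext0 hf G) := by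
  intro v hv a
  by_cases h : addOrderOf a = f
  · obtain ⟨u, rfl⟩ := exists_unit_of_order hf h
    have h1 : (v : ZMod m) * jj hf (u : ZMod f)
        = jj hf (((ZMod.unitsMap hf v) * u : (ZMod f)ˣ) : ZMod f) := by
      rw [jj_mul, Units.val_mul, ZMod.unitsMap_val]
      rfl
    rw [h1, ext0_apply, ext0_apply]
    apply hG
    rw [mem_Kp] at hv ⊢
    have h2 := congrArg (ZMod.castHom hf (ZMod f)) hv
    rw [map_mul, map_natCast] at h2
    rw [ZMod.unitsMap_val]
    exact h2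
  · have h1 : Pool.Agent.Lib.MP_938ce2_ag_H7e.ext0 hf G a = 0 := by
      by_contra hc; exact h (ext0_ne hf hc)
    have h2 : Pool.Agent.Lib.MP_938ce2_ag_H7e.ext0 hf G ((v : ZMod m) * a) = 0 := by
      by_contra hc
      have := ext0_ne hf hc
      rw [addOrderOf_unit_mul] at this
      exact h this
    rw [h1, h2]

lemma GInv.add {Q : ℕ} {E E' : ZMod m → ℤ} (h : GInv Q E) (h' : GInv Q E') : GInv Q (E + E') := by
  intro u hu a
  simp only [Pi.add_apply]
  rw [h u hu, h' u hu]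

lemma TP.zero {Q : ℕ} {e : ZMod r → ℤ} : TP Q e (0 : ZMod m → ℤ) where
  o := by
    have : (fun a : ZMod m => (0 : ZMod m → ℤ) a - (0 : ZMod m → ℤ) (-a)) = 0 := by
      funext a; simp
    rw [this]; exact SInv.zero
  ev := by
    have : (fun a : ZMod m => (0 : ZMod m → ℤ) a + (0 : ZMod m → ℤ) (-a)) = 0 := by
      funext a; simp
    rw [this, sharp_zero]; exact SInv.zero

lemma TP.add {Q : ℕ} {e : ZMod r → ℤ} {H G : ZMod m → ℤ} (hH : TP Q e H) (hG : TP Q e G) :
    TP Q e (H + G) := by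
  have := hH.sub (TP.zero.sub hG)
  convert this using 1
  funext a
  simp

lemma TP.list_sum {Q : ℕ} {e : ZMod r → ℤ} : ∀ (L : List (ZMod m → ℤ)), (∀ h ∈ L, TP Q e h) →
    TP Q e L.sum
  | [], _ => by rw [List.sum_nil]; exact TP.zero
  | h :: L, hL => by
      rw [List.sum_cons]
      exact (hL h List.mem_cons_self).add
        (TP.list_sum L fun h' hh' => hL h' (List.mem_cons_of_mem _ hh'))

lemma disjoint_big {Q n q g : ℕ} (hD : Dat m Q n q) (hg : g ∣ n) [NeZero (Q * g)]
    (pl : List ℕ) (hpl : ∀ p ∈ pl, p ∣ g) :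
    Disjoint (Kp (Q * g) Q) (spanL (pl.map (Kp (Q * g)))) := by
  rw [Subgroup.disjoint_def]
  intro x hx hx2
  have h1 : (x : ZMod (Q * g)) * (Q : ZMod (Q * g)) = Q := hx
  have h2 : (x : ZMod (Q * g)) * (g : ZMod (Q * g)) = g := spanL_le_stab g pl hpl hx2
  have hcop := (hD.sub hg).hcop
  have hbez := Nat.gcd_eq_gcd_ab Q g
  rw [hcop.gcd_eq_one] at hbez
  have h3 : (1 : ZMod (Q * g)) = (Q : ZMod (Q * g)) * ((Nat.gcdA Q g : ℤ) : ZMod (Q * g))
      + (g : ZMod (Q * g)) * ((Nat.gcdB Q g : ℤ) : ZMod (Q * g)) := by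
    have := congrArg (fun z : ℤ => (z : ZMod (Q * g))) hbez
    push_cast at this
    exact this
  apply Units.ext
  calc (x : ZMod (Q * g)) = x * 1 := (mul_one _).symm
    _ = x * ((Q : ZMod (Q * g)) * ((Nat.gcdA Q g : ℤ) : ZMod (Q * g))
      + (g : ZMod (Q * g)) * ((Nat.gcdB Q g : ℤ) : ZMod (Q * g))) := by rw [← h3]
    _ = (x * Q) * ((Nat.gcdA Q g : ℤ) : ZMod (Q * g))
      + (x * g) * ((Nat.gcdB Q g : ℤ) : ZMod (Q * g)) := by ring
    _ = 1 := by rw [h1, h2, ← h3]

theorem tail_aux {Q n q : ℕ} (hD : Dat m Q n q) {e : ZMod r → ℤ} (he : Aux n r e)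
    (hrm : Nat.Coprime r m) : ∀ (k : ℕ) (H : ZMod m → ℤ), TP Q e H →
    (∀ a, H a ≠ 0 → Q ∣ addOrderOf a) → (∀ a, H a ≠ 0 → addOrderOf a ≤ k) →
    ∃ E : ZMod m → ℤ, GInv Q E ∧ (∀ a, E a ≠ 0 → Q ∣ addOrderOf a) ∧ H - E ∈ relN m n := by
  classical
  intro k
  induction k with
  | zero =>
    intro H _ _ hsup
    have : H = 0 := by
      funext a
      by_contra ha
      have h1 := hsup a ha
      have h2 : 0 < addOrderOf a :=
        Nat.pos_of_dvd_of_pos (addOrderOf_dvd_m a) (Nat.pos_of_ne_zero (NeZero.ne m))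
      omega
    refine ⟨0, fun u _ a => rfl, fun a ha => absurd rfl ha, ?_⟩
    rw [this, sub_zero]
    exact (relN m n).zero_mem
  | succ k ih =>
    intro H hT hsupp hsup
    by_cases hf : Q ∣ k + 1 ∧ (k + 1) ∣ m
    swap
    · apply ih H hT hsupp
      intro a ha
      have h1 := hsup a ha
      have h2 : addOrderOf a ≠ k + 1 := by
        intro h
        exact hf ⟨h ▸ hsupp a ha, h ▸ addOrderOf_dvd_m a⟩
      omega
    obtain ⟨⟨g, hg'⟩, hkm⟩ := hf
    have hgn : g ∣ n := by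
      rw [hg', hD.hm] at hkm
      exact Nat.dvd_of_mul_dvd_mul_left hD.Qpos hkm
    have hfm : Q * g ∣ m := hg' ▸ hkm
    haveI : NeZero (Q * g) := ⟨by omega⟩
    have hg0 : g ≠ 0 := (hD.sub hgn).hn
    set pl := g.primeFactors.toList with hpl
    have hmem : ∀ p, p ∈ pl ↔ p.Prime ∧ p ∣ g := by
      intro p
      rw [hpl, Finset.mem_toList, Nat.mem_primeFactors]
      exact ⟨fun h => ⟨h.1, h.2.1⟩, fun h => ⟨h.1, h.2, hg0⟩⟩
    have hQpl : Q ∉ pl := by
      intro h
      obtain ⟨h1, h2⟩ := (hmem Q).mp h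
      have := Nat.Coprime.eq_one_of_dvd (hD.sub hgn).hcop h2
      exact h1.one_lt.ne' this
    have hMD := MD_all hD hgn hfm he hrm H hT hsupp
      (fun a ha hd => by
        have h1 := hsup a ha
        have h2 : 0 < addOrderOf a :=
          Nat.pos_of_dvd_of_pos (addOrderOf_dvd_m a) (Nat.pos_of_ne_zero (NeZero.ne m))
        have h3 := Nat.le_of_dvd h2 hd
        omega) (Q :: pl) List.mem_cons_self
      (fun p hp hpg => List.mem_cons_of_mem _ ((hmem p).mpr ⟨hp, hpg⟩))
    obtain ⟨G, hG1, hG2⟩ := int_split0 (Kp (Q * g)) (Q :: pl)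
      (List.nodup_cons.mpr ⟨hQpl, Finset.nodup_toList _⟩)
      ⟨disjoint_big hD hgn pl fun p hp => ((hmem p).mp hp).2,
        indep_Kp pl (fun p hp => ⟨((hmem p).mp hp).1, ((hmem p).mp hp).2.trans (Dvd.intro_left _ rfl)⟩)
          (Finset.nodup_toList _)⟩ _ hMD
    set E' : ZMod m → ℤ := Pool.Agent.Lib.MP_938ce2_ag_H7e.ext0 hfm (G Q) with hE'
    have hE'inv : GInv Q E' := GInv.ext0 hfm (hG1 Q List.mem_cons_self)
    set R : ZMod m → ℤ := (pl.map (RR hfm G)).sum with hR
    have hRmem : ∀ p ∈ pl, RR hfm G p ∈ relN m n := by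
      intro p hp
      apply AddSubgroup.subset_closure
      exact ⟨p, gOf hfm p (G p), ((hmem p).mp hp).1, ((hmem p).mp hp).2.trans hgn, gOf_supp hfm, rfl⟩
    have hRsum : R ∈ relN m n := by
      apply AddSubgroup.list_sum_mem
      intro x hx
      obtain ⟨p, hp, rfl⟩ := List.mem_map.mp hx
      exact hRmem p hp
    have hRTP : TP Q e R := by
      apply TP.list_sum
      intro x hx
      obtain ⟨p, hp, rfl⟩ := List.mem_map.mp hx
      exact TP.of_rel hD he ((hmem p).mp hp).1 (((hmem p).mp hp).2.trans hgn) (gOf_supp hfm)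
    have hRne : ∀ a, R a ≠ 0 → addOrderOf a = Q * g ∨ ∃ p ∈ pl, addOrderOf a = Q * g / p := by
      intro a ha
      rw [hR, list_sum_apply] at ha
      obtain ⟨x, hx, hx0⟩ := List.exists_mem_ne_zero_of_sum_ne_zero ha
      obtain ⟨p, hp, rfl⟩ := List.mem_map.mp hx
      rcases RR_other hfm ((hmem p).mp hp).1 (((hmem p).mp hp).2.trans (Dvd.intro_left _ rfl)) hx0
        with h | h
      · left; exact h
      · right; exact ⟨p, hp, h⟩
    have hdivQ : ∀ p ∈ pl, Q ∣ Q * g / p := by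
      intro p hp
      rw [Nat.mul_div_assoc _ ((hmem p).mp hp).2]
      exact Dvd.intro _ rfl
    have hlt : ∀ p ∈ pl, Q * g / p < Q * g := fun p hp =>
      Nat.div_lt_self (Nat.pos_of_ne_zero (NeZero.ne _)) ((hmem p).mp hp).1.one_lt
    set H' : ZMod m → ℤ := H - E' - R with hH'
    have htop : ∀ a, addOrderOf a = Q * g → H' a = 0 := by
      intro a ha
      obtain ⟨u, rfl⟩ := exists_unit_of_order hfm ha
      have h1 := hG2 u
      rw [hH', Pi.sub_apply, Pi.sub_apply, hE', ext0_apply, hR, list_sum_apply]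
      have h2 : (pl.map fun p => RR hfm G p (jj hfm (u : ZMod (Q * g))))
          = pl.map fun p => G p u := by
        apply List.map_congr_left
        intro p hp
        exact RR_top hfm ((hmem p).mp hp).1 (((hmem p).mp hp).2.trans (Dvd.intro_left _ rfl))
          (hG1 p (List.mem_cons_of_mem _ hp)) u
      rw [h2]
      rw [List.map_cons, List.sum_cons] at h1
      rw [h1]
      ring
    have hne : ∀ a, H' a ≠ 0 → H a ≠ 0 ∨ ∃ p ∈ pl, addOrderOf a = Q * g / p := by
      intro a ha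
      have h0 : addOrderOf a ≠ Q * g := fun h => ha (htop a h)
      by_contra hc
      push Not at hc
      apply ha
      have h1 : E' a = 0 := by
        by_contra h; exact h0 (ext0_ne hfm h)
      have h2 : R a = 0 := by
        by_contra h
        rcases hRne a h with h3 | ⟨p, hp, h3⟩
        · exact h0 h3
        · exact hc.2 p hp h3
      rw [hH', Pi.sub_apply, Pi.sub_apply, hc.1, h1, h2]
      simp
    obtain ⟨E'', h1, h2, h3⟩ := ih H'
      ((hT.sub (TP.of_gInv hD hrm hE'inv)).sub hRTP)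
      (by
        intro a ha
        rcases hne a ha with h | ⟨p, hp, h⟩
        · exact hsupp a h
        · rw [h]; exact hdivQ p hp)
      (by
        intro a ha
        have h0 : addOrderOf a ≠ Q * g := fun h => ha (htop a h)
        rcases hne a ha with h | ⟨p, hp, h⟩
        · have := hsup a h
          omega
        · have := hlt p hp
          omega)
    refine ⟨E' + E'', hE'inv.add h1, ?_, ?_⟩
    · intro a ha
      by_cases h4 : E' a = 0
      · apply h2 a
        intro h5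
        apply ha
        rw [Pi.add_apply, h4, h5, add_zero]
      · rw [ext0_ne hfm h4]
        exact Dvd.intro _ rfl
    · have h5 := (relN m n).add_mem h3 hRsum
      convert h5 using 1
      rw [hH']
      abel

end Pool.Agent.Lib.MP_938ce2_ag_H7e
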