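import Pool.Agent.Lib.MP_938ce2_ag_H7e.Window
import Pool.Agent.Lib.MP_938ce2_ag_H7.OneDegree

/-!
Translation to families in `ℚ / ℤ`.
-/

set_option autoImplicit false
set_option linter.style.haveILetI false
set_option linter.unusedSectionVars false

open Finset

namespace Pool.Agent.Lib.MP_938ce2_ag_H7e

open Pool.Agent.Lib.MP_938ce2_ag_h99 Pool.Agent.Lib.MP_938ce2_ag_H7

variable {m : ℕ} [NeZero m]

/-- the embedding in the circle -/
noncomputable abbrev cc : ZMod m →+ UnitAddCircle := ZMod.toAddCircle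

lemma m_pos : 0 < m := Nat.pos_of_ne_zero (NeZero.ne m)

lemma fr_cc (a : ZMod m) : fr (cc a) = (a.val : ℝ) / m := by
  have hm : (0 : ℝ) < m := by exact_mod_cast m_pos
  have h1 : (a.val : ℝ) < m := by exact_mod_cast ZMod.val_lt a
  rw [cc, ZMod.toAddCircle_apply, fr_coe_of_mem]
  · positivity
  · rwa [div_lt_one hm]

lemma fin_cc (a : ZMod m) : IsOfFinAddOrder (cc a) := by
  rw [isOfFinAddOrder_iff_nsmul_eq_zero]
  refine ⟨m, m_pos, ?_⟩
  rw [← map_nsmul, nsmul_eq_mul, ZMod.natCast_self, zero_mul, map_zero]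

lemma order_cc (a : ZMod m) : addOrderOf (cc a) = addOrderOf a :=
  addOrderOf_injective cc (ZMod.toAddCircle_injective m) a

lemma exists_cc {x : UnitAddCircle} (h : m • x = 0) : ∃ a : ZMod m, cc a = x := by
  have hm : (m : ℝ) ≠ 0 := by exact_mod_cast m_pos.ne'
  have h1 : ((m • fr x : ℝ) : UnitAddCircle) = 0 := by
    rw [AddCircle.coe_nsmul, coe_fr, h]
  rw [AddCircle.coe_eq_zero_iff] at h1
  obtain ⟨k, hk⟩ := h1
  refine ⟨(k : ZMod m), ?_⟩
  rw [cc, ZMod.toAddCircle_intCast]
  conv_rhs => rw [← coe_fr x]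
  congr 1
  rw [zsmul_eq_mul, mul_one, nsmul_eq_mul] at hk
  rw [hk]
  field_simp

/-- the formal sum of a function -/
noncomputable def DD (F : ZMod m → ℤ) : UnitAddCircle →₀ ℤ :=
  ∑ x, F x • Finsupp.single (cc x) 1

lemma DD_add (F G : ZMod m → ℤ) : DD (F + G) = DD F + DD G := by
  unfold DD
  rw [← sum_add_distrib]
  refine sum_congr rfl fun x _ => ?_
  rw [Pi.add_apply, add_smul]

lemma DD_neg (F : ZMod m → ℤ) : DD (-F) = - DD F := by
  unfold DD
  rw [← sum_neg_distrib]
  refine sum_congr rfl fun x _ => ?_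
  rw [Pi.neg_apply, neg_smul]

lemma DD_zero : DD (0 : ZMod m → ℤ) = 0 := by
  unfold DD
  simp

lemma sum_fiber_cc {p : ℕ} (hp : 0 < p) (hpm : p ∣ m) (b0 : ZMod m) :
    ∑ b ∈ univ.filter (fun b : ZMod m => (p : ZMod m) * b = (p : ZMod m) * b0),
      Finsupp.single (cc b) (1 : ℤ) = ∑ j ∈ range p, Finsupp.single (cc b0 + j • pt p) 1 := by
  obtain ⟨l, hl⟩ := hpm
  have hl0 : 0 < l := by
    rcases Nat.eq_zero_or_pos l with h | h
    · have := m_pos (m := m)
      rw [hl, h, mul_zero] at this
      omega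
    · exact h
  have hinj : Set.InjOn (fun j : ℕ => b0 + ((l * j : ℕ) : ZMod m)) (range p : Finset ℕ) := by
    intro k hk k' hk' h
    rw [mem_coe, mem_range] at hk hk'
    have h1 : l * k < m := by
      calc l * k < l * p := Nat.mul_lt_mul_of_pos_left hk hl0
        _ = m := by rw [hl, mul_comm]
    have h2 : l * k' < m := by
      calc l * k' < l * p := Nat.mul_lt_mul_of_pos_left hk' hl0
        _ = m := by rw [hl, mul_comm]
    have h3 := congrArg ZMod.val (add_left_cancel h)
    rw [ZMod.val_natCast_of_lt h1, ZMod.val_natCast_of_lt h2] at h3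
    exact Nat.eq_of_mul_eq_mul_left hl0 h3
  have himg : univ.filter (fun b : ZMod m => (p : ZMod m) * b = (p : ZMod m) * b0)
      = (range p).image (fun j : ℕ => b0 + ((l * j : ℕ) : ZMod m)) := by
    symm
    apply eq_of_subset_of_card_le
    · intro x hx
      obtain ⟨j, _, rfl⟩ := mem_image.mp hx
      rw [mem_filter]
      refine ⟨mem_univ _, ?_⟩
      rw [mul_add, ← Nat.cast_mul]
      have : ((p * (l * j) : ℕ) : ZMod m) = 0 := by
        rw [ZMod.natCast_eq_zero_iff]
        exact ⟨j, by rw [hl]; ring⟩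
      rw [this, add_zero]
    · rw [card_image_of_injOn hinj, card_fiber hp ⟨l, hl⟩, card_range]
  rw [himg, sum_image hinj]
  refine sum_congr rfl fun j _ => ?_
  congr 1
  rw [map_add]
  congr 1
  rw [cc, ZMod.toAddCircle_natCast, pt, ← AddCircle.coe_nsmul]
  congr 1
  have hp' : (p : ℝ) ≠ 0 := by exact_mod_cast hp.ne'
  have hl' : (l : ℝ) ≠ 0 := by exact_mod_cast hl0.ne'
  have hm : (m : ℝ) = p * l := by exact_mod_cast hl
  rw [hm, nsmul_eq_mul]
  push_cast
  field_simp

lemma DD_rel_mem {p : ℕ} (hp : p.Prime) (hpm : p ∣ m) {h : ZMod m → ℤ} (h0 : h 0 = 0)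
    (hs : ∀ a, h a ≠ 0 → ∃ b, a = (p : ZMod m) * b) : DD (rel p h) ∈ Std' := by
  have h1 : DD (rel p h) = ∑ c, h c • (∑ b ∈ univ.filter (fun b : ZMod m => (p : ZMod m) * b = c),
      Finsupp.single (cc b) (1 : ℤ) - Finsupp.single (cc c) 1) := by
    have h2 : ∑ b, h ((p : ZMod m) * b) • Finsupp.single (cc b) (1 : ℤ)
        = ∑ c, h c • ∑ b ∈ univ.filter (fun b : ZMod m => (p : ZMod m) * b = c),
          Finsupp.single (cc b) (1 : ℤ) := by
      rw [← Finset.sum_fiberwise_of_maps_to (s := univ) (t := univ)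
        (g := fun b : ZMod m => (p : ZMod m) * b) (fun _ _ => mem_univ _)]
      refine sum_congr rfl fun c _ => ?_
      rw [smul_sum]
      refine sum_congr rfl fun b hb => ?_
      rw [(mem_filter.mp hb).2]
    simp_rw [smul_sub, sum_sub_distrib]
    rw [← h2, ← sum_sub_distrib]
    unfold DD rel
    refine sum_congr rfl fun b _ => ?_
    rw [sub_smul]
  rw [h1]
  apply Std'.sum_mem
  intro c _
  by_cases hc : h c = 0
  · rw [hc, zero_smul]; exact Std'.zero_mem
  · apply Std'.zsmul_mem
    obtain ⟨b0, rfl⟩ := hs c hc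
    rw [sum_fiber_cc hp.pos hpm]
    have h3 : cc ((p : ZMod m) * b0) = p • cc b0 := by rw [← nsmul_eq_mul, map_nsmul]
    rw [h3]
    apply dist_mem p hp.pos (fin_cc b0)
    rw [← h3]
    intro h4
    have h5 := (ZMod.toAddCircle_eq_zero).mp h4
    rw [h5] at hc
    exact hc h0

lemma val_neg' {a : ZMod m} (ha : a ≠ 0) : (-a).val = m - a.val := by
  haveI : NeZero a := ⟨ha⟩
  exact ZMod.val_neg_of_ne_zero a

lemma half_split {g : ZMod m → ℤ} (hg : OddF g) (a : ZMod m) :
    (if 2 * a.val < m then g a else 0) - (if 2 * (-a).val < m then g (-a) else 0) = g a := by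
  have h0 : g 0 = 0 := by
    have := hg 0
    rw [neg_zero] at this
    omega
  by_cases ha : a = 0
  · rw [ha, neg_zero, h0]; simp
  have h1 := val_neg' ha
  have h2 : a.val < m := ZMod.val_lt a
  rcases lt_trichotomy (2 * a.val) m with h | h | h
  · rw [if_pos h, if_neg (by omega)]; ring
  · have h3 : a = -a := ZMod.val_injective m (by omega)
    have h4 : g a = 0 := by
      have := hg a
      rw [← h3] at this
      omega
    rw [if_neg (by omega), if_neg (by omega), h4]; ring
  · rw [if_neg (by omega), if_pos (by omega), hg]; ring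

/-- lifting of the relations -/
lemma relSub_lift {F : ZMod m → ℤ} (h : F ∈ relSub m) :
    ∃ w : ZMod m → ℤ, (∀ a, F a = w a - w (-a)) ∧ w 0 = 0 ∧ DD w ∈ Std' := by
  unfold relSub at h
  induction h using AddSubgroup.closure_induction with
  | mem x hx =>
    obtain ⟨p, g, hp, hpm, hg, hs, rfl⟩ := hx
    set hh : ZMod m → ℤ := fun a => if 2 * a.val < m then g a else 0 with hhh
    have h0 : g 0 = 0 := by
      have := hg 0
      rw [neg_zero] at this
      omega
    have hh0 : hh 0 = 0 := by
      simp only [hhh]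
      rw [h0]; simp
    have hsplit : ∀ a, hh a - hh (-a) = g a := half_split hg
    refine ⟨rel p hh, ?_, ?_, ?_⟩
    · intro a
      unfold rel
      have h1 := hsplit a
      have h2 := hsplit ((p : ZMod m) * a)
      rw [mul_neg]
      linarith
    · unfold rel
      rw [mul_zero, sub_self]
    · apply DD_rel_mem hp hpm hh0
      intro a ha
      apply hs
      intro h1
      apply ha
      simp only [hhh]
      rw [h1]; simp
  | zero => exact ⟨0, by simp, rfl, by rw [DD_zero]; exact Std'.zero_mem⟩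
  | add x y _ _ hx hy =>
    obtain ⟨v, h1, h2, h3⟩ := hx
    obtain ⟨w, h4, h5, h6⟩ := hy
    refine ⟨v + w, ?_, ?_, ?_⟩
    · intro a
      simp only [Pi.add_apply]
      rw [h1, h4]; ring
    · rw [Pi.add_apply, h2, h5, add_zero]
    · rw [DD_add]; exact Std'.add_mem h3 h6
  | neg x _ hx =>
    obtain ⟨v, h1, h2, h3⟩ := hx
    refine ⟨-v, ?_, ?_, ?_⟩
    · intro a
      simp only [Pi.neg_apply]
      rw [h1]; ring
    · rw [Pi.neg_apply, h2, neg_zero]
    · rw [DD_neg]; exact Std'.neg_mem h3

/-- even functions -/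
lemma even_mem {u : ZMod m → ℤ} (he : ∀ a, u (-a) = u a) (h0 : u 0 = 0) : DD u ∈ Std' := by
  set u1 : ZMod m → ℤ := fun a => if 2 * a.val < m then u a else 0 with hu1
  set u2 : ZMod m → ℤ := fun a => if 2 * a.val = m then u a else 0 with hu2
  have hsplit : ∀ a, u a = u1 a + u1 (-a) + u2 a := by
    intro a
    simp only [hu1, hu2]
    by_cases ha : a = 0
    · rw [ha, neg_zero, h0]; simp
    have h1 := val_neg' ha
    have h2 : a.val < m := ZMod.val_lt a
    rw [he]
    rcases lt_trichotomy (2 * a.val) m with h | h | h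
    · rw [if_pos h, if_neg (by omega), if_neg (by omega)]; ring
    · rw [if_neg (by omega), if_neg (by omega), if_pos h]; ring
    · rw [if_neg (by omega), if_pos (by omega), if_neg (by omega)]; ring
  have h1 : DD u = ∑ a, u1 a • (Finsupp.single (cc a) (1 : ℤ) + Finsupp.single (-cc a) 1)
      + ∑ a, u2 a • Finsupp.single (cc a) (1 : ℤ) := by
    have h2 : ∑ a, u1 (-a) • Finsupp.single (cc a) (1 : ℤ)
        = ∑ a, u1 a • Finsupp.single (-cc a) (1 : ℤ) := by
      refine Fintype.sum_equiv (Equiv.neg _) _ _ fun a => ?_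
      rw [Equiv.neg_apply, map_neg, neg_neg]
    simp_rw [smul_add, sum_add_distrib]
    rw [← h2, ← sum_add_distrib, ← sum_add_distrib]
    unfold DD
    refine sum_congr rfl fun a _ => ?_
    rw [hsplit a, add_smul, add_smul]
  rw [h1]
  apply Std'.add_mem
  · apply Std'.sum_mem
    intro a _
    by_cases ha : a = 0
    · have : u1 a = 0 := by
        simp only [hu1]
        rw [ha, h0]; simp
      rw [this, zero_smul]; exact Std'.zero_mem
    · apply Std'.zsmul_mem
      exact refl_mem (fin_cc a) (fun h => ha ((ZMod.toAddCircle_eq_zero).mp h))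
  · apply Std'.sum_mem
    intro a _
    by_cases ha : 2 * a.val = m
    · apply Std'.zsmul_mem
      have : cc a = pt 2 := by
        rw [cc, ZMod.toAddCircle_apply, pt]
        congr 1
        have hm : (m : ℝ) = 2 * (a.val : ℝ) := by exact_mod_cast ha.symm
        have h3 : (a.val : ℝ) ≠ 0 := by
          intro h4
          rw [h4, mul_zero] at hm
          have := m_pos (m := m)
          have h5 : (0 : ℝ) < m := by exact_mod_cast this
          linarith
        rw [hm]
        push_cast
        field_simp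
      rw [this]
      exact half_mem
    · have : u2 a = 0 := by
        simp only [hu2]
        rw [if_neg ha]
      rw [this, zero_smul]; exact Std'.zero_mem

/-- from the odd part to the family -/
lemma family_mem {N : ℕ} {α : Fin N → ZMod m} (hα : ∀ i, α i ≠ 0) {J : Finset (Fin N)}
    (h : FJ α J ∈ relSub m) : ∑ i ∈ J, Finsupp.single (cc (α i)) 1 ∈ Std' := by
  classical
  obtain ⟨w, h1, h2, h3⟩ := relSub_lift h
  set δ : ZMod m → ℤ := fun x => ∑ i ∈ J, if x = α i then 1 else 0 with hδ
  have hFJ : ∀ x, FJ α J x = δ x - δ (-x) := by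
    intro x
    unfold FJ
    simp only [hδ]
    rw [← sum_sub_distrib]
    refine sum_congr rfl fun i _ => ?_
    have h4 : (-x = α i) ↔ (x = -α i) := by
      constructor
      · intro h; rw [← h, neg_neg]
      · intro h; rw [h, neg_neg]
    simp only [h4]
  have h4 : DD (δ - w) ∈ Std' := by
    apply even_mem
    · intro a
      have h5 := hFJ a
      have h6 := h1 a
      simp only [Pi.sub_apply]
      linarith
    · simp only [Pi.sub_apply, h2, sub_zero, hδ]
      apply sum_eq_zero
      intro i _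
      rw [if_neg (fun h => hα i h.symm)]
  have h5 : DD δ = ∑ i ∈ J, Finsupp.single (cc (α i)) 1 := by
    unfold DD
    simp only [hδ, sum_smul]
    rw [sum_comm]
    refine sum_congr rfl fun i _ => ?_
    simp [ite_smul]
  rw [← h5, show δ = (δ - w) + w by abel, DD_add]
  exact Std'.add_mem h4 h3

end Pool.Agent.Lib.MP_938ce2_ag_H7e
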