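import Pool.Agent.Lib.MP_938ce2_ag_H7e.Peel2

/-!
Pushing up to the top level at `q`, and averaging over cosets.
-/

set_option autoImplicit false
set_option linter.style.haveILetI false
set_option linter.unusedSectionVars false

open Finset

namespace Pool.Agent.Lib.MP_938ce2_ag_H7e

open Pool.Agent.Lib.MP_938ce2_ag_h99

variable {m Q n q : ℕ} [NeZero m]

lemma order_pos (a : ZMod m) : 0 < addOrderOf a :=
  Nat.pos_of_dvd_of_pos (addOrderOf_dvd_m a) (Nat.pos_of_ne_zero (NeZero.ne m))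

lemma exists_of_not_dvd (hD : Dat m Q n q) {a : ZMod m} (h : ¬ Q ∣ addOrderOf a) :
    ∃ b, a = (q : ZMod m) * b := by
  rw [exists_mul_iff (hD.qQ.trans hD.Qm)]
  by_contra hq
  apply h
  have h1 : addOrderOf a • a = 0 := addOrderOf_nsmul_eq_zero a
  rw [nsmul_eq_mul, ← ZMod.natCast_zmod_val a, ← Nat.cast_mul, ZMod.natCast_eq_zero_iff,
    ZMod.natCast_zmod_val] at h1
  have h2 : Q ∣ addOrderOf a * a.val := hD.Qm.trans h1
  have h3 : Nat.Coprime Q a.val := by
    obtain ⟨K, _, hK⟩ := hD.hQ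
    rw [hK]
    exact Nat.Coprime.pow_left _ ((Nat.Prime.coprime_iff_not_dvd hD.hq).mpr hq)
  exact h3.dvd_of_dvd_mul_right h2

lemma coprime_val (hD : Dat m Q n q) {b : ZMod m} (h : Q ∣ addOrderOf b) :
    Nat.Coprime Q b.val := by
  obtain ⟨K, _, hK⟩ := hD.hQ
  rw [hK]
  apply Nat.Coprime.pow_left
  rw [Nat.Prime.coprime_iff_not_dvd hD.hq]
  intro hq
  obtain ⟨b', hb'⟩ := (exists_mul_iff (hD.qQ.trans hD.Qm) b).mpr hq
  have hqb : q ∣ addOrderOf b := hD.qQ.trans h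
  have h1 : addOrderOf b' = q * addOrderOf b := by
    rcases order_of_mul hD.hq (b := b') (e := addOrderOf b) (by rw [hb']) with h2 | h2
    · exfalso
      have h3 : q ∣ addOrderOf b' := by rw [h2]; exact hqb
      have h4 := addOrderOf_natCast_mul hD.hq.ne_zero h3
      rw [← hb', ← h2] at h4
      have h5 := Nat.div_lt_self (order_pos b') hD.hq.one_lt
      omega
    · exact h2
  have h2 : q * Q ∣ m := by
    have h3 : q * Q ∣ addOrderOf b' := by
      rw [h1]; exact mul_dvd_mul_left q h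
    exact h3.trans (addOrderOf_dvd_m b')
  rw [hD.hm, mul_comm q Q] at h2
  have h3 : q ∣ n := Nat.dvd_of_mul_dvd_mul_left hD.Qpos h2
  have h4 : q ∣ 1 := by
    have := Nat.dvd_gcd hD.qQ h3
    rwa [hD.hcop.gcd_eq_one] at this
  exact hD.hq.one_lt.ne' (Nat.dvd_one.mp h4)

lemma card_fiber {p : ℕ} (hp : 0 < p) (hpm : p ∣ m) (b0 : ZMod m) :
    (univ.filter (fun b : ZMod m => (p : ZMod m) * b = (p : ZMod m) * b0)).card = p := by
  refine Eq.trans ?_ (card_ker hp hpm)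
  refine card_bij' (fun b _ => b - b0) (fun b _ => b + b0) ?_ ?_ ?_ ?_
  · intro b hb
    simp only [mem_filter, mem_univ, true_and] at hb ⊢
    rw [mul_sub, hb, sub_self]
  · intro b hb
    simp only [mem_filter, mem_univ, true_and] at hb ⊢
    rw [mul_add, hb, zero_add]
  · intro b _; ring
  · intro b _; ring

lemma sum_comp_mul_le {p : ℕ} (hp : 0 < p) (hpm : p ∣ m) (g : ZMod m → ℤ) :
    ∑ b, |g ((p : ZMod m) * b)| ≤ p * ∑ a, |g a| := by
  have h1 : ∑ b, |g ((p : ZMod m) * b)|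
      = ∑ c, ((univ.filter (fun b : ZMod m => (p : ZMod m) * b = c)).card : ℤ) * |g c| := by
    rw [← Finset.sum_fiberwise_of_maps_to (s := univ) (t := univ)
      (g := fun b : ZMod m => (p : ZMod m) * b) (fun _ _ => mem_univ _)]
    refine sum_congr rfl fun c _ => ?_
    rw [← nsmul_eq_mul, ← sum_const]
    refine sum_congr rfl fun b hb => ?_
    rw [(mem_filter.mp hb).2]
  rw [h1, mul_sum]
  refine sum_le_sum fun c _ => ?_
  apply mul_le_mul_of_nonneg_right _ (abs_nonneg _)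
  by_cases h : ∃ b0, (p : ZMod m) * b0 = c
  · obtain ⟨b0, rfl⟩ := h
    rw [card_fiber hp hpm]
  · rw [filter_eq_empty_iff.mpr]
    · simp
    · intro b _ hb
      exact h ⟨b, hb⟩

/-- one step up -/
lemma up_step (hD : Dat m Q n q) {j : ℕ} (hj : 1 ≤ j) (hjQ : ∀ a : ZMod m, ¬ q ^ (j + 1) ∣ addOrderOf a →
    ¬ Q ∣ addOrderOf a) {F : ZMod m → ℤ} (hodd : OddF F)
    (hsupp : ∀ a, F a ≠ 0 → q ^ j ∣ addOrderOf a) :
    ∃ F' : ZMod m → ℤ, OddF F' ∧ (∀ a, F' a ≠ 0 → q ^ (j + 1) ∣ addOrderOf a) ∧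
      F' - F ∈ relSub m ∧ ∑ a, |F' a| ≤ q * ∑ a, |F a| := by
  classical
  set g : ZMod m → ℤ := fun a => if q ^ (j + 1) ∣ addOrderOf a then 0 else F a with hg
  have hgodd : OddF g := by
    intro a
    simp only [hg]
    rw [addOrderOf_neg]
    split_ifs
    · simp
    · exact hodd a
  have hqm : q ∣ m := hD.qQ.trans hD.Qm
  refine ⟨F + rel q g, ?_, ?_, ?_, ?_⟩
  · intro a
    have h1 := hodd a
    have h2 := hgodd.rel q a
    rw [Pi.add_apply, Pi.add_apply, h1, h2]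
    ring
  · intro b hb
    by_contra hnd
    have hgb : g b = F b := by simp only [hg]; rw [if_neg hnd]
    have h1 : g ((q : ZMod m) * b) ≠ 0 := by
      intro h0
      apply hb
      rw [Pi.add_apply]
      unfold rel
      rw [h0, hgb]
      ring
    have h2 : ¬ q ^ (j + 1) ∣ addOrderOf ((q : ZMod m) * b) := by
      intro h
      apply h1
      simp only [hg]
      rw [if_pos h]
    have h3 : F ((q : ZMod m) * b) ≠ 0 := by
      simp only [hg] at h1
      rwa [if_neg h2] at h1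
    have h4 := hsupp _ h3
    rcases order_of_mul hD.hq (b := b) rfl with h5 | h5
    · have h6 : q ∣ addOrderOf b := by
        rw [h5]
        exact (dvd_pow_self q (by omega)).trans h4
      have h7 := addOrderOf_natCast_mul hD.hq.ne_zero h6
      rw [← h5] at h7
      have h8 := Nat.div_lt_self (order_pos b) hD.hq.one_lt
      omega
    · apply hnd
      rw [h5, pow_succ']
      exact mul_dvd_mul_left q h4
  · rw [add_sub_cancel_left]
    apply AddSubgroup.subset_closure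
    refine ⟨q, g, hD.hq, hqm, hgodd, ?_, rfl⟩
    intro a ha
    apply exists_of_not_dvd hD
    apply hjQ
    intro h
    apply ha
    simp only [hg]
    rw [if_pos h]
  · have h1 : ∀ b, |(F + rel q g) b| ≤ (|F b| - |g b|) + |g ((q : ZMod m) * b)| := by
      intro b
      have h2 : (F + rel q g) b = (F b - g b) + g ((q : ZMod m) * b) := by
        rw [Pi.add_apply]
        unfold rel
        ring
      rw [h2]
      refine (abs_add_le _ _).trans ?_
      gcongr
      simp only [hg]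
      split_ifs
      · simp
      · simp
    have h3 := sum_comp_mul_le hD.hq.pos hqm g
    have h4 : ∑ b, |g b| ≤ ∑ b, |F b| := by
      refine sum_le_sum fun b _ => ?_
      simp only [hg]
      split_ifs
      · simp
      · exact le_refl _
    have h5 : ∑ b, |(F + rel q g) b| ≤ ∑ b, |F b| - ∑ b, |g b| + ∑ b, |g ((q : ZMod m) * b)| := by
      rw [← sum_sub_distrib, ← sum_add_distrib]
      exact sum_le_sum fun b _ => h1 b
    have h6 : (1 : ℤ) ≤ q := by exact_mod_cast hD.hq.one_lt.le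
    nlinarith

theorem push_up (hD : Dat m Q n q) {K : ℕ} (hQ : Q = q ^ K) : ∀ (d j : ℕ), j + d = K → 1 ≤ j →
    ∀ F : ZMod m → ℤ, OddF F → (∀ a, F a ≠ 0 → q ^ j ∣ addOrderOf a) →
    ∃ F' : ZMod m → ℤ, OddF F' ∧ (∀ a, F' a ≠ 0 → Q ∣ addOrderOf a) ∧
      F' - F ∈ relSub m ∧ ∑ a, |F' a| ≤ q ^ d * ∑ a, |F a| := by
  intro d
  induction d with
  | zero =>
    intro j hj _ F hodd hsupp
    refine ⟨F, hodd, ?_, ?_, ?_⟩
    · rw [add_zero] at hj
      rw [hQ, ← hj]; exact hsupp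
    · rw [sub_self]; exact (relSub m).zero_mem
    · simp
  | succ d ih =>
    intro j hj hj1 F hodd hsupp
    obtain ⟨F1, h1, h2, h3, h4⟩ := up_step hD hj1 (fun a ha hc => by
      apply ha
      refine dvd_trans ?_ hc
      rw [hQ]
      exact pow_dvd_pow q (by omega)) hodd hsupp
    obtain ⟨F2, g1, g2, g3, g4⟩ := ih (j + 1) (by omega) (by omega) F1 h1 h2
    refine ⟨F2, g1, g2, ?_, ?_⟩
    · have := (relSub m).add_mem g3 h3
      convert this using 1
      abel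
    · have h5 : (0 : ℤ) ≤ q ^ d := by positivity
      calc ∑ a, |F2 a| ≤ q ^ d * ∑ a, |F1 a| := g4
        _ ≤ q ^ d * (q * ∑ a, |F a|) := mul_le_mul_of_nonneg_left h4 h5
        _ = q ^ (d + 1) * ∑ a, |F a| := by ring

/-! ### averaging -/

lemma card_Kp_pow (hD : Dat m Q n q) {k0 d : ℕ} (hk : 1 ≤ k0) (hQ : Q = q ^ (k0 + d)) :
    Nat.card (Kp m (q ^ d)) = q ^ d := by
  have hdm : q ^ d ∣ m := by
    refine dvd_trans ?_ hD.Qm
    rw [hQ]; exact pow_dvd_pow q (by omega)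
  have h1 := card_Kp_mul (f := m) hdm
  have h2 : m / q ^ d = q ^ k0 * n := by
    apply Nat.div_eq_of_eq_mul_right (pow_pos hD.hq.pos d)
    rw [hD.hm, hQ, pow_add]; ring
  have hqn : Nat.Coprime q n := Nat.Coprime.coprime_dvd_left hD.qQ hD.hcop
  obtain ⟨k, rfl⟩ : ∃ k, k0 = k + 1 := ⟨k0 - 1, by omega⟩
  have h3 : (m / q ^ d).totient = q ^ k * (q - 1) * n.totient := by
    rw [h2, Nat.totient_mul (hqn.pow_left _), Nat.totient_prime_pow_succ hD.hq]
  have h4 : m.totient = q ^ d * (q ^ k * (q - 1) * n.totient) := by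
    rw [hD.hm, Nat.totient_mul hD.hcop, hQ, show k + 1 + d = (k + d) + 1 by ring,
      Nat.totient_prime_pow_succ hD.hq, pow_add]
    ring
  rw [h3, h4] at h1
  have h5 : 0 < q ^ k * (q - 1) * n.totient := by
    have := hD.hq.one_lt
    have h6 := Nat.totient_pos.mpr (Nat.pos_of_ne_zero hD.hn)
    have h7 := pow_pos hD.hq.pos k
    have h8 : 0 < q - 1 := by omega
    positivity
  exact Nat.eq_of_mul_eq_mul_right h5 h1

lemma card_filter_Kp (hD : Dat m Q n q) {k0 d : ℕ} (hk : 1 ≤ k0) (hQ : Q = q ^ (k0 + d))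
    [DecidablePred (· ∈ Kp m (q ^ d))] :
    (univ.filter (fun u : (ZMod m)ˣ => u ∈ Kp m (q ^ d))).card = q ^ d := by
  refine Eq.trans ?_ (card_Kp_pow hD hk hQ)
  rw [Nat.card_eq_fintype_card]
  exact (Fintype.card_subtype _).symm

lemma coset_inj (hD : Dat m Q n q) {c : ℕ} (hc : c ∣ Q) {b : ZMod m} (hb : Q ∣ addOrderOf b)
    {u v : (ZMod m)ˣ} (hu : u ∈ Kp m c) (hv : v ∈ Kp m c)
    (huv : (u : ZMod m) * b = (v : ZMod m) * b) : u = v := by
  rw [mem_Kp] at hu hv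
  set w : ZMod m := (u : ZMod m) - v with hw
  have h1 : w * b = 0 := by rw [hw, sub_mul, huv, sub_self]
  have h2 : w * (c : ZMod m) = 0 := by rw [hw, sub_mul, hu, hv, sub_self]
  rw [← ZMod.natCast_zmod_val w, ← ZMod.natCast_zmod_val b, ← Nat.cast_mul,
    ZMod.natCast_eq_zero_iff] at h1
  rw [← ZMod.natCast_zmod_val w, ← Nat.cast_mul, ZMod.natCast_eq_zero_iff] at h2
  have h3 : Q ∣ w.val := (coprime_val hD hb).dvd_of_dvd_mul_right (hD.Qm.trans h1)
  have h4 : n ∣ w.val := by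
    have h5 : Nat.Coprime n c := (Nat.Coprime.coprime_dvd_left hc hD.hcop).symm
    exact h5.dvd_of_dvd_mul_right (hD.nm.trans h2)
  have h5 : m ∣ w.val := by
    have := Nat.Coprime.mul_dvd_of_dvd_of_dvd hD.hcop h3 h4
    rwa [← hD.hm] at this
  have h6 : w = 0 := by
    rw [← ZMod.natCast_zmod_val w, ZMod.natCast_eq_zero_iff]; exact h5
  exact Units.ext (sub_eq_zero.mp h6)

lemma sum_coset (hD : Dat m Q n q) {k0 d : ℕ} (hk : 1 ≤ k0) (hQ : Q = q ^ (k0 + d))
    {b : ZMod m} (hb : Q ∣ addOrderOf b) (f : ZMod m → ℤ) [DecidablePred (· ∈ Kp m (q ^ d))] :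
    ∑ u ∈ univ.filter (fun u : (ZMod m)ˣ => u ∈ Kp m (q ^ d)), f ((u : ZMod m) * b)
      = ∑ b' ∈ univ.filter (fun b' : ZMod m => ((q ^ d : ℕ) : ZMod m) * b'
          = ((q ^ d : ℕ) : ZMod m) * b), f b' := by
  have hdQ : q ^ d ∣ Q := by rw [hQ]; exact pow_dvd_pow q (by omega)
  have hinj : Set.InjOn (fun u : (ZMod m)ˣ => (u : ZMod m) * b)
      (univ.filter (fun u : (ZMod m)ˣ => u ∈ Kp m (q ^ d)) : Finset (ZMod m)ˣ) := by
    intro u hu v hv huv
    rw [mem_coe, mem_filter] at hu hv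
    exact coset_inj hD hdQ hb hu.2 hv.2 huv
  have hcard := card_filter_Kp hD hk hQ
  have himg : univ.filter (fun b' : ZMod m => ((q ^ d : ℕ) : ZMod m) * b'
          = ((q ^ d : ℕ) : ZMod m) * b)
      = (univ.filter (fun u : (ZMod m)ˣ => u ∈ Kp m (q ^ d))).image
        (fun u : (ZMod m)ˣ => (u : ZMod m) * b) := by
    symm
    apply eq_of_subset_of_card_le
    · intro x hx
      obtain ⟨u, hu, rfl⟩ := mem_image.mp hx
      rw [mem_filter] at hu ⊢
      refine ⟨mem_univ _, ?_⟩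
      have h1 : (u : ZMod m) * ((q ^ d : ℕ) : ZMod m) = ((q ^ d : ℕ) : ZMod m) := hu.2
      rw [← mul_assoc, mul_comm _ (u : ZMod m), h1]
    · rw [card_image_of_injOn hinj, hcard, card_fiber (pow_pos hD.hq.pos d) (hdQ.trans hD.Qm)]
  rw [himg, sum_image hinj]

theorem avg_bound (hD : Dat m Q n q) {k0 d : ℕ} (hk : 1 ≤ k0) (hQ : Q = q ^ (k0 + d))
    {F : ZMod m → ℤ} (hodd : OddF F) (hsupp : ∀ a, F a ≠ 0 → Q ∣ addOrderOf a)
    (hinv : ∀ u ∈ Kp m (q ^ d), ∀ t : (ZMod m)ˣ, SS F (u * t) = SS F t) (t : (ZMod m)ˣ) :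
    2 * q ^ d * |SS F t| ≤ m * ∑ a, |F a| := by
  classical
  have hdQ : q ^ d ∣ Q := by rw [hQ]; exact pow_dvd_pow q (by omega)
  have hcard := card_filter_Kp hD hk hQ
  have h1 : ∑ u ∈ univ.filter (fun u : (ZMod m)ˣ => u ∈ Kp m (q ^ d)), SS F (u * t)
      = q ^ d * SS F t := by
    rw [sum_congr rfl fun u hu => hinv u (mem_filter.mp hu).2 t, sum_const, hcard, nsmul_eq_mul]
    push_cast
    ring
  have h2 : ∀ a, F a * (2 * ∑ u ∈ univ.filter (fun u : (ZMod m)ˣ => u ∈ Kp m (q ^ d)),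
      ((((u * t : (ZMod m)ˣ) : ZMod m) * a).val : ℤ))
      = F a * (2 * ((((q ^ d : ℕ) : ZMod m) * ((t : ZMod m) * a)).val : ℤ) - m)
        + (q ^ d * m) * F a := by
    intro a
    by_cases ha : F a = 0
    · rw [ha]; ring
    have hb : Q ∣ addOrderOf ((t : ZMod m) * a) := by
      rw [addOrderOf_unit_mul]; exact hsupp a ha
    have h3 := sum_coset hD hk hQ hb (fun b => (b.val : ℤ))
    have h4 := fiber_val (pow_pos hD.hq.pos d) (hdQ.trans hD.Qm) ((t : ZMod m) * a)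
    have h5 : ∑ u ∈ univ.filter (fun u : (ZMod m)ˣ => u ∈ Kp m (q ^ d)),
      ((((u * t : (ZMod m)ˣ) : ZMod m) * a).val : ℤ)
      = ∑ u ∈ univ.filter (fun u : (ZMod m)ˣ => u ∈ Kp m (q ^ d)),
      (((u : ZMod m) * ((t : ZMod m) * a)).val : ℤ) := by
      refine sum_congr rfl fun u _ => ?_
      rw [Units.val_mul, mul_assoc]
    rw [h5, h3, h4]
    push_cast
    ring
  have h3 : 2 * (q ^ d * SS F t)
      = ∑ a, F a * (2 * ((((q ^ d : ℕ) : ZMod m) * ((t : ZMod m) * a)).val : ℤ) - m) := by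
    rw [← h1]
    unfold SS
    rw [sum_comm, mul_sum]
    have h4 : ∑ a, (q ^ d * m : ℤ) * F a = 0 := by
      rw [← mul_sum, hodd.sum_eq_zero, mul_zero]
    rw [← add_zero (∑ a, F a * (2 * ((((q ^ d : ℕ) : ZMod m) * ((t : ZMod m) * a)).val : ℤ) - m)),
      ← h4, ← sum_add_distrib]
    refine sum_congr rfl fun a _ => ?_
    rw [← h2 a, ← mul_sum]
    ring
  have h4 : |∑ a, F a * (2 * ((((q ^ d : ℕ) : ZMod m) * ((t : ZMod m) * a)).val : ℤ) - m)|
      ≤ m * ∑ a, |F a| := by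
    rw [mul_sum]
    refine (abs_sum_le_sum_abs _ _).trans (sum_le_sum fun a _ => ?_)
    rw [abs_mul, mul_comm]
    apply mul_le_mul_of_nonneg_right _ (abs_nonneg _)
    have h5 : (((((q ^ d : ℕ) : ZMod m) * ((t : ZMod m) * a)).val : ℕ) : ℤ) < m := by
      exact_mod_cast ZMod.val_lt _
    have h6 : (0 : ℤ) ≤ (((((q ^ d : ℕ) : ZMod m) * ((t : ZMod m) * a)).val : ℕ) : ℤ) :=
      Int.natCast_nonneg _
    rw [abs_le]
    constructor <;> linarith
  rw [← h3] at h4
  have h5 : |2 * ((q : ℤ) ^ d * SS F t)| = 2 * q ^ d * |SS F t| := by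
    rw [abs_mul, abs_mul, abs_of_nonneg (by positivity : (0 : ℤ) ≤ (q : ℤ) ^ d),
      abs_of_pos (by norm_num : (0 : ℤ) < 2)]
    ring
  rw [← h5]
  exact h4

end Pool.Agent.Lib.MP_938ce2_ag_H7e
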