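import Pool.Agent.Lib.MP_938ce2_ag_H7e.SplitQ

/-!
Choice of the windows, and the reduction at a fixed level.
-/

set_option autoImplicit false
set_option linter.style.haveILetI false
set_option linter.unusedSectionVars false

open Finset

namespace Pool.Agent.Lib.MP_938ce2_ag_H7e

open Pool.Agent.Lib.MP_938ce2_ag_h99

/-- the degree: the product of the `p ^ (N * log_p (12 N))` over the primes `p ≤ 6 N + 1` -/
def MM (N : ℕ) : ℕ :=
  ∏ p ∈ (Finset.range (6 * N + 2)).filter Nat.Prime, p ^ (N * Nat.log p (12 * N))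

lemma MM_pos (N : ℕ) : 0 < MM N :=
  Finset.prod_pos fun _ hp => pow_pos ((mem_filter.mp hp).2.pos) _

lemma pow_dvd_MM {q N s j : ℕ} (hq : q.Prime) (hqN : q ≤ 6 * N + 1) (hs : s ≤ N)
    (hj : q ^ j ≤ 12 * N) : q ^ (s * j) ∣ MM N := by
  have h1 : q ∈ (Finset.range (6 * N + 2)).filter Nat.Prime := by
    rw [mem_filter, mem_range]
    exact ⟨by omega, hq⟩
  have h2 : j ≤ Nat.log q (12 * N) := Nat.le_log_of_pow_le hq.one_lt hj
  exact (pow_dvd_pow q (Nat.mul_le_mul hs h2)).trans
    (Finset.dvd_prod_of_mem (fun p => p ^ (N * Nat.log p (12 * N))) h1)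

lemma window {q N : ℕ} (hq : q.Prime) (hN : 0 < N) (v : Fin N → ℕ) :
    ∃ k0 e, 1 ≤ e ∧ 6 * N < (q ^ e).totient ∧ (∀ i, v i ≤ k0 ∨ k0 + e ≤ v i) ∧
      q ^ k0 ∣ MM N := by
  classical
  have hex : ∃ e, 6 * N < (q ^ e).totient := by
    refine ⟨6 * N + 1, ?_⟩
    rw [Nat.totient_prime_pow_succ hq]
    have h1 : 6 * N < 2 ^ (6 * N) := Nat.lt_two_pow_self
    have h2 : 2 ^ (6 * N) ≤ q ^ (6 * N) := Nat.pow_le_pow_left hq.two_le _
    have h3 : 1 ≤ q - 1 := by have := hq.two_le; omega
    calc 6 * N < q ^ (6 * N) := lt_of_lt_of_le h1 h2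
      _ ≤ q ^ (6 * N) * (q - 1) := Nat.le_mul_of_pos_right _ h3
  set e := Nat.find hex with he
  have he1 : 6 * N < (q ^ e).totient := Nat.find_spec hex
  have hmin : ∀ j, j < e → (q ^ j).totient ≤ 6 * N := fun j hj => by
    have := Nat.find_min hex hj
    omega
  have he0 : 1 ≤ e := by
    rcases Nat.eq_zero_or_pos e with h | h
    · rw [h, pow_zero, Nat.totient_one] at he1
      omega
    · exact h
  rcases Nat.eq_or_lt_of_le he0 with h1 | h1
  · refine ⟨0, e, he0, he1, fun i => ?_, by rw [pow_zero]; exact one_dvd _⟩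
    omega
  · obtain ⟨j, hj⟩ : ∃ j, e = j + 2 := ⟨e - 2, by omega⟩
    have h2 : q ^ (j + 1) ≤ 12 * N := by
      have h3 := hmin (j + 1) (by omega)
      rw [Nat.totient_prime_pow_succ hq] at h3
      have h4 : q ≤ 2 * (q - 1) := by have := hq.two_le; omega
      calc q ^ (j + 1) = q ^ j * q := pow_succ _ _
        _ ≤ q ^ j * (2 * (q - 1)) := Nat.mul_le_mul_left _ h4
        _ = 2 * (q ^ j * (q - 1)) := by ring
        _ ≤ 2 * (6 * N) := Nat.mul_le_mul_left _ h3
        _ = 12 * N := by ring
    -- pigeonhole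
    have hpig : ∃ s : Fin (N + 1), ∀ i, v i ≤ (s : ℕ) * (j + 1) ∨ (s : ℕ) * (j + 1) + e ≤ v i := by
      by_contra hcon
      push Not at hcon
      choose i hi using hcon
      have hinj : Function.Injective i := by
        intro s s' hss
        have h3 : ∀ s : Fin (N + 1), (v (i s) - 1) / (j + 1) = s := by
          intro s
          obtain ⟨h4, h5⟩ := hi s
          rw [Nat.div_eq_iff (by omega)]
          constructor
          · omega
          · rw [hj] at h5
            have : (s : ℕ) * (j + 1) + (j + 1) - 1 = (s : ℕ) * (j + 1) + j := by omega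
            omega
        apply Fin.ext
        rw [← h3 s, ← h3 s', hss]
      have := Fintype.card_le_of_injective i hinj
      simp only [Fintype.card_fin] at this
      omega
    obtain ⟨s, hs⟩ := hpig
    refine ⟨(s : ℕ) * (j + 1), e, he0, he1, hs, ?_⟩
    have hq1 : q ≤ 6 * N + 1 := by
      have h3 := hmin 1 (by omega)
      rw [pow_one, Nat.totient_prime hq] at h3
      omega
    exact pow_dvd_MM hq hq1 (Nat.lt_succ_iff.mp s.2) h2

section FJ

variable {m N : ℕ} [NeZero m]

/-- the odd part of a family -/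
def FJ (α : Fin N → ZMod m) (J : Finset (Fin N)) : ZMod m → ℤ := fun x =>
  ∑ i ∈ J, ((if x = α i then 1 else 0) - (if x = -α i then 1 else 0))

lemma FJ_odd (α : Fin N → ZMod m) (J : Finset (Fin N)) : OddF (FJ α J) := by
  intro x
  unfold FJ
  rw [← sum_neg_distrib]
  refine sum_congr rfl fun i _ => ?_
  have h1 : (-x = α i) ↔ (x = -α i) := by
    constructor
    · intro h; rw [← h, neg_neg]
    · intro h; rw [h, neg_neg]
  have h2 : (-x = -α i) ↔ (x = α i) := neg_inj
  simp only [h1, h2]
  ring

lemma FJ_add (α : Fin N → ZMod m) {J J1 J2 : Finset (Fin N)} (hd : Disjoint J1 J2)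
    (h : J = J1 ∪ J2) : FJ α J = FJ α J1 + FJ α J2 := by
  funext x
  rw [h, Pi.add_apply]
  unfold FJ
  rw [sum_union hd]

lemma FJ_ne {α : Fin N → ZMod m} {J : Finset (Fin N)} {x : ZMod m} (h : FJ α J x ≠ 0) :
    ∃ i ∈ J, addOrderOf x = addOrderOf (α i) := by
  obtain ⟨i, hi, h1⟩ := exists_ne_zero_of_sum_ne_zero h
  refine ⟨i, hi, ?_⟩
  by_cases h2 : x = α i
  · rw [h2]
  · by_cases h3 : x = -α i
    · rw [h3, addOrderOf_neg]
    · rw [if_neg h2, if_neg h3] at h1
      simp at h1

lemma FJ_norm (α : Fin N → ZMod m) (J : Finset (Fin N)) : ∑ x, |FJ α J x| ≤ 2 * N := by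
  calc ∑ x, |FJ α J x| ≤ ∑ x, ∑ i ∈ J, (((if x = α i then 1 else 0) : ℤ)
        + (if x = -α i then 1 else 0)) := by
        refine sum_le_sum fun x _ => ?_
        refine (abs_sum_le_sum_abs _ _).trans (sum_le_sum fun i _ => ?_)
        split_ifs <;> simp
    _ = ∑ i ∈ J, (2 : ℤ) := by
        rw [sum_comm]
        refine sum_congr rfl fun i _ => ?_
        rw [sum_add_distrib]
        simp
    _ = 2 * J.card := by rw [sum_const, nsmul_eq_mul]; ring
    _ ≤ 2 * N := by
        have : J.card ≤ N := by
          have := Finset.card_le_univ J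
          simpa using this
        have h2 : (J.card : ℤ) ≤ N := by exact_mod_cast this
        linarith

lemma SS_FJ (α : Fin N → ZMod m) (J : Finset (Fin N)) (t : (ZMod m)ˣ) :
    SS (FJ α J) t = ∑ i ∈ J, ((((t : ZMod m) * α i).val : ℤ) - (((t : ZMod m) * -α i).val : ℤ)) := by
  unfold SS FJ
  simp_rw [sum_mul]
  rw [sum_comm]
  refine sum_congr rfl fun i _ => ?_
  simp only [sub_mul, ite_mul, one_mul, zero_mul, sum_sub_distrib]
  simp

/-- Reduction at a fixed level. -/
theorem reduce_level (hN : 0 < N) (α : Fin N → ZMod m) (hT : TateF (FJ α univ)) :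
    ∃ J : Finset (Fin N), (∀ i ∈ J, addOrderOf (α i) ∣ MM N) ∧ FJ α Jᶜ ∈ relSub m := by
  classical
  have hm0 : m ≠ 0 := NeZero.ne m
  have hw : ∀ q : ℕ, ∃ k0 e, q.Prime → (1 ≤ e ∧ 6 * N < (q ^ e).totient ∧
      (∀ i, (addOrderOf (α i)).factorization q ≤ k0 ∨
        k0 + e ≤ (addOrderOf (α i)).factorization q) ∧ q ^ k0 ∣ MM N) := by
    intro q
    by_cases hq : q.Prime
    · obtain ⟨k0, e, h⟩ := window hq hN (fun i => (addOrderOf (α i)).factorization q)
      exact ⟨k0, e, fun _ => h⟩
    · exact ⟨0, 0, fun h => absurd h hq⟩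
  choose k0 e hke using hw
  have key : ∀ P : Finset ℕ, P ⊆ m.primeFactors →
      FJ α (univ.filter (fun i => ∀ q ∈ P, (addOrderOf (α i)).factorization q ≤ k0 q))ᶜ
        ∈ relSub m := by
    intro P
    induction P using Finset.induction_on with
    | empty =>
      intro _
      have : FJ α (univ.filter (fun i => ∀ q ∈ (∅ : Finset ℕ),
          (addOrderOf (α i)).factorization q ≤ k0 q))ᶜ = 0 := by
        funext x
        simp [FJ]
      rw [this]
      exact (relSub m).zero_mem
    | insert q P hqP ih =>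
      intro hP
      have hPm : P ⊆ m.primeFactors := fun x hx => hP (mem_insert_of_mem hx)
      have hqm := hP (mem_insert_self q P)
      rw [Nat.mem_primeFactors] at hqm
      obtain ⟨hq, hqm, -⟩ := hqm
      obtain ⟨he1, hφ, hwin, -⟩ := hke q hq
      set JP := univ.filter (fun i : Fin N => ∀ q ∈ P,
        (addOrderOf (α i)).factorization q ≤ k0 q) with hJP
      set J0 := univ.filter (fun i : Fin N => ∀ r ∈ insert q P,
        (addOrderOf (α i)).factorization r ≤ k0 r) with hJ0
      set J1 := JP.filter (fun i => ¬ (addOrderOf (α i)).factorization q ≤ k0 q) with hJ1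
      have hJ0' : J0 = JP.filter (fun i => (addOrderOf (α i)).factorization q ≤ k0 q) := by
        ext i
        simp only [hJ0, hJP, mem_filter, mem_univ, true_and, mem_insert, forall_eq_or_imp]
        exact and_comm
      have hJPu : JP = J0 ∪ J1 := by
        rw [hJ0', hJ1, filter_union_filter_not_eq]
      have hd01 : Disjoint J0 J1 := by
        rw [hJ0', hJ1]
        exact disjoint_filter_filter_not _ _ _
      have hsplit := FJ_add α hd01 hJPu
      have hTP : TateF (FJ α JP) := by
        have h1 := FJ_add α (J := univ) (J1 := JP) (J2 := JPᶜ) disjoint_compl_right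
          (union_compl JP).symm
        have h2 : FJ α JP = FJ α univ - FJ α JPᶜ := by rw [h1]; abel
        rw [h2]
        exact hT.sub (TateF_of_mem_relSub (ih hPm))
      -- data at q
      set K := m.factorization q with hK
      have hKpos : K ≠ 0 := (hq.factorization_pos_of_dvd hm0 hqm).ne'
      have hD : Dat m (q ^ K) (m / q ^ K) q :=
        { hm := (Nat.ordProj_mul_ordCompl_eq_self m q).symm
          hq := hq
          hQ := ⟨K, hKpos, rfl⟩
          hcop := (Nat.coprime_ordCompl hq hm0).pow_left K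
          hn := (Nat.ordCompl_pos q hm0).ne' }
      have hmem : FJ α J1 ∈ relSub m := by
        refine split_q hD (K := K) (k0 := k0 q) (e := e q) rfl he1 (F0 := FJ α J0) (FJ_odd α J1)
          (by rw [← hsplit]; exact hTP) ?_ ?_ ?_
        · intro a ha
          obtain ⟨i, hi, hai⟩ := FJ_ne ha
          rw [hJ0', mem_filter] at hi
          rw [← Nat.factorization_le_iff_dvd (order_pos a).ne'
            (mul_ne_zero (pow_pos hq.pos _).ne' hD.hn)]
          intro p
          have hmf : (addOrderOf a).factorization p ≤ m.factorization p :=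
            (Nat.factorization_le_iff_dvd (order_pos a).ne' hm0).mpr (addOrderOf_dvd_m a) p
          rw [Nat.factorization_mul (pow_pos hq.pos _).ne' hD.hn, Finsupp.add_apply]
          by_cases hpq : p = q
          · subst hpq
            rw [Nat.Prime.factorization_pow hq, Finsupp.single_eq_same, hai]
            exact le_add_right hi.2
          · have h1 : m.factorization p = (q ^ K).factorization p
                + (m / q ^ K).factorization p := by
              conv_lhs => rw [hD.hm]
              rw [Nat.factorization_mul (pow_pos hq.pos _).ne' hD.hn, Finsupp.add_apply]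
            rw [Nat.Prime.factorization_pow hq, Finsupp.single_eq_of_ne hpq, zero_add] at h1
            rw [← h1]
            exact hmf.trans (Nat.le_add_left _ _)
        · intro a ha
          obtain ⟨i, hi, hai⟩ := FJ_ne ha
          rw [hJ1, mem_filter] at hi
          rw [hq.pow_dvd_iff_le_factorization (order_pos a).ne', hai]
          exact (hwin i).resolve_left hi.2
        · have h1 := FJ_norm α J1
          have h2 : (6 * N : ℤ) < ((q ^ (e q)).totient : ℕ) := by exact_mod_cast hφ
          linarith
      have hfin : FJ α J0ᶜ = FJ α JPᶜ + FJ α J1 := by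
        apply FJ_add
        · rw [disjoint_left]
          intro i hi hi1
          rw [mem_compl] at hi
          exact hi (mem_of_mem_filter i hi1)
        · ext i
          simp only [mem_compl, mem_union, hJ0', hJ1, mem_filter, not_and]
          constructor
          · intro h
            by_cases hiP : i ∈ JP
            · right; exact ⟨hiP, h hiP⟩
            · left; exact hiP
          · rintro (h | h) hiP
            · exact absurd hiP h
            · exact h.2
      rw [hfin]
      exact (relSub m).add_mem (ih hPm) hmem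
  refine ⟨_, ?_, key m.primeFactors (Subset.refl _)⟩
  intro i hi
  rw [mem_filter] at hi
  rw [Nat.dvd_iff_prime_pow_dvd_dvd]
  intro p k hp hpk
  rcases Nat.eq_zero_or_pos k with rfl | hk
  · rw [pow_zero]; exact one_dvd _
  have hpm : p ∈ m.primeFactors := by
    rw [Nat.mem_primeFactors]
    exact ⟨hp, ((dvd_pow_self p hk.ne').trans hpk).trans (addOrderOf_dvd_m _), hm0⟩
  have h1 := hi.2 p hpm
  have h2 : k ≤ k0 p := ((hp.pow_dvd_iff_le_factorization (order_pos _).ne').mp hpk).trans h1
  exact (pow_dvd_pow p h2).trans (hke p hp).2.2.2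

end FJ

end Pool.Agent.Lib.MP_938ce2_ag_H7e
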